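import Pool.Agent.H30.LPJ.Crj

/-!
# No look-ahead given the near path, jets of all orders, at real windows

`NrJ`: the digits of the near path and of the near jets of the second kind over the charts of the
window `b ∈ G`, for windows up to `o`. `NjW`: given the near path over the charts of `b`, the record
at the window `y` does not see the near jets of the second kind, and, given these, not the jets of the
first kind behind the natural digits of `y`. `nj_real`: from the indices to the real windows.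
-/

set_option autoImplicit false

namespace Pool.LPJ30

open Finset Real MvPolynomial
open Pool.Agent.H49.Ent Pool.Agent.H32.Dense Pool.STK Pool.KA Pool.KSAT Pool.K2S Pool.PB Pool.S6C
  Pool.GEN Pool.RCD Pool.LA91
open Pool.OWN83 (TwoRelS TRelS yX kn0_yX ae_shift)
open Pool.OWN68 (cl2_vg)
open Pool.AVG96 (fl fl_mem fl_mono le_fl whG)
open Pool.LP30

variable {m : ℕ} {S : PCl m}

/-- **The digits of the near path and of the near jets of the second kind** over the charts of `b`,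
for windows up to `o`. -/
structure NrJ (sn : ℕ → ℝ → ℝ) (d : ℕ) {n n' : ℕ} (T : Fin n → ℝ → ℝ) (oB : Fin n' → ℕ)
    (TB : Fin n' → ℝ → ℝ) (nH nV lv : ℕ → ℝ) (nB : Fin n' → ℝ) (b o τ κ₀ : ℝ) : Prop where
  nr : NrW sn d T nH nV lv b o τ κ₀
  g : ∀ l < d, ∀ l' < l, 3 * (lv l + τ) ≤ lv l'
  B1 : ∀ i, nB i + oB i * b ≤ TB i b + κ₀
  B2 : ∀ i, ∀ l < d, nB i + oB i * o + τ ≤ TB i b + lv l

/-- **Jets of coordinates over the whole chain**, charts of the window `b`, digits `D i`. -/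
noncomputable def jtR (m : ℕ) (c : ℕ → Fin m) (d : ℕ) {n : ℕ} (k : Fin n → Fin m)
    (od : Fin n → ℕ) (T : Fin n → ℝ → ℝ) (b : ℝ) (D : Fin n → ℝ) : Qt m (Fin n → ℤ) :=
  Qt.pi fun i : Fin n => qJet m ((range d).image c) (k i) (od i) b (T i b) (D i)

/-- **No look-ahead given the near path**, between the windows `x ≤ y`, digits of `o`. -/
def NjW (S : PCl m) (c : ℕ → Fin m) (d : ℕ) {n n' : ℕ} (k : Fin n → Fin m) (od : Fin n → ℕ)
    (kB : Fin n' → Fin m) (oB : Fin n' → ℕ) (sn : ℕ → ℝ → ℝ)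
    (T : Fin n → ℝ → ℝ) (TB : Fin n' → ℝ → ℝ) (nH nV : ℕ → ℝ) (nB : Fin n' → ℝ)
    (b x y o κ : ℝ) : Prop :=
  ∃ κ₁ : ℝ, 0 < κ₁ ∧ ∃ e₀ : ℝ, 0 < e₀ ∧ ∀ K : ℕ, Bas S (fun J F A =>
    ∀ (V : Type) (z : F.Ω → V) (V' : Type) (z' : F.Ω → V'),
    Mx (fun J F => ptr F J) (vg x) κ₁ F A z → Mx (fun J F => ptr F J) (vg y) κ₁ F A z' →
    ∀ u u₁ q pa, (jtR m c d k od T b (fun i => T i o - od i * o)).P K e₀ J F A u →
    (jtR m c d k od T b (fun i => T i y - od i * y)).P K e₀ J F A u₁ →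
    (jtR m c d kB oB TB b nB).P K e₀ J F A q →
    (paQ m c d b (fun l => sn l b) nH nV).P K e₀ J F A pa →
    CH (Pool.Agent.H49.Ent.cond F.p A True) q (fun ω => (pa ω, (z ω, F.W ω))) ≤
      CH (Pool.Agent.H49.Ent.cond F.p A True) q (fun ω => (pa ω, (z' ω, F.W ω))) + κ * J ∧
    CH (Pool.Agent.H49.Ent.cond F.p A True) u
        (fun ω => (u₁ ω, ((pa ω, q ω), (z ω, F.W ω)))) ≤
      CH (Pool.Agent.H49.Ent.cond F.p A True) u (fun ω => ((pa ω, q ω), (z' ω, F.W ω))) + κ * J)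

/-- **No look-ahead given the near path**, in small boxes around `g`. -/
def NjG (S : PCl m) (c : ℕ → Fin m) (d : ℕ) {n n' : ℕ} (k : Fin n → Fin m) (od : Fin n → ℕ)
    (kB : Fin n' → Fin m) (oB : Fin n' → ℕ) (sn : ℕ → ℝ → ℝ)
    (T : Fin n → ℝ → ℝ) (TB : Fin n' → ℝ → ℝ) (G : Set ℝ) (g : ℝ) : Prop :=
  ∀ e : ℝ, 0 < e → ∃ κ₀ : ℝ, 0 < κ₀ ∧ ∃ r₀ : ℝ, 0 < r₀ ∧ ∀ r : ℝ, 0 < r → r < r₀ →
    ∀ b ∈ G, ∀ x y o : ℝ, g - r ≤ b → b ≤ x → x ≤ y → y ≤ o → o ≤ g + r →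
    ∀ (nH nV lv : ℕ → ℝ) (nB : Fin n' → ℝ), NrJ sn d T oB TB nH nV lv nB b o (e * r) κ₀ →
      NjW S c d k od kB oB sn T TB nH nV nB b x y o (e * r)

theorem NjW.sub {S' : PCl m} (hs : ∀ (τ : ℝ) (J : ℕ) (F : Fam m J) (A : F.Ω → Prop),
    S'.St τ J F A → S.St τ J F A) {c : ℕ → Fin m} {d n n' : ℕ} {k : Fin n → Fin m}
    {od : Fin n → ℕ} {kB : Fin n' → Fin m} {oB : Fin n' → ℕ}
    {sn : ℕ → ℝ → ℝ} {T : Fin n → ℝ → ℝ} {TB : Fin n' → ℝ → ℝ} {nH nV : ℕ → ℝ} {nB : Fin n' → ℝ}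
    {b x y o κ : ℝ} (h : NjW S c d k od kB oB sn T TB nH nV nB b x y o κ) :
    NjW S' c d k od kB oB sn T TB nH nV nB b x y o κ := by
  obtain ⟨k₁, hk, e, he, H⟩ := h
  exact ⟨k₁, hk, e, he, fun K => (H K).sub hs⟩

theorem NjG.sub {S' : PCl m} (hs : ∀ (τ : ℝ) (J : ℕ) (F : Fam m J) (A : F.Ω → Prop),
    S'.St τ J F A → S.St τ J F A) {c : ℕ → Fin m} {d n n' : ℕ} {k : Fin n → Fin m}
    {od : Fin n → ℕ} {kB : Fin n' → Fin m} {oB : Fin n' → ℕ}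
    {sn : ℕ → ℝ → ℝ} {T : Fin n → ℝ → ℝ} {TB : Fin n' → ℝ → ℝ} {G : Set ℝ} {g : ℝ}
    (h : NjG S c d k od kB oB sn T TB G g) : NjG S' c d k od kB oB sn T TB G g := by
  intro e he
  obtain ⟨κ₀, hκ, r₀, hr, H⟩ := h e he
  exact ⟨κ₀, hκ, r₀, hr, fun r h1 h2 b hb x y o a1 a2 a3 a4 a5 nH nV lv nB hN =>
    (H r h1 h2 b hb x y o a1 a2 a3 a4 a5 nH nV lv nB hN).sub hs⟩

theorem NjW.mono {c : ℕ → Fin m} {d n n' : ℕ} {k : Fin n → Fin m}
    {od : Fin n → ℕ} {kB : Fin n' → Fin m} {oB : Fin n' → ℕ}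
    {sn : ℕ → ℝ → ℝ} {T : Fin n → ℝ → ℝ} {TB : Fin n' → ℝ → ℝ} {nH nV : ℕ → ℝ} {nB : Fin n' → ℝ}
    {b x y o κ κ' : ℝ} (hκ : κ ≤ κ')
    (h : NjW S c d k od kB oB sn T TB nH nV nB b x y o κ) :
    NjW S c d k od kB oB sn T TB nH nV nB b x y o κ' := by
  obtain ⟨κ₁, hκ₁, e₀, he₀, H⟩ := h
  refine ⟨κ₁, hκ₁, e₀, he₀, fun K => Bas.mono 0 (H K) ?_⟩
  intro J _ F A H V z V' z' hz hz' u u₁ q pa hu hu₁ hq hpa
  have h1 := H V z V' z' hz hz' u u₁ q pa hu hu₁ hq hpa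
  have h2 : κ * J ≤ κ' * J := mul_le_mul_of_nonneg_right hκ (Nat.cast_nonneg J)
  exact ⟨by linarith [h1.1], by linarith [h1.2]⟩

section

variable {sn : ℕ → ℝ → ℝ} {d n n' : ℕ} {T : Fin n → ℝ → ℝ} {G : Set ℝ} {nH nV lv : ℕ → ℝ}
  {b x y o wc vc oc E X Sg φ R κ₀ : ℝ}

/-- **Earlier windows** from the slopes, errors for each place. -/
theorem hi_ofL {lv er : ℕ → ℝ} {σ₀ v : ℝ} (hσ : 0 < σ₀)
    (mn : ∀ l < d, ∀ w ∈ G, w ≤ v → sn l w ≤ sn l v)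
    (hlv : ∀ l < d, 0 < lv l) (her : ∀ l < d, 0 ≤ er l)
    (h : ∀ l < d, ∃ u ∈ G, v - (lv l + 2 * σ₀ + 2 * er l) ≤ u ∧ u ≤ v - (lv l + 2 * σ₀ + er l) ∧
      sn l v - sn l u ≤ (v - u) + er l)
    (h4 : ∀ l < d, 2 * lv l + 4 * σ₀ + 4 * er l ≤ 1 - v)
    (h5 : ∀ l < d, ∀ l' < l, 2 * lv l + 4 * σ₀ + 4 * er l ≤ lv l') : HiW sn d lv σ₀ G v where
  room := fun l hl => by linarith [h4 l hl, hlv l hl, her l hl]
  ex := fun l hl => by
    have e0 := hlv l hl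
    have e2 := her l hl
    obtain ⟨u, hu, u1, u2, e1⟩ := h l hl
    refine ⟨u, hu, by linarith, mn l hl u hu (by linarith), by linarith, ?_, fun l' hl' => ?_⟩
    · linarith [h4 l hl]
    · linarith [h5 l hl l' hl']

/-- **The numbers of a box**, jets of all orders. -/
structure BoxJ (sn : ℕ → ℝ → ℝ) (d : ℕ) {n n' : ℕ} (T : Fin n → ℝ → ℝ) (od : Fin n → ℕ)
    (oB : Fin n' → ℕ) (TB : Fin n' → ℝ → ℝ) (G : Set ℝ)
    (nH nV lv : ℕ → ℝ) (nB : Fin n' → ℝ) (b x y o wc vc oc E X Sg Ob φ R κ₀ : ℝ) : Prop where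
  bx : BoxW sn d T G nH nV lv b x y o wc vc oc E X Sg φ R κ₀
  hi : ∀ p ∈ ({b, wc, oc} : Set ℝ), HiW sn d lv (X / 4) G p
  Ob0 : 0 ≤ Ob
  oA : ∀ i, (od i : ℝ) ≤ Ob
  oB' : ∀ i, (oB i : ℝ) ≤ Ob
  ob : Ob * (o - b) ≤ R
  OX : 100 * (Ob * E) ≤ X
  tB : ∀ i, |TB i b - TB i wc - oB i * (b - wc)| ≤ E
  B1 : ∀ i, nB i + oB i * b ≤ TB i b + κ₀
  B2 : ∀ i, ∀ l < d, nB i + oB i * o + X ≤ TB i b + lv l

variable {od : Fin n → ℕ} {oB : Fin n' → ℕ} {TB : Fin n' → ℝ → ℝ} {nB : Fin n' → ℝ} {Ob : ℝ}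

/-- The conditions of the change of charts for the jets of the first kind. -/
theorem BoxJ.tt (h : BoxJ sn d T od oB TB G nH nV lv nB b x y o wc vc oc E X Sg Ob φ R κ₀) {W : ℝ}
    (hW : W ∈ ({b, wc, oc} : Set ℝ)) (h3 : W ≤ x) (i : Fin n) {M : ℝ}
    (hM : M ≤ T i o - od i * o ∨ M ≤ T i y - od i * y) :
    M + od i * W + X / 2 ≤ min (T i b) (T i wc) + (1 - W) ∧
    ∀ l < d, M + od i * W + X / 2 ≤ min (T i b) (T i wc) + lv l := by
  have hb := h.bx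
  have hR := hb.R1 W (by
    rcases hW with rfl | rfl | rfl <;> simp)
  have e1 := hb.e1
  have e2 := hb.e2
  have h4 := (hb.tc i (p := wc) (q := b) (by simp) (by simp) (by linarith [hb.xw, hb.hbx])).2
  have h5 := hb.td i y (by simp) o (by simp) hb.hyo
  have h6 : M + od i * W ≤ T i o + E := by
    have k0 : (0 : ℝ) ≤ od i := Nat.cast_nonneg _
    rcases hM with hM | hM
    · have k1 : (od i : ℝ) * W ≤ od i * o :=
        mul_le_mul_of_nonneg_left (by linarith [hb.hxy, hb.hyo]) k0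
      linarith [hb.E0]
    · have k1 : (od i : ℝ) * W ≤ od i * y :=
        mul_le_mul_of_nonneg_left (by linarith [hb.hxy]) k0
      linarith [hb.hxy, hb.hyo, hb.E0]
  have h7 : T i b - (2 * (Sg * E) + E) ≤ min (T i b) (T i wc) :=
    le_min (by linarith [mul_nonneg hb.Sg0 hb.E0.le, hb.E0]) (by linarith)
  have h8 := hb.tu i b (by simp) o (by simp) (by linarith [hb.hbx, hb.hxy, hb.hyo])
  have h9 : Sg * (o - b) ≤ R := by
    have : (0 : ℝ) ≤ o - b := by linarith [hb.hbx, hb.hxy, hb.hyo]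
    linarith [hb.RS]
  constructor
  · linarith [hb.RX, hb.X0]
  · intro l hl
    linarith [hb.nr.t i l hl, hb.X0]

/-- The conditions of the change of charts for the jets of the second kind. -/
theorem BoxJ.tb (h : BoxJ sn d T od oB TB G nH nV lv nB b x y o wc vc oc E X Sg Ob φ R κ₀) {W : ℝ}
    (hW : W ∈ ({b, wc, oc} : Set ℝ)) (h3 : W ≤ x) (i : Fin n') :
    nB i + oB i * W + X / 2 ≤ min (TB i b) (TB i wc) + (1 - W) ∧
    ∀ l < d, nB i + oB i * W + X / 2 ≤ min (TB i b) (TB i wc) + lv l := by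
  have hb := h.bx
  have hR := hb.R1 W (by
    rcases hW with rfl | rfl | rfl <;> simp)
  have e1 := hb.e1
  have e2 := h.OX
  have k0 : (0 : ℝ) ≤ oB i := Nat.cast_nonneg _
  have k1 : (oB i : ℝ) * W ≤ oB i * o :=
    mul_le_mul_of_nonneg_left (by linarith [hb.hxy, hb.hyo]) k0
  have k2 : (oB i : ℝ) * (o - b) ≤ Ob * (o - b) :=
    mul_le_mul_of_nonneg_right (h.oB' i) (by linarith [hb.hbx, hb.hxy, hb.hyo])
  have k3 : (oB i : ℝ) * (b - wc) ≤ 2 * (Ob * E) := by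
    rcases le_total b wc with hle | hle
    · have k4 : (oB i : ℝ) * (b - wc) ≤ 0 := by
        have := mul_le_mul_of_nonneg_left (show b - wc ≤ 0 by linarith) k0
        linarith
      have k5 := mul_nonneg h.Ob0 hb.E0.le
      linarith
    · have k4 : (oB i : ℝ) * (b - wc) ≤ Ob * (b - wc) :=
        mul_le_mul_of_nonneg_right (h.oB' i) (by linarith)
      have k5 : Ob * (b - wc) ≤ Ob * (2 * E) :=
        mul_le_mul_of_nonneg_left (by linarith [hb.xw, hb.hbx]) h.Ob0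
      linarith
  have h4 := (abs_le.1 (h.tB i)).2
  have h7 : TB i b - (2 * (Ob * E) + E) ≤ min (TB i b) (TB i wc) :=
    le_min (by linarith [mul_nonneg h.Ob0 hb.E0.le, hb.E0]) (by linarith)
  constructor
  · linarith [hb.RX, hb.X0, h.B1 i, hb.Rk, h.ob]
  · intro l hl
    linarith [h.B2 i l hl, hb.X0]

/-- **The statement at the indices**: the records at `zw ≤ x` and `zv ≥ y`, the charts at `wc`,
digits `Po`, `Pv`. -/
def NjX (S : PCl m) (c : ℕ → Fin m) (d : ℕ) {n n' : ℕ} (k : Fin n → Fin m) (od : Fin n → ℕ)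
    (kB : Fin n' → Fin m) (oB : Fin n' → ℕ) (sn : ℕ → ℝ → ℝ)
    (T : Fin n → ℝ → ℝ) (TB : Fin n' → ℝ → ℝ) (nH nV : ℕ → ℝ) (nB : Fin n' → ℝ)
    (wc zw zv : ℝ) (Pv Po : Fin n → ℝ) (κ : ℝ) : Prop :=
  ∀ ε : ℝ, 0 < ε → ∃ κ₁ : ℝ, 0 < κ₁ ∧ ∃ e₀ : ℝ, 0 < e₀ ∧ ∀ K : ℕ, Bas S (fun J F A =>
    ∀ (V : Type) (z : F.Ω → V) (V' : Type) (z' : F.Ω → V'),
    Mx (fun J F => ptr F J) (vg zw) κ₁ F A z → Mx (fun J F => ptr F J) (vg zv) κ₁ F A z' →
    ∀ u u₁ q pa, (jtR m c d k od T wc Po).P K e₀ J F A u → (jtR m c d k od T wc Pv).P K e₀ J F A u₁ →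
    (jtR m c d kB oB TB wc nB).P K e₀ J F A q →
    (paQ m c d wc (fun l => sn l wc) nH nV).P K e₀ J F A pa →
    CH (Pool.Agent.H49.Ent.cond F.p A True) q (fun ω => (pa ω, (z ω, F.W ω))) ≤
      CH (Pool.Agent.H49.Ent.cond F.p A True) q (fun ω => (pa ω, (z' ω, F.W ω))) + (κ + ε) * J ∧
    CH (Pool.Agent.H49.Ent.cond F.p A True) u
        (fun ω => (u₁ ω, ((pa ω, q ω), (z ω, F.W ω)))) ≤
      CH (Pool.Agent.H49.Ent.cond F.p A True) u (fun ω => ((pa ω, q ω), (z' ω, F.W ω))) +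
        (κ + ε) * J)

/-- **From the indices to the real windows.** -/
theorem nj_real {c : ℕ → Fin m} {k : Fin n → Fin m} {kB : Fin n' → Fin m} {C₀ : ℝ} (htm : TmC S C₀)
    (hpos : ∀ (τ : ℝ) (J : ℕ) (F : Fam m J) (A : F.Ω → Prop), S.St τ J F A → 0 < Pe F.p A)
    (hW : ChG S c d sn G)
    (att : ∀ i, ∀ w ∈ G, ∃ rk : ℝ, 0 ≤ rk ∧ Att S ((range d).image c) (k i) w (T i w) rk)
    (attB : ∀ i, ∀ w ∈ G, ∃ rk : ℝ, 0 ≤ rk ∧ Att S ((range d).image c) (kB i) w (TB i w) rk)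
    (h : BoxJ sn d T od oB TB G nH nV lv nB b x y o wc vc oc E X Sg Ob φ R κ₀) {zw zv κ E₂ : ℝ}
    (hzw : zw ≤ x) (hzv : y ≤ zv) (hzv1 : zv ≤ 1) (hE₂ : 0 ≤ E₂)
    (hη : ∃ η, RNum S (fun J F => ptr F J) (vg zw) η)
    (hη' : ∃ η, RNum S (fun J F => ptr F J) (vg zv) η) {Pv Po : Fin n → ℝ}
    (hPo1 : ∀ i, Po i ≤ T i o - od i * o + E₂) (hPo2 : ∀ i, T i o - od i * o ≤ Po i + E₂)
    (hPv : ∀ i, Pv i ≤ T i y - od i * y + E₂)
    (hni : NjX S c d k od kB oB sn T TB nH nV nB wc zw zv Pv Po κ) {ε : ℝ} (hε : 0 < ε) :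
    NjW S c d k od kB oB sn T TB nH nV nB b x y o (κ + 3 * (n * E₂) + ε) := by
  obtain ⟨δ, hδ, hδε⟩ : ∃ δ : ℝ, 0 < δ ∧ 8 * δ = ε := ⟨ε / 8, by positivity, by ring⟩
  have hb := h.bx
  obtain ⟨W, hWG, hWm, bW, wW, Wx⟩ := hb.mx
  have hfp : ∀ (J : ℕ) (F : Fam m J), ∃ χ : PtT F → PtT F, ∀ ω, ptr F J ω = χ (ptr F J ω) :=
    fun J F => ⟨fun x => x, fun _ => rfl⟩
  have nb := hb.nrB hWm bW Wx
  have nw := hb.nrW hWm wW Wx
  have hi : HiW sn d lv (X / 2 / 2) G W := by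
    have h1 := h.hi W hWm
    have h2 : X / 4 = X / 2 / 2 := by ring
    rwa [h2] at h1
  have hl2 : 0 < Real.log 2 := Real.log_pos one_lt_two
  have hl21 : Real.log 2 ≤ 1 := by
    have := Real.log_two_lt_d9
    linarith
  have hlog : ∀ {t : ℝ}, t ≤ E₂ → Real.log 2 * t ≤ E₂ := by
    intro t h1
    rcases le_total t 0 with h2 | h2
    · have : Real.log 2 * t ≤ 0 := mul_nonpos_of_nonneg_of_nonpos hl2.le h2
      linarith
    · nlinarith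
  have hx1 : x ≤ 1 := hb.hxy.trans (hzv.trans hzv1)
  have hxz : x ≤ zv := hb.hxy.trans hzv
  obtain ⟨pp3, pp4⟩ := hb.pp hWm Wx
  have pp3' : ∀ l < d, nH l + X / 2 ≤ min (sn l wc) (sn l b) + (1 - W) ∧
      nV l + W + X / 2 ≤ min (sn l wc) (sn l b) + (1 - W) := fun l hl => by
    rw [min_comm]
    exact pp3 l hl
  have pp4' : ∀ l < d, ∀ l' < l, nH l + X / 2 ≤ min (sn l wc) (sn l b) + lv l' ∧
      nV l + W + X / 2 ≤ min (sn l wc) (sn l b) + lv l' := fun l hl => by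
    rw [min_comm]
    exact pp4 l hl
  -- up
  have up : ∀ {U U' : Type} {Q : Qt m U} {Q' : Qt m U'} {a v : ℝ}, W ≤ v → v ≤ 1 →
      FewC S (fun J F => ptr F J) (vg W) (fun _ F => F.W) Q Q' a →
      FewC S (fun J F => ptr F J) (vg v) (fun _ F => F.W) Q Q' a := fun h1 h2 h3 =>
    FewC.up hpos (fun J F => ⟨fun x => x, fun _ => rfl⟩) (fun J F => vg_mono h1 h2 J F)
      (fun J F => ⟨fun x => x, fun _ => rfl⟩) h3
  -- the jets of the first kind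
  have q1 := up Wx hx1 (fewC_jt (f := fun J F => ptr F J) (y := fun _ F => F.W) htm hpos hW hfp kn_W
    hWG nb hi (k := k) (od := od) (w₁ := wc) (w₂ := b) (p₁ := fun i => T i wc) (p₂ := fun i => T i b)
    (N₁ := Po) (N₂ := fun i => T i o - od i * o)
    (M := fun i => min (Po i) (T i o - od i * o)) (c₀ := E₂) wW bW
    (fun i => min_le_left _ _) (fun i => min_le_right _ _) (fun i => by
      refine hlog ?_
      rcases min_choice (Po i) (T i o - od i * o) with h2 | h2 <;> rw [h2] <;> linarith [hPo2 i])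
    (fun i => by
      rw [min_comm (T i wc)]
      exact (h.tt hWm Wx i (Or.inl (min_le_right _ _))).1)
    (fun i => by
      rw [min_comm (T i wc)]
      exact (h.tt hWm Wx i (Or.inl (min_le_right _ _))).2))
  have q2 := up Wx hx1 (fewC_jt (f := fun J F => ptr F J) (y := fun _ F => F.W) htm hpos hW hfp kn_W
    hWG nb hi (k := k) (od := od) (w₁ := b) (w₂ := wc) (p₁ := fun i => T i b) (p₂ := fun i => T i wc)
    (N₁ := fun i => T i y - od i * y) (N₂ := Pv)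
    (M := fun i => min (T i y - od i * y) (Pv i)) (c₀ := E₂) bW wW
    (fun i => min_le_left _ _) (fun i => min_le_right _ _) (fun i => by
      refine hlog ?_
      rcases min_choice (T i y - od i * y) (Pv i) with h2 | h2 <;> rw [h2] <;> linarith [hPv i])
    (fun i => (h.tt hWm Wx i (Or.inr (min_le_left _ _))).1)
    (fun i => (h.tt hWm Wx i (Or.inr (min_le_left _ _))).2))
  have q6 := up (Wx.trans hxz) hzv1 (fewC_jt (f := fun J F => ptr F J) (y := fun _ F => F.W) htm hpos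
    hW hfp kn_W hWG nb hi (k := k) (od := od) (w₁ := b) (w₂ := wc) (p₁ := fun i => T i b)
    (p₂ := fun i => T i wc)
    (N₁ := fun i => T i o - od i * o) (N₂ := Po)
    (M := fun i => min (T i o - od i * o) (Po i)) (c₀ := E₂) bW wW
    (fun i => min_le_left _ _) (fun i => min_le_right _ _) (fun i => by
      refine hlog ?_
      rcases min_choice (T i o - od i * o) (Po i) with h2 | h2 <;> rw [h2] <;> linarith [hPo1 i])
    (fun i => (h.tt hWm Wx i (Or.inl (min_le_left _ _))).1)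
    (fun i => (h.tt hWm Wx i (Or.inl (min_le_left _ _))).2))
  -- the jets of the second kind
  have b1 := fewC_jt (f := fun J F => ptr F J) (y := fun _ F => F.W) htm hpos
    hW hfp kn_W hWG nb hi (k := kB) (od := oB) (w₁ := b) (w₂ := wc) (p₁ := fun i => TB i b)
    (p₂ := fun i => TB i wc) (N₁ := nB) (N₂ := nB) (M := nB) (c₀ := 0) bW wW
    (fun i => le_rfl) (fun i => le_rfl) (fun i => by rw [sub_self, mul_zero])
    (fun i => (h.tb hWm Wx i).1) (fun i => (h.tb hWm Wx i).2)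
  have b2 := fewC_jt (f := fun J F => ptr F J) (y := fun _ F => F.W) htm hpos
    hW hfp kn_W hWG nb hi (k := kB) (od := oB) (w₁ := wc) (w₂ := b) (p₁ := fun i => TB i wc)
    (p₂ := fun i => TB i b) (N₁ := nB) (N₂ := nB) (M := nB) (c₀ := 0) wW bW
    (fun i => le_rfl) (fun i => le_rfl) (fun i => by rw [sub_self, mul_zero])
    (fun i => by
      rw [min_comm]
      exact (h.tb hWm Wx i).1) (fun i => by
      rw [min_comm]
      exact (h.tb hWm Wx i).2)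
  have b3 := fewC_jt (f := fun J F => ptr F J) (y := fun _ F => F.W) htm hpos
    hW hfp kn_W hWG nw hi (k := kB) (od := oB) (w₁ := wc) (w₂ := b) (p₁ := fun i => TB i wc)
    (p₂ := fun i => TB i b) (N₁ := nB) (N₂ := nB) (M := nB) (c₀ := 0) wW bW
    (fun i => le_rfl) (fun i => le_rfl) (fun i => by rw [sub_self, mul_zero])
    (fun i => by
      rw [min_comm]
      exact (h.tb hWm Wx i).1) (fun i => by
      rw [min_comm]
      exact (h.tb hWm Wx i).2)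
  have B1 := up Wx hx1 b1
  have B1' := up (Wx.trans hxz) hzv1 b1
  have B2 := up Wx hx1 b2
  have B3' := up (Wx.trans hxz) hzv1 b3
  -- the near path
  have q3 := up Wx hx1 (few_paC (f := fun J F => ptr F J) (y := fun _ F => F.W) htm hpos hW hfp kn_W
    hWG nb wW pp3 pp4).fewC
  have q5 := up (Wx.trans hxz) hzv1 (few_paC (f := fun J F => ptr F J) (y := fun _ F => F.W) htm hpos
    hW hfp kn_W hWG nw bW pp3' pp4').fewC
  obtain ⟨k0, hk0, e0, he0, H0⟩ := hni δ hδ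
  obtain ⟨e1, he1, H1⟩ := q1.mx hpos δ hδ
  obtain ⟨e2, he2, H2⟩ := q2.mx hpos δ hδ
  obtain ⟨e3, he3, H3⟩ := q3.mx hpos (δ / 2) (half_pos hδ)
  obtain ⟨e5, he5, H5⟩ := q5.mx hpos (δ / 2) (half_pos hδ)
  obtain ⟨e6, he6, H6⟩ := q6.mx hpos δ hδ
  obtain ⟨f1, hf1, L1⟩ := B1.mx hpos (δ / 2) (half_pos hδ)
  obtain ⟨f2, hf2, L2⟩ := B2.mx hpos δ hδ
  obtain ⟨f3, hf3, L3⟩ := B3'.mx hpos (δ / 2) (half_pos hδ)
  obtain ⟨f4, hf4, L4⟩ := B1'.mx hpos δ hδ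
  obtain ⟨e₀, he₀, l0, l1, l2, l3, l5, l6, g1, g2, g3, g4⟩ : ∃ e₀ : ℝ, 0 < e₀ ∧ e₀ ≤ e0 ∧ e₀ ≤ e1 ∧
      e₀ ≤ e2 ∧ e₀ ≤ e3 ∧ e₀ ≤ e5 ∧ e₀ ≤ e6 ∧ e₀ ≤ f1 ∧ e₀ ≤ f2 ∧ e₀ ≤ f3 ∧ e₀ ≤ f4 := by
    refine ⟨min (min (min (min e0 e1) (min e2 e3)) (min e5 e6)) (min (min f1 f2) (min f3 f4)),
      by positivity, ?_, ?_, ?_, ?_, ?_, ?_, ?_, ?_, ?_, ?_⟩ <;> simp
  obtain ⟨κ₁, hκ₁, m1, m2⟩ : ∃ κ₁ : ℝ, 0 < κ₁ ∧ κ₁ ≤ k0 ∧ κ₁ ≤ δ / 4 :=
    ⟨min k0 (δ / 4), by positivity, min_le_left _ _, min_le_right _ _⟩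
  have xw : ∀ D : Fin n → ℝ, Exs S (jtR m c d k od T wc D) := fun D => exs_pi fun i => by
    obtain ⟨rk, r1, r2⟩ := att i wc hb.gw
    exact exs_jet r1 r2
  have xB : Exs S (jtR m c d kB oB TB wc nB) := exs_pi fun i => by
    obtain ⟨rk, r1, r2⟩ := attB i wc hb.gw
    exact exs_jet r1 r2
  obtain ⟨K₁, M₁, X1⟩ := xw Po e₀ he₀
  obtain ⟨K₂, M₂, X2⟩ := xw Pv e₀ he₀
  obtain ⟨K₃, M₃, X3⟩ := exs_pa hW hb.gw nH nV e₀ he₀
  obtain ⟨K₄, M₄, X4⟩ := xB e₀ he₀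
  obtain ⟨η, hη⟩ := hη
  obtain ⟨η', hη'⟩ := hη'
  refine ⟨κ₁, hκ₁, e₀, he₀, fun K => ?_⟩
  obtain ⟨L, hL0, hL1, hL2, hL3, hL4⟩ : ∃ L : ℕ, K ≤ L ∧ K₁ ≤ L ∧ K₂ ≤ L ∧ K₃ ≤ L ∧ K₄ ≤ L :=
    ⟨max (max (max K K₁) (max K₂ K₃)) K₄, by simp, by simp, by simp, by simp, by simp⟩
  refine Bas.mono 0 (((((H0 L).and (H1 L)).and ((H2 L).and (H3 L))).and
    (((H5 L).and (H6 L)).and (((L1 L).and (L2 L)).and ((L3 L).and (L4 L))))).and
    (((mx_ex hpos hη κ₁ hκ₁).and (mx_ex hpos hη' κ₁ hκ₁)).and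
      ((pos_bas hpos).and (X1.and (X2.and (X3.and X4)))))) ?_
  rintro J - F A ⟨⟨⟨⟨H0, H1⟩, H2, H3⟩, ⟨H5, H6⟩, ⟨L1, L2⟩, L3, L4⟩,
    ⟨⟨Vw, zq, hzq⟩, Vv, zr, hzr⟩, hA,
    ⟨v, hv, -⟩, ⟨v₁, hv₁, -⟩, ⟨pb, hpb, -⟩, qb, hqb, -⟩ V z V' z' hz hz' u u₁ q pa hu hu₁ hq hpa
  have hcl := isLaw_cond F.isLaw hA
  have hJ0 : (0 : ℝ) ≤ J := Nat.cast_nonneg J
  have hv := (jtR m c d k od T wc Po).mono hL1 le_rfl hv
  have hv₁ := (jtR m c d k od T wc Pv).mono hL2 le_rfl hv₁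
  have hpb := (paQ m c d wc (fun l => sn l wc) nH nV).mono hL3 le_rfl hpb
  have hqb := (jtR m c d kB oB TB wc nB).mono hL4 le_rfl hqb
  have hu := (jtR m c d k od T b (fun i => T i o - od i * o)).mono hL0 le_rfl hu
  have hu₁ := (jtR m c d k od T b (fun i => T i y - od i * y)).mono hL0 le_rfl hu₁
  have hpa := (paQ m c d b (fun l => sn l b) nH nV).mono hL0 le_rfl hpa
  have hq := (jtR m c d kB oB TB b nB).mono hL0 le_rfl hq
  -- the records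
  have hz2 := hz.le' (m2.trans (by linarith : δ / 4 ≤ δ / 2 / 2))
  have hzr2 := hzr.le' (m2.trans (by linarith : δ / 4 ≤ δ / 2 / 2))
  have hz3 := hz.le' (m2.trans (by linarith : δ / 4 ≤ δ / 2))
  have hzr3 := hzr.le' (m2.trans (by linarith : δ / 4 ≤ δ / 2))
  have r0 := H0 _ zq _ zr (hzq.le' m1) (hzr.le' m1) v v₁ qb pb
    ((jtR m c d k od T wc Po).mono le_rfl l0 hv) ((jtR m c d k od T wc Pv).mono le_rfl l0 hv₁)
    ((jtR m c d kB oB TB wc nB).mono le_rfl l0 hqb)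
    ((paQ m c d _ _ nH nV).mono le_rfl l0 hpb)
  have r1 := H1 _ z hz3 (fun ω => (pa ω, v ω)) u
    ⟨(paQ m c d _ _ nH nV).mono le_rfl l1 hpa, (jtR m c d k od T wc Po).mono le_rfl l1 hv⟩
    ((jtR m c d k od T b _).mono le_rfl l1 hu)
  have r2 := H2 _ z hz3 (fun ω => (pa ω, u₁ ω)) v₁
    ⟨(paQ m c d _ _ nH nV).mono le_rfl l2 hpa, (jtR m c d k od T b _).mono le_rfl l2 hu₁⟩
    ((jtR m c d k od T wc Pv).mono le_rfl l2 hv₁)
  have r3 := H3 _ z hz2 pa pb ((paQ m c d _ _ nH nV).mono le_rfl l3 hpa)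
    ((paQ m c d _ _ nH nV).mono le_rfl l3 hpb)
  have r5 := H5 _ zr hzr2 pb pa ((paQ m c d _ _ nH nV).mono le_rfl l5 hpb)
    ((paQ m c d _ _ nH nV).mono le_rfl l5 hpa)
  have r6 := H6 _ zr hzr3 (fun ω => (pa ω, u ω)) v
    ⟨(paQ m c d _ _ nH nV).mono le_rfl l6 hpa, (jtR m c d k od T b _).mono le_rfl l6 hu⟩
    ((jtR m c d k od T wc Po).mono le_rfl l6 hv)
  have s1 := L1 _ z hz2 (fun ω => (pa ω, q ω)) qb
    ⟨(paQ m c d _ _ nH nV).mono le_rfl g1 hpa, (jtR m c d kB oB TB b nB).mono le_rfl g1 hq⟩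
    ((jtR m c d kB oB TB wc nB).mono le_rfl g1 hqb)
  have s2 := L2 _ z hz3 (fun ω => (pa ω, qb ω)) q
    ⟨(paQ m c d _ _ nH nV).mono le_rfl g2 hpa, (jtR m c d kB oB TB wc nB).mono le_rfl g2 hqb⟩
    ((jtR m c d kB oB TB b nB).mono le_rfl g2 hq)
  have s3 := L3 _ zr hzr2 (fun ω => (pb ω, qb ω)) q
    ⟨(paQ m c d _ _ nH nV).mono le_rfl g3 hpb, (jtR m c d kB oB TB wc nB).mono le_rfl g3 hqb⟩
    ((jtR m c d kB oB TB b nB).mono le_rfl g3 hq)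
  have s4 := L4 _ zr hzr3 (fun ω => (pa ω, q ω)) qb
    ⟨(paQ m c d _ _ nH nV).mono le_rfl g4 hpa, (jtR m c d kB oB TB b nB).mono le_rfl g4 hq⟩
    ((jtR m c d kB oB TB wc nB).mono le_rfl g4 hqb)
  have r4 := hz.2 _ zq (cl2_vg (f := fun J F => ptr F J) hzw hx1 hzq.1)
  have r7 := hzr.2 _ z' (cl2_vg (f := fun J F => ptr F J) hzv hzv1 hz'.1)
  simp only [mul_zero, zero_add] at s1 s2 s3 s4 r3 r5
  have hδJ : 0 ≤ δ * J := by positivity
  have hκJ : κ₁ * J ≤ δ * J := mul_le_mul_of_nonneg_right (by linarith) hJ0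
  have h2J : δ / 2 * J = δ * J / 2 := by ring
  rw [h2J] at s1 s3 r3 r5
  -- the pairs
  have t3 : CH (Pool.Agent.H49.Ent.cond F.p A True) (fun ω => (pb ω, qb ω))
      (fun ω => ((pa ω, q ω), (z ω, F.W ω))) ≤ δ * J := by
    have h1 := CH_subadd hcl.nonneg pb qb (fun ω => ((pa ω, q ω), (z ω, F.W ω)))
    have h2 : CH (Pool.Agent.H49.Ent.cond F.p A True) pb (fun ω => ((pa ω, q ω), (z ω, F.W ω))) ≤
        CH (Pool.Agent.H49.Ent.cond F.p A True) pb (fun ω => (pa ω, (z ω, F.W ω))) :=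
      CH_mono_cond hcl.nonneg fun ω ω' _ _ hh => by
        have h3 := Prod.ext_iff.mp hh
        exact Prod.ext (Prod.ext_iff.mp h3.1).1 h3.2
    linarith
  have t5 : CH (Pool.Agent.H49.Ent.cond F.p A True) (fun ω => (pa ω, q ω))
      (fun ω => ((pb ω, qb ω), (zr ω, F.W ω))) ≤ δ * J := by
    have h1 := CH_subadd hcl.nonneg pa q (fun ω => ((pb ω, qb ω), (zr ω, F.W ω)))
    have h2 : CH (Pool.Agent.H49.Ent.cond F.p A True) pa (fun ω => ((pb ω, qb ω), (zr ω, F.W ω))) ≤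
        CH (Pool.Agent.H49.Ent.cond F.p A True) pa (fun ω => (pb ω, (zr ω, F.W ω))) :=
      CH_mono_cond hcl.nonneg fun ω ω' _ _ hh => by
        have h3 := Prod.ext_iff.mp hh
        exact Prod.ext (Prod.ext_iff.mp h3.1).1 h3.2
    linarith
  have dr : ∀ {U₁ U₂ : Type} (w₁ : F.Ω → U₁) (w₂ : F.Ω → U₂) (zz : F.Ω → V),
      CH (Pool.Agent.H49.Ent.cond F.p A True) w₁ (fun ω => (((pa ω, q ω), w₂ ω), (zz ω, F.W ω))) ≤
        CH (Pool.Agent.H49.Ent.cond F.p A True) w₁ (fun ω => ((pa ω, w₂ ω), (zz ω, F.W ω))) :=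
    fun w₁ w₂ zz => CH_mono_cond hcl.nonneg fun ω ω' _ _ hh => by
      simp only [Prod.mk.injEq] at hh ⊢
      tauto
  have dr' : CH (Pool.Agent.H49.Ent.cond F.p A True) v
      (fun ω => (((pa ω, q ω), u ω), (zr ω, F.W ω))) ≤
      CH (Pool.Agent.H49.Ent.cond F.p A True) v (fun ω => ((pa ω, u ω), (zr ω, F.W ω))) :=
    CH_mono_cond hcl.nonneg fun ω ω' _ _ hh => by
      simp only [Prod.mk.injEq] at hh ⊢
      tauto
  have hk3 : δ * J / 2 ≤ δ * J := by linarith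
  refine ⟨?_, ?_⟩
  · have r0' : CH (Pool.Agent.H49.Ent.cond F.p A True) qb
        (fun ω => ((), (pb ω, (zq ω, F.W ω)))) ≤
        CH (Pool.Agent.H49.Ent.cond F.p A True) qb (fun ω => (pb ω, (zr ω, F.W ω))) +
          (κ + δ) * J := by
      refine le_trans (CH_mono_cond hcl.nonneg fun ω ω' _ _ hh => ?_) r0.1
      exact (Prod.ext_iff.mp hh).2
    have hu0 : CH (Pool.Agent.H49.Ent.cond F.p A True) (fun _ : F.Ω => ())
        (fun ω => ((pa ω, ()), (z ω, F.W ω))) ≤ 0 :=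
      (CH_eq_zero hcl.nonneg fun _ _ _ _ _ => rfl).le
    have key := ni_swap hcl.nonneg (q := Pool.Agent.H49.Ent.cond F.p A True) (u := q)
      (u₁ := fun _ => ()) (v := qb) (v₁ := fun _ => ()) (pa := pa) (pb := pb) (w := F.W) (x := z)
      (x' := z') (z := zq) (z' := zr) r0' s2 hu0 (r3.trans hk3) (r4.trans hκJ) (r5.trans hk3) s4
      (r7.trans hκJ)
    have key' : CH (Pool.Agent.H49.Ent.cond F.p A True) q (fun ω => (pa ω, (z ω, F.W ω))) ≤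
        CH (Pool.Agent.H49.Ent.cond F.p A True) q (fun ω => ((), (pa ω, (z ω, F.W ω)))) :=
      CH_mono_cond hcl.nonneg fun ω ω' _ _ hh => Prod.ext rfl hh
    refine (key'.trans key).trans ?_
    have h5 : 0 ≤ (3 * (n * E₂)) * J := by positivity
    have h6 : (κ + 3 * (n * E₂) + ε) * J = κ * J + 3 * (n * E₂) * J + 8 * (δ * J) := by
      rw [← hδε]
      ring
    rw [h6]
    linarith
  · have key := ni_swap hcl.nonneg (q := Pool.Agent.H49.Ent.cond F.p A True) (u := u) (u₁ := u₁)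
      (v := v) (v₁ := v₁) (pa := fun ω => (pa ω, q ω)) (pb := fun ω => (pb ω, qb ω)) (w := F.W)
      (x := z) (x' := z') (z := zq) (z' := zr)
      r0.2 ((dr u v z).trans r1) ((dr v₁ u₁ z).trans r2) t3 (r4.trans hκJ) t5 (dr'.trans r6)
      (r7.trans hκJ)
    refine key.trans (le_of_eq ?_)
    rw [← hδε]
    ring

end

end Pool.LPJ30
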