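import Pool.Agent.H30.LPJ.Nij

/-!
# No look-ahead given the near path, jets of all orders, almost everywhere

`LoB`: the natural digits of the jets of the first kind do not decrease. `nj_box`: `NjG` at a point
with good numbers. `nj_ae`: in a subclass, `NjG` holds at almost every window of `G` where the levels
of the chain have the slope one, the levels of the targets have slopes between one and `Sg`, and the
levels of the targets of the second kind have exactly the slopes `oB`.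
-/

set_option autoImplicit false

namespace Pool.LPJ30

open Finset Real MvPolynomial MeasureTheory
open Pool.Agent.H49.Ent Pool.Agent.H32.Dense Pool.STK Pool.KA Pool.KSAT Pool.K2S Pool.PB Pool.S6C
  Pool.GEN Pool.RCD Pool.LA91
open Pool.OWN83 (TwoRelS TRelS yX kn0_yX ae_shift)
open Pool.OWN68 (cl2_vg)
open Pool.AVG96 (fl fl_mem fl_mono le_fl whG)
open Pool.LP30

variable {m : ℕ} {S : PCl m} {c : ℕ → Fin m} {d : ℕ} {s a A B g Sg : ℝ} {sn : ℕ → ℝ → ℝ}
  {G : Set ℝ} {n n' : ℕ} {k : Fin n → Fin m} {od : Fin n → ℕ} {kB : Fin n' → Fin m}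
  {oB : Fin n' → ℕ} {T : Fin n → ℝ → ℝ} {TB : Fin n' → ℝ → ℝ}

/-- **The natural digits do not decrease** near `g`, up to small errors. -/
def LoB {n : ℕ} (od : Fin n → ℕ) (T : Fin n → ℝ → ℝ) (G : Set ℝ) (g : ℝ) : Prop :=
  ∃ ρ₀ : ℝ, 0 < ρ₀ ∧ ∀ η : ℝ, 0 < η → ∃ ρ : ℝ, 0 < ρ ∧ ∀ t : ℝ, 0 < t → t < ρ → ∀ i,
    ∀ u ∈ G, ∀ v ∈ G, g - t ≤ u → u ≤ g + t → u ≤ v → v ≤ g + ρ₀ →
      T i u - od i * u ≤ T i v - od i * v + η * t

/-- `LoB` holds if the natural digits increase, or the slope is greater than the order. -/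
theorem lo_of (h : ∀ i, (∀ u ∈ G, ∀ v ∈ G, u ≤ v → T i u - od i * u ≤ T i v - od i * v) ∨
    ∃ c₀ : ℝ, 0 < c₀ ∧ ∀ η : ℝ, 0 < η → ∃ ρ : ℝ, 0 < ρ ∧ ∀ t : ℝ, 0 < t → t < ρ →
      ∀ w ∈ G, ∀ v ∈ G, g - t ≤ w → w ≤ v → v ≤ g + t →
        (od i + c₀) * (v - w) - η * t ≤ T i v - T i w) : LoB od T G g := by
  have key : ∀ i, ∃ ρ₀ : ℝ, 0 < ρ₀ ∧ ∀ η : ℝ, 0 < η → ∃ ρ : ℝ, 0 < ρ ∧ ∀ t : ℝ, 0 < t → t < ρ →
      ∀ u ∈ G, ∀ v ∈ G, g - t ≤ u → u ≤ g + t → u ≤ v → v ≤ g + ρ₀ →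
        T i u - od i * u ≤ T i v - od i * v + η * t := by
    intro i
    rcases h i with h1 | ⟨c₀, hc, h1⟩
    · exact ⟨1, one_pos, fun η hη => ⟨1, one_pos, fun t ht _ u hu v hv _ _ huv _ => by
        have := h1 u hu v hv huv
        have := mul_nonneg hη.le ht.le
        linarith⟩⟩
    · obtain ⟨ρ₁, hρ₁, H1⟩ := h1 (c₀ / 4) (by positivity)
      refine ⟨ρ₁ / 2, by positivity, fun η hη => ?_⟩
      obtain ⟨ρ₂, hρ₂, H2⟩ := h1 (η / 2) (by positivity)
      refine ⟨ρ₂ / 2, by positivity, fun t ht htρ u hu v hv e1 e2 e3 e4 => ?_⟩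
      rcases le_total (v - g) (2 * t) with e5 | e5
      · have := H2 (2 * t) (by positivity) (by linarith) u hu v hv (by linarith) e3 (by linarith)
        have e6 : 0 ≤ c₀ * (v - u) := mul_nonneg hc.le (by linarith)
        linarith
      · have := H1 (v - g) (by linarith) (by linarith) u hu v hv (by linarith) e3 (by linarith)
        have e6 : c₀ * (v - g - t) ≤ c₀ * (v - u) :=
          mul_le_mul_of_nonneg_left (by linarith) hc.le
        have e7 : c₀ * (2 * t) ≤ c₀ * (v - g) := mul_le_mul_of_nonneg_left e5 hc.le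
        have e8 := mul_nonneg hη.le ht.le
        have e9 := mul_nonneg hc.le ht.le
        linarith
  choose ρ₀ h0 H using key
  rcases isEmpty_or_nonempty (Fin n) with hn | hn
  · exact ⟨1, one_pos, fun η hη => ⟨1, one_pos, fun t _ _ i => (hn.false i).elim⟩⟩
  · refine ⟨Finset.univ.inf' Finset.univ_nonempty ρ₀, (Finset.lt_inf'_iff _).2 fun i _ => h0 i,
      fun η hη => ?_⟩
    choose ρ h1 H1 using fun i => H i η hη
    refine ⟨Finset.univ.inf' Finset.univ_nonempty ρ, (Finset.lt_inf'_iff _).2 fun i _ => h1 i,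
      fun t ht htρ i u hu v hv e1 e2 e3 e4 => ?_⟩
    have e5 := Finset.inf'_le (f := ρ₀) (Finset.mem_univ i)
    have e6 := Finset.inf'_le (f := ρ) (Finset.mem_univ i)
    exact H1 i t ht (htρ.trans_le e6) u hu v hv e1 e2 e3 (by linarith)

/-- **The earlier windows in the box.** -/
theorem hi_box {nH nV lv : ℕ → ℝ} {b x y o wc vc oc E X φ R κ₀ η r ρ₁ : ℝ}
    (hbox : BoxW sn d T G nH nV lv b x y o wc vc oc E X Sg φ R κ₀)
    (H1 : ∀ t : ℝ, 0 < t → t < ρ₁ → Bx0 sn d T G g Sg η t) (hη1 : 400 * η ≤ 1) (hη : 0 ≤ η)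
    (hr : 0 ≤ r) (hηr : 40 * (η * r) ≤ X)
    (mn : ∀ l < d, ∀ w ∈ G, ∀ v ∈ G, w ≤ v → sn l w ≤ sn l v)
    (hG : ∀ p ∈ ({b, wc, oc} : Set ℝ), p ∈ G ∧ g - 2 * r ≤ p ∧ p ≤ g + 2 * r)
    (hg : ∀ l < d, ∀ l' < l, 3 * (lv l + X) ≤ lv l') (hXR : 8 * X ≤ R) (hrR : 8 * r ≤ R)
    (hρ : 4 * (r + κ₀ + X) < ρ₁) :
    ∀ p ∈ ({b, wc, oc} : Set ℝ), HiW sn d lv (X / 4) G p := by
  intro p hp
  obtain ⟨hpG, p1, p2⟩ := hG p hp
  have hp1 := hbox.R1 p (by
    rcases hp with rfl | rfl | rfl <;> simp)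
  have hX0 := hbox.X0
  have hκR := hbox.Rk
  have hlk : ∀ l < d, 0 < lv l ∧ lv l ≤ κ₀ := fun l hl => ⟨hbox.nr.lv0 l hl, hbox.lvk hl⟩
  have her : ∀ l < d, 100 * (η * (4 * (r + lv l + X))) ≤ (lv l + X) + 10 * X ∧
      0 ≤ η * (4 * (r + lv l + X)) ∧ 100 * (η * (4 * (r + lv l + X))) ≤ r + lv l + X := by
    intro l hl
    have e1 := (hlk l hl).1
    have e2 : 100 * (η * (4 * (r + lv l + X))) = 400 * η * (lv l + X) + 400 * (η * r) := by ring
    have e3 : 400 * η * (lv l + X) ≤ 1 * (lv l + X) :=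
      mul_le_mul_of_nonneg_right hη1 (by linarith)
    have e4 : 400 * η * r ≤ 1 * r := mul_le_mul_of_nonneg_right hη1 hr
    refine ⟨by linarith, by positivity, by linarith⟩
  clear hbox
  refine hi_ofL (er := fun l => η * (4 * (r + lv l + X))) (by linarith)
    (fun l hl u hu hup => mn l hl u hu p hpG hup)
    (fun l hl => (hlk l hl).1) (fun l hl => (her l hl).2.1) (fun l hl => ?_) (fun l hl => ?_)
    (fun l hl l' hl' => ?_)
  · have e1 := hlk l hl
    have e2 := her l hl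
    have HBl := H1 (4 * (r + lv l + X)) (by linarith) (by linarith)
    obtain ⟨u, hu, u1, u2⟩ := HBl.gap (p - (lv l + 2 * (X / 4) + η * (4 * (r + lv l + X))))
      (by linarith) (by linarith)
    have e3 := (abs_le.1 (HBl.sl u hu p hpG (by linarith) (by linarith) (by linarith) l hl)).2
    exact ⟨u, hu, by linarith, u2, by linarith⟩
  · linarith [(hlk l hl).2, (her l hl).2.2, (hlk l hl).1]
  · linarith [(her l hl).1, hg l hl l' hl', (hlk l hl).1]

/-- **No look-ahead given the near path**, at a point with good numbers. -/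
theorem nj_box (h : NiC S c d k sn T G s A B) (h' : NiC S c d kB sn TB G s A B)
    (hA : ∃ u ∈ G, A ≤ u ∧ u ≤ a + s)
    {θ₀ : EIxJ d n' → ℚ → ℝ} {θ : EIxJ d n' → ℚ → ℚ → ℝ}
    (hN : NjN S (fun J F => ptr F J) (yX ((range d).image c)) c d s a (B - s) (whG G A s) sn G k od
      (fun i w => T i (whG G A s w)) kB oB (fun i w => TB i (whG G A s w)) θ₀ θ)
    (hgG : g ∈ G) (hAg : A < g) (hgB : g < B) (s1 : ∀ l < d, sn l g < 1) (hSg : 0 ≤ Sg)
    (hsl : SlB sn d T G g Sg) (htg : TgB T g Sg) (hlo : LoB od T G g) (hsk : SlK oB TB G g)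
    (hgd : ∀ e : ℝ, 0 < e → ∀ ρ : ℝ, 0 < ρ → ∃ i, GdJ (whG G A s) sn d G
      (fun i w => T i (whG G A s w)) oB (fun i w => TB i (whG G A s w)) a (B - s)
      θ₀ θ (g - s) e ρ i) : NjG S c d k od kB oB sn T TB G g := by
  intro e he
  have hl2 : 0 < Real.log 2 := Real.log_pos one_lt_two
  have hl21 : Real.log 2 ≤ 1 := by
    have := Real.log_two_lt_d9
    linarith
  have hd0 : (0 : ℝ) ≤ d := Nat.cast_nonneg d
  have hn0 : (0 : ℝ) ≤ n := Nat.cast_nonneg n
  have hB1 := h.B1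
  obtain ⟨Ob, hOb0, hOA, hOB⟩ : ∃ Ob : ℝ, 0 ≤ Ob ∧ (∀ i, (od i : ℝ) ≤ Ob) ∧
      ∀ i, (oB i : ℝ) ≤ Ob := by
    refine ⟨∑ i, (od i : ℝ) + ∑ i, (oB i : ℝ), add_nonneg
      (Finset.sum_nonneg fun i _ => Nat.cast_nonneg _)
      (Finset.sum_nonneg fun i _ => Nat.cast_nonneg _), fun i => ?_, fun i => ?_⟩
    · have e1 := Finset.single_le_sum (f := fun i => (od i : ℝ)) (fun i _ => Nat.cast_nonneg _)
        (Finset.mem_univ i)
      have e2 : (0 : ℝ) ≤ ∑ i, (oB i : ℝ) := Finset.sum_nonneg fun i _ => Nat.cast_nonneg _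
      linarith
    · have e1 := Finset.single_le_sum (f := fun i => (oB i : ℝ)) (fun i _ => Nat.cast_nonneg _)
        (Finset.mem_univ i)
      have e2 : (0 : ℝ) ≤ ∑ i, (od i : ℝ) := Finset.sum_nonneg fun i _ => Nat.cast_nonneg _
      linarith
  obtain ⟨ρc, hρc, hlo⟩ := hlo
  obtain ⟨i, hadm, ia, ib, il, r₁, hr₁, hgr⟩ := hgd (e / 16) (by positivity) (ρc / 2)
    (by positivity)
  -- the rooms
  obtain ⟨R₁, hR₁, hR₁s⟩ := fin_lb (D := d) (f := fun l => 1 - sn l g) fun l hl => by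
    linarith [s1 l hl]
  obtain ⟨Lv, hLv, hLvl⟩ := fin_lb (D := d) (f := exN i.lv) hadm.ed.ed.lv0
  have hσd := hadm.ed.ed.σ0
  obtain ⟨R, hR, hRg, hRs⟩ : ∃ R : ℝ, 0 < R ∧ 32 * R ≤ 1 - g ∧ 32 * R ≤ R₁ :=
    ⟨min ((1 - g) / 32) (R₁ / 32), lt_min (by linarith) (by positivity), by
      have := min_le_left ((1 - g) / 32) (R₁ / 32)
      linarith, by
      have := min_le_right ((1 - g) / 32) (R₁ / 32)
      linarith⟩
  -- the error of the levels
  obtain ⟨D, hD⟩ : ∃ D : ℝ, D = ((d : ℝ) + 1) ^ 2 * (n + 1) * (Sg + Ob + 1) := ⟨_, rfl⟩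
  have hD0 : 0 < D := by rw [hD]; positivity
  obtain ⟨η, hη, hη1, hη2⟩ : ∃ η : ℝ, 0 < η ∧ 400 * η ≤ 1 ∧ 4000 * (D * η) ≤ e := by
    refine ⟨min (1 / 400) (e / (4000 * D)), by positivity, ?_, ?_⟩
    · have := min_le_left (1 / 400) (e / (4000 * D))
      linarith
    · have := min_le_right (1 / 400) (e / (4000 * D))
      have h2 := mul_le_mul_of_nonneg_left this (show (0 : ℝ) ≤ 4000 * D by positivity)
      rw [mul_div_cancel₀ _ (by positivity)] at h2
      linarith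
  obtain ⟨ρ₁, hρ₁, H1⟩ := hsl η hη
  obtain ⟨ρ₂, hρ₂, H2⟩ := htg η hη
  obtain ⟨ρ₃, hρ₃, H3⟩ := hlo η hη
  obtain ⟨ρ₄, hρ₄, H4⟩ := hsk η hη
  have lam0 : (0 : ℝ) < i.lam := by exact_mod_cast hadm.lam0
  obtain ⟨κ₀, hκ₀, hκR, hκL, hκσ, hκρ⟩ : ∃ κ₀ : ℝ, 0 < κ₀ ∧ κ₀ ≤ R ∧ κ₀ ≤ Lv / 2 ∧
      κ₀ ≤ (i.σ₀ : ℝ) / 2 ∧ κ₀ ≤ ρ₁ / 32 :=
    ⟨min (min R (Lv / 2)) (min ((i.σ₀ : ℝ) / 2) (ρ₁ / 32)), by positivity, by simp, by simp,
      by simp, by simp⟩
  obtain ⟨r₀, hr₀, k1, k2, k3, k4, k5, k6, k7, k8, k9, k10, k11, k12, k13, k14, k15, k16⟩ :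
      ∃ r₀ : ℝ, 0 < r₀ ∧ 2 * r₀ ≤ ρ₁ ∧
      2 * r₀ ≤ ρ₂ ∧ 2 * r₀ ≤ r₁ ∧ 8 * r₀ ≤ g - A ∧ 8 * r₀ ≤ B - g ∧ 8 * r₀ ≤ i.lam ∧
      8 * r₀ ≤ g - s - i.a ∧ 8 * r₀ ≤ i.b - (g - s) ∧ 8 * ((Sg + Ob + 1) * r₀) ≤ R ∧
      8 * (e * r₀) ≤ R ∧ 8 * r₀ ≤ Lv ∧ 2 * r₀ ≤ ρ₃ ∧ 2 * r₀ ≤ ρ₄ ∧ 8 * r₀ ≤ i.σ₀ ∧
      32 * r₀ ≤ ρ₁ ∧ 32 * (e * r₀) ≤ ρ₁ := by
    obtain ⟨r₀, h1, h2⟩ := list_lb [ρ₁ / 2, ρ₂ / 2, r₁ / 2, (g - A) / 8, (B - g) / 8, i.lam / 8,
      (g - s - i.a) / 8, (i.b - (g - s)) / 8, R / (8 * (Sg + Ob + 1)), R / (8 * e), Lv / 8,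
      ρ₃ / 2, ρ₄ / 2, (i.σ₀ : ℝ) / 8, ρ₁ / 32, ρ₁ / (32 * e)] (by
        have x1 : 0 < g - A := by linarith
        have x2 : 0 < B - g := by linarith
        have x3 : 0 < g - s - i.a := by linarith
        have x4 : 0 < i.b - (g - s) := by linarith
        simp only [List.mem_cons, List.not_mem_nil, or_false, forall_eq_or_imp, forall_eq]
        refine ⟨?_, ?_, ?_, ?_, ?_, ?_, ?_, ?_, ?_, ?_, ?_, ?_, ?_, ?_, ?_, ?_⟩ <;> positivity)
    simp only [List.mem_cons, List.not_mem_nil, or_false, forall_eq_or_imp, forall_eq] at h2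
    obtain ⟨a1, a2, a3, a4, a5, a6, a7, a8, a9, a10, a11, a12, a13, a14, a15, a16⟩ := h2
    refine ⟨r₀, h1, by linarith, by linarith, by linarith, by linarith, by linarith, by linarith,
      by linarith, by linarith, ?_, ?_, by linarith, by linarith, by linarith, by linarith,
      by linarith, ?_⟩
    · rw [le_div_iff₀ (by positivity)] at a9
      linarith
    · rw [le_div_iff₀ (by positivity)] at a10
      linarith
    · rw [le_div_iff₀ (by positivity)] at a16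
      linarith
  refine ⟨κ₀, hκ₀, r₀, hr₀, fun r hr hrr b hb x y o a1 a2 a3 a4 a5 nH nV lv nB hNr => ?_⟩
  have HB := H1 (2 * r) (by positivity) (by linarith)
  have HT := H2 (2 * r) (by positivity) (by linarith)
  have HL := H3 (2 * r) (by positivity) (by linarith)
  have HK := H4 (2 * r) (by positivity) (by linarith)
  obtain ⟨X, hX⟩ : ∃ X : ℝ, X = e * r := ⟨_, rfl⟩
  obtain ⟨E, hE⟩ : ∃ E : ℝ, E = η * (2 * r) := ⟨_, rfl⟩
  rw [← hX] at hNr ⊢
  rw [← hE] at HT HL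
  have hX0 : 0 < X := by rw [hX]; positivity
  have hE0 : 0 < E := by rw [hE]; positivity
  have hEr : 100 * E ≤ r := by
    rw [hE]
    nlinarith
  have hDE : 2000 * (D * E) ≤ X := by
    have h1 := mul_le_mul_of_nonneg_right hη2 hr.le
    have h2 : 2000 * (D * E) = 4000 * (D * η) * r := by rw [hE]; ring
    rw [h2, hX]
    exact h1
  have hXR : 8 * X ≤ R := by
    have h1 : e * r ≤ e * r₀ := mul_le_mul_of_nonneg_left hrr.le he.le
    rw [hX]
    linarith
  have hXρ : 32 * X ≤ ρ₁ := by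
    have h1 : e * r ≤ e * r₀ := mul_le_mul_of_nonneg_left hrr.le he.le
    rw [hX]
    linarith
  have hSr' : 8 * ((Sg + Ob + 1) * r) ≤ R := by
    have h1 : (Sg + Ob + 1) * r ≤ (Sg + Ob + 1) * r₀ :=
      mul_le_mul_of_nonneg_left hrr.le (by linarith)
    linarith
  have hObr : 0 ≤ Ob * r := by positivity
  have hSgr : 0 ≤ Sg * r := by positivity
  have hSr : 8 * ((Sg + 1) * r) ≤ R := by nlinarith
  have hrR : 8 * r ≤ R := by nlinarith
  obtain ⟨φ, hφe⟩ : ∃ φ : ℝ, φ = X / (64 * ((d : ℝ) + 1) ^ 2) := ⟨_, rfl⟩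
  have hφ : 64 * (((d : ℝ) + 1) ^ 2 * φ) = X := by
    rw [hφe]
    field_simp
  have hφ0 : 0 < φ := by rw [hφe]; positivity
  have hdφ : 20 * ((d : ℝ) + 1) * φ ≤ X := by
    have h1 : ((d : ℝ) + 1) * φ ≤ ((d : ℝ) + 1) ^ 2 * φ :=
      mul_le_mul_of_nonneg_right (by nlinarith) hφ0.le
    linarith
  have hD1 : (Sg + Ob + 1) * E ≤ D * E := by
    refine mul_le_mul_of_nonneg_right ?_ hE0.le
    rw [hD]
    have h1 : (1 : ℝ) ≤ ((d : ℝ) + 1) ^ 2 * (n + 1) := by nlinarith [sq_nonneg (d : ℝ)]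
    nlinarith
  have hObE : 0 ≤ Ob * E := by positivity
  have hSgE : 0 ≤ Sg * E := by positivity
  have hSbE : (Sg + Ob + 1) * E = Sg * E + Ob * E + E := by ring
  have hD2 : (d : ℝ) * E ≤ D * E := by
    refine mul_le_mul_of_nonneg_right ?_ hE0.le
    rw [hD]
    have h1 : (d : ℝ) + 1 ≤ ((d : ℝ) + 1) ^ 2 * (n + 1) := by nlinarith [sq_nonneg (d : ℝ)]
    nlinarith
  have hD3 : (n : ℝ) * ((Sg + Ob + 1) * E) ≤ D * E := by
    have h1 : (n : ℝ) * ((Sg + Ob + 1) * E) = (n * (Sg + Ob + 1)) * E := by ring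
    rw [h1]
    refine mul_le_mul_of_nonneg_right ?_ hE0.le
    rw [hD]
    have h2 : (n : ℝ) ≤ ((d : ℝ) + 1) ^ 2 * (n + 1) := by nlinarith [sq_nonneg (d : ℝ)]
    exact mul_le_mul_of_nonneg_right h2 (by linarith)
  obtain ⟨w, v, oq, w1, w2, v1, v2, o3, o5, wv, vo, ⟨cw, cw1, cw2⟩, ⟨cv, cv1, cv2⟩,
    ⟨co, co1, co2⟩, cwv, cvo, x', hx', x1', x2'⟩ := idx_ex (s := s) (A := A) (x := x) (y := y)
      (o := o) h.cl HB hr (by linarith) hE hE0 hEr (by linarith) (by linarith) a3 a4 a5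
  have hbox := mk_box (κ₀ := κ₀) (φ := φ) (X := X) (b := b) (x := x) (y := y) (o := o)
    (wc := whG G A s w) (vc := whG G A s v) (oc := whG G A s oq) h.mn HB HT hr hE hE0 hEr hX0 hφ0
    hSg hgG hb a1 a2 a3 a4 a5 cw co (by linarith) (by linarith) (by linarith) (by linarith)
    (by linarith) (by linarith) cwv cvo (by linarith) (by linarith) hSr hκR hRg hRs hR₁s hdφ hNr.nr
  -- the earlier windows
  have hi : ∀ p ∈ ({b, whG G A s w, whG G A s oq} : Set ℝ), HiW sn d lv (X / 4) G p :=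
    hi_box hbox H1 hη1 hη.le hr.le (by
      have h1 : 40 * (η * r) = 20 * E := by rw [hE]; ring
      have h2 : E ≤ D * E := by linarith
      linarith) h.mn
      (by
        rintro p (rfl | rfl | rfl)
        · exact ⟨hb, by linarith, by linarith⟩
        · exact ⟨cw, by linarith, by linarith⟩
        · exact ⟨co, by linarith, by linarith⟩) hNr.g (by linarith) (by linarith) (by linarith)
  have htB : ∀ j, |TB j b - TB j (whG G A s w) - oB j * (b - whG G A s w)| ≤ E := by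
    intro j
    rw [hE]
    rcases le_total b (whG G A s w) with hle | hle
    · have := HK b hb _ cw (by linarith) hle (by linarith) j
      rw [abs_le] at this ⊢
      constructor <;> linarith [this.1, this.2]
    · exact HK _ cw b hb (by linarith) hle (by linarith) j
  have hbj : BoxJ sn d T od oB TB G nH nV lv nB b x y o (whG G A s w) (whG G A s v)
      (whG G A s oq) E X Sg Ob φ R κ₀ :=
    { bx := hbox
      hi := hi
      Ob0 := hOb0
      oA := hOA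
      oB' := hOB
      ob := by
        have h1 : Ob * (o - b) ≤ Ob * (2 * r) := mul_le_mul_of_nonneg_left (by linarith) hOb0
        linarith
      OX := by linarith
      tB := htB
      B1 := hNr.B1
      B2 := hNr.B2 }
  obtain ⟨hdef, hdrop⟩ := hgr (2 * r) (by positivity) (by linarith)
  obtain ⟨C₀, htm⟩ := h.tm
  have hEφ : E ≤ φ := by
    have h1 : ((d : ℝ) + 1) ^ 2 * E ≤ D * E := by
      refine mul_le_mul_of_nonneg_right ?_ hE0.le
      rw [hD]
      have h2 : (1 : ℝ) ≤ (n + 1) * (Sg + Ob + 1) := by nlinarith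
      have h3 : 0 ≤ ((d : ℝ) + 1) ^ 2 := by positivity
      nlinarith
    have h4 : ((d : ℝ) + 1) ^ 2 * E ≤ ((d : ℝ) + 1) ^ 2 * φ := by linarith
    exact le_of_mul_le_mul_left h4 (by positivity)
  have ww : (i.a : ℝ) < w := by linarith
  have ob : (oq : ℝ) < i.b := by linarith
  have hx1 : ∀ l < d, sn l x' - sn l (whG G A s oq) ≤ 3 * E := by
    intro l hl
    have h1 := (abs_le.1 (HB.sl _ co _ hx' (by linarith) (by linarith) (by linarith) l hl)).2
    rw [← hE] at h1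
    linarith
  have hsum := sum_lo (sn := sn) (d := d) hE0.le hφ0.le hx1
  -- the digits of the jets of the first kind
  have hPj := pf_jtP (od := od) (h.vch hA) (h.tgc hA) hadm.ha hadm.hb
  have wvr : (w : ℝ) ≤ v := by exact_mod_cast wv
  have vor : (v : ℝ) ≤ oq := by exact_mod_cast vo
  have hPo : ∀ j, pfQ (whG G A s) od (fun i w => T i (whG G A s w)) i.b j oq ≤
        T j (whG G A s oq) - od j * whG G A s oq ∧
      T j (whG G A s oq) - od j * whG G A s oq - E ≤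
        pfQ (whG G A s) od (fun i w => T i (whG G A s w)) i.b j oq := by
    intro j
    refine ⟨by linarith [hPj.le j oq (by linarith) ob], ?_⟩
    refine le_pf j (by exact_mod_cast ob) fun u hu1 hu2 => ?_
    have hu1' : (oq : ℝ) ≤ u := by exact_mod_cast hu1
    have hu2' : (u : ℝ) < i.b := by exact_mod_cast hu2
    have hvc := h.vch hA
    have hub : (u : ℝ) < B - s := by linarith [hadm.hb]
    have hua : a < (u : ℝ) := by linarith [hadm.ha]
    have h3 := hvc.wg u hua hub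
    have h4 := hvc.wm oq u (by linarith [hadm.ha]) hu1 hub
    have h5 := HL j _ co _ h3.1 (by linarith) (by linarith) h4 (by linarith [h3.2])
    linarith
  have hPv : ∀ j, pfQ (whG G A s) od (fun i w => T i (whG G A s w)) i.b j v ≤
      T j (whG G A s v) - od j * whG G A s v := fun j => by
    linarith [hPj.le j v (by linarith) (by linarith)]
  have nif := ni_fixJ ((h.vch hA).cut hadm.ha hadm.hb) lam0 hadm.ed
    ((h.tgc hA).cut hadm.ha hadm.hb) hadm.tg hPj ((h'.tgc hA).cut hadm.ha hadm.hb) hadm.bd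
    (hN i hadm) (w := w) (v := v) (o := oq) ww wv vo ob
    (by linarith) (hbox.nrD rfl rfl) (by
      have h2 : X / 2 / 2 = X / 4 := by ring
      rw [h2]
      exact hi _ (by simp)) (hbox.tgN rfl rfl) (fun l hl => ?_) (nB := nB) (fun j => ?_)
    (fun p p1 p2 => ?_)
    (fun l hl p hp p1 p2 => ?_) hx' x1'
  · have hnix : NjX S c d k od kB oB sn T TB nH nV nB (whG G A s w) ((w : ℝ) + s) ((v : ℝ) + s)
        (fun j => pfQ (whG G A s) od (fun i w => T i (whG G A s w)) i.b j v)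
        (fun j => pfQ (whG G A s) od (fun i w => T i (whG G A s w)) i.b j oq) (X / 2) := by
      intro ε hε
      obtain ⟨κ₁, hκ₁, e₀, he₀, H⟩ := nif ε hε
      refine ⟨κ₁, hκ₁, e₀, he₀, fun K => Bas.mono 0 (H K) ?_⟩
      intro J _ F A' H V z V' z' hz hz' u u₁ q pa hu hu₁ hq hpa
      have hH := H V z V' z' hz hz' u u₁ q pa hu hu₁ hq hpa
      have h1 := hdef w v oq (by linarith) wv vo (by linarith)
      have h2 := hdrop w oq (by linarith) (wv.trans vo) (by linarith)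
      have h3 : e / 16 * (2 * r) = X / 8 := by rw [hX]; ring
      rw [h3] at h1 h2
      refine ⟨hH.1.trans ?_, hH.2.trans ?_⟩
      · refine add_le_add le_rfl (mul_le_mul_of_nonneg_right ?_ (Nat.cast_nonneg J))
        linarith
      · refine add_le_add le_rfl (mul_le_mul_of_nonneg_right ?_ (Nat.cast_nonneg J))
        linarith
    have mem_v : whG G A s v ∈ ({b, whG G A s w, whG G A s v, whG G A s oq, y, o} : Set ℝ) := by
      simp
    have mem_oc : whG G A s oq ∈ ({b, whG G A s w, whG G A s v, whG G A s oq, y, o} : Set ℝ) := by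
      simp
    have mem_y : y ∈ ({b, whG G A s w, whG G A s v, whG G A s oq, y, o} : Set ℝ) := by simp
    have mem_o : o ∈ ({b, whG G A s w, whG G A s v, whG G A s oq, y, o} : Set ℝ) := by simp
    have hod : ∀ j, ∀ t : ℝ, t ≤ 2 * E → (od j : ℝ) * t ≤ 2 * (Ob * E) := by
      intro j t ht
      rcases le_total t 0 with h1 | h1
      · have : (od j : ℝ) * t ≤ 0 := mul_nonpos_of_nonneg_of_nonpos (Nat.cast_nonneg _) h1
        linarith
      · calc (od j : ℝ) * t ≤ Ob * t := mul_le_mul_of_nonneg_right (hOA j) h1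
          _ ≤ Ob * (2 * E) := mul_le_mul_of_nonneg_left ht hOb0
          _ = 2 * (Ob * E) := by ring
    have t1 : ∀ j, T j o ≤ T j (whG G A s oq) + (2 * (Sg * E) + E) := fun j =>
      (hbox.tc j mem_oc mem_o (by linarith)).2
    have t2 : ∀ j, T j (whG G A s oq) ≤ T j o + (2 * (Sg * E) + E) := fun j =>
      (hbox.tc j mem_o mem_oc (by linarith)).2
    have t3 : ∀ j, T j (whG G A s v) ≤ T j y + (2 * (Sg * E) + E) := fun j =>
      (hbox.tc j mem_y mem_v (by linarith)).2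
    refine NjW.mono ?_ (nj_real (E₂ := 2 * ((Sg + Ob) * E) + 2 * E) htm h.pos
      h.ch h.att h'.att hbj (zw := (w : ℝ) + s) (zv := (v : ℝ) + s) (by linarith) (by linarith)
      (by linarith) (by positivity) (h.rn w (by linarith) (by linarith))
      (h.rn v (by linarith) (by linarith)) (fun j => ?_) (fun j => ?_) (fun j => ?_) hnix
      (ε := X / 4) (by linarith))
    · have h5 : (n : ℝ) * (2 * ((Sg + Ob) * E) + 2 * E) = 2 * (n * ((Sg + Ob + 1) * E)) := by ring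
      linarith
    · have h6 := hod j (o - whG G A s oq) (by linarith)
      linarith [(hPo j).1, t2 j]
    · have h6 := hod j (whG G A s oq - o) (by linarith)
      linarith [(hPo j).2, t1 j]
    · have h6 := hod j (y - whG G A s v) (by linarith)
      linarith [hPv j, t3 j]
  · have h1 := hadm.ed.ed.nat w ww (by linarith) l hl
    have h2 := hNr.nr.kv l hl
    have h3 := hbox.fl l hl _ (show whG G A s w ∈ ({b, whG G A s w, whG G A s oq} : Set ℝ) by simp)
      b (by simp)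
    have h4 := hLvl l hl
    have h5 := hadm.ed.ed.σ0
    linarith
  · have h1 := hadm.bd.nat j w ww (by linarith)
    have h2 := hNr.B1 j
    have h3 := (abs_le.1 (htB j)).2
    linarith
  · obtain ⟨u, hu, u1, u2⟩ := HB.gap p (by linarith) (by linarith)
    rw [← hE] at u1
    refine ⟨u, hu, ?_⟩
    rw [abs_le]
    constructor <;> linarith
  · have h1 := abs_le.1 (HB.sl p hp _ co (by linarith) p2 (by linarith) l hl)
    rw [← hE] at h1
    rw [abs_le]
    constructor <;> linarith [h1.1, h1.2]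

/-- **No look-ahead given the near path, jets of all orders, at almost every window**, in a
subclass. -/
theorem nj_ae (h : NiC S c d k sn T G s A B) (hK : NiC S c d kB sn TB G s A B)
    (od : Fin n → ℕ) (oB : Fin n' → ℕ) :
    ∃ S' : PCl m, S'.Ne ∧
      (∀ (τ : ℝ) (J : ℕ) (F : Fam m J) (A : F.Ω → Prop), S'.St τ J F A → S.St τ J F A) ∧
      ∀ᵐ g : ℝ, g ∈ G → A < g → g < B → (∀ l < d, sn l g < 1) → ∀ Sg : ℝ, 0 ≤ Sg →
        SlB sn d T G g Sg → TgB T g Sg → LoB od T G g → SlK oB TB G g →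
          NjG S' c d k od kB oB sn T TB G g := by
  by_cases hne : (G ∩ Set.Icc A B).Nonempty
  swap
  · refine ⟨S, h.ne, fun _ _ _ _ h => h, Filter.Eventually.of_forall fun g h1 h2 h3 => ?_⟩
    exact absurd ⟨g, h1, h2.le, h3.le⟩ hne
  obtain ⟨u₀, hu₀⟩ : ∃ u₀, u₀ = sInf (G ∩ Set.Icc A B) := ⟨_, rfl⟩
  have hbd : BddBelow (G ∩ Set.Icc A B) := ⟨A, fun x hx => hx.2.1⟩
  have hum : u₀ ∈ G ∩ Set.Icc A B := by
    rw [hu₀]
    exact (h.cl.inter isClosed_Icc).csInf_mem hne hbd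
  obtain ⟨a, ha⟩ : ∃ a, a = u₀ - s := ⟨_, rfl⟩
  have hA : ∃ u ∈ G, A ≤ u ∧ u ≤ a + s := ⟨u₀, hum.1, hum.2.1, by rw [ha]; linarith⟩
  obtain ⟨S', g1, g2, θ₀, θ, hN⟩ := ndj_cls (h.vch hA) (h.tgc hA) (hK.tgc hA) od oB
  refine ⟨S', g1, g2, ?_⟩
  have h' := h.sub g1 g2
  have hK' := hK.sub g1 g2
  have h3 := ndj_ae (h'.vch hA) (h'.tgc hA) (hK'.tgc hA) hN
  have h4 := ae_shift h3 s
  have h5 : ∀ᵐ g : ℝ, g ≠ u₀ := (measure_eq_zero_iff_ae_notMem.1 (measure_singleton u₀)).mono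
    fun g hg he => hg (by rw [he]; exact Set.mem_singleton u₀)
  filter_upwards [h4, h5] with g h6 h7 hgG hAg hgB s1 Sg hSg hsl htg hlo hsk
  have h8 : u₀ < g := lt_of_le_of_ne (by
    rw [hu₀]
    exact csInf_le hbd ⟨hgG, hAg.le, hgB.le⟩) (Ne.symm h7)
  exact nj_box h' hK' hA hN hgG hAg hgB s1 hSg hsl htg hlo hsk fun e he ρ hρ =>
    h6 (crj_of h.cl hgG hAg (hgB.trans h.B1) h.mn s1 hSg hsl hsk (by rw [ha]; linarith)
      (by linarith)) e he ρ hρ

end Pool.LPJ30
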