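import Pool.Agent.H30.LP.Ent

/-!
# The near path and the condition: entropies

`ni_hi`: the record `zo` does not see the quantity `P` behind the heights `hh`, if it does not see the
condition `e` given the exact positions `x`, nor the positions behind `hh`.
-/

set_option autoImplicit false

namespace Pool.LPJ30

open Finset Real
open Pool.Agent.H49.Ent Pool.Agent.H32.Dense

variable {Ω E E' P Q H₀ X Y W Z Z' Zo : Type} [Fintype Ω] {q : Ω → ℝ}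

/-- **No look-ahead for functions of the condition**, entropies. -/
theorem ni_hi (h0 : ∀ ω, 0 ≤ q ω) {e : Ω → E} {eo : Ω → E'}
    {pa : Ω → P} {hh : Ω → H₀} {x : Ω → X} {y : Ω → Y} {w : Ω → W} {z : Ω → Z}
    {zo : Ω → Zo} {k B₁ B₂ B₃ T₁ T₂ : ℝ}
    (hy1 : Det q (fun ω => (x ω, w ω)) y) (hy2 : Det q y (fun ω => (x ω, w ω)))
    (f1 : CH q pa (fun ω => (e ω, (z ω, y ω))) ≤ k)
    (b1 : CH q x (fun ω => (hh ω, (z ω, w ω))) ≤ B₁)
    (b2 : B₂ ≤ CH q x (fun ω => ((z ω, zo ω), w ω)))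
    (b3 : CH q hh (fun ω => ((z ω, zo ω), w ω)) ≤ B₃)
    (t1 : CH q e (fun ω => (z ω, y ω)) ≤ T₁)
    (t2 : T₂ ≤ CH q eo (fun ω => ((z ω, zo ω), y ω)))
    (f5 : CH q eo (fun ω => (e ω, ((z ω, zo ω), y ω))) ≤ k) :
    CH q pa (fun ω => (hh ω, (z ω, w ω))) ≤ CH q pa (fun ω => (hh ω, ((z ω, zo ω), w ω))) +
      2 * k + (B₁ - B₂ + B₃) + (T₁ - T₂) := by
  -- one
  have s1 := CH_chain h0 pa (fun ω => (e ω, x ω)) (fun ω => (hh ω, (z ω, w ω)))
  have s1' := CH_chain h0 (fun ω => (e ω, x ω)) pa (fun ω => (hh ω, (z ω, w ω)))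
  have s1'' : CH q (fun ω => (pa ω, (e ω, x ω))) (fun ω => (hh ω, (z ω, w ω))) =
      CH q (fun ω => ((e ω, x ω), pa ω)) (fun ω => (hh ω, (z ω, w ω))) := by
    refine CH_congr h0 ?_ ?_ (fun _ _ _ _ hh => hh) (fun _ _ _ _ hh => hh) <;>
    · intro ω ω' _ _ hh
      simp only [Prod.mk.injEq] at hh ⊢
      tauto
  -- two
  have s2 := CH_chain h0 pa (fun ω => (e ω, x ω)) (fun ω => (hh ω, ((z ω, zo ω), w ω)))
  have s2' := CH_chain h0 (fun ω => (e ω, x ω)) pa (fun ω => (hh ω, ((z ω, zo ω), w ω)))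
  have s2'' : CH q (fun ω => (pa ω, (e ω, x ω))) (fun ω => (hh ω, ((z ω, zo ω), w ω))) =
      CH q (fun ω => ((e ω, x ω), pa ω)) (fun ω => (hh ω, ((z ω, zo ω), w ω))) := by
    refine CH_congr h0 ?_ ?_ (fun _ _ _ _ hh => hh) (fun _ _ _ _ hh => hh) <;>
    · intro ω ω' _ _ hh
      simp only [Prod.mk.injEq] at hh ⊢
      tauto
  have s2o := CH_nonneg h0 pa (fun ω => ((e ω, x ω), (hh ω, ((z ω, zo ω), w ω))))
  -- three
  have s3 : CH q (fun ω => (e ω, x ω)) (fun ω => (pa ω, (hh ω, ((z ω, zo ω), w ω)))) ≤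
      CH q (fun ω => (e ω, x ω)) (fun ω => (pa ω, (hh ω, (z ω, w ω)))) := by
    refine CH_mono_cond h0 fun ω ω' a b h => ?_
    simp only [Prod.mk.injEq] at h ⊢
    exact ⟨h.1, h.2.1, h.2.2.1.1, h.2.2.2⟩
  -- four
  have s4 : CH q pa (fun ω => ((e ω, x ω), (hh ω, (z ω, w ω)))) ≤
      CH q pa (fun ω => (e ω, (z ω, y ω))) := by
    refine CH_mono_cond h0 fun ω ω' a b h => ?_
    simp only [Prod.mk.injEq] at h ⊢
    exact ⟨h.1.1, h.2.2.1, hy1 ω ω' a b (Prod.ext h.1.2 h.2.2.2)⟩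
  -- five
  have s7 := CH_chain h0 e x (fun ω => (hh ω, (z ω, w ω)))
  have s7' : CH q e (fun ω => (x ω, (hh ω, (z ω, w ω)))) ≤ CH q e (fun ω => (z ω, y ω)) := by
    refine CH_mono_cond h0 fun ω ω' a b h => ?_
    simp only [Prod.mk.injEq] at h ⊢
    exact ⟨h.2.2.1, hy1 ω ω' a b (Prod.ext h.1 h.2.2.2)⟩
  -- six
  have s8 := CH_le_add h0 (fun ω => (e ω, x ω)) hh (fun ω => ((z ω, zo ω), w ω))
  have s8' := CH_chain h0 e x (fun ω => ((z ω, zo ω), w ω))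
  have s8'' : CH q e (fun ω => ((z ω, zo ω), y ω)) ≤ CH q e (fun ω => (x ω, ((z ω, zo ω), w ω))) := by
    refine CH_mono_cond h0 fun ω ω' a b h => ?_
    have h1 := Prod.ext_iff.mp h
    have h2 := Prod.ext_iff.mp (hy2 ω ω' a b h1.2)
    exact Prod.ext h2.1 (Prod.ext h1.1 h2.2)
  have s8''' := CH_le_add h0 eo e (fun ω => ((z ω, zo ω), y ω))
  linarith

/-- **A part of the quantity**, the other part known. -/
theorem ni_part (h0 : ∀ ω, 0 ≤ q ω) {pa : Ω → P} {h : Ω → Q} {hh : Ω → H₀} {w : Ω → W} {z : Ω → Z}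
    {zo : Ω → Zo} {z' : Ω → Z'} {E₀ k : ℝ} (hd : Det q pa hh)
    (ni : CH q (fun ω => (h ω, pa ω)) (fun ω => (hh ω, (z ω, w ω))) ≤
      CH q (fun ω => (h ω, pa ω)) (fun ω => (hh ω, ((z ω, zo ω), w ω))) + E₀)
    (hz : CH q z' zo ≤ k) :
    CH q h (fun ω => (pa ω, (z ω, w ω))) ≤ CH q h (fun ω => (pa ω, (z' ω, w ω))) + E₀ + k := by
  have s1 := CH_chain h0 h pa (fun ω => (hh ω, (z ω, w ω)))
  have s2 := CH_chain h0 h pa (fun ω => (hh ω, ((z ω, zo ω), w ω)))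
  have s3 : CH q h (fun ω => (pa ω, (hh ω, (z ω, w ω)))) = CH q h (fun ω => (pa ω, (z ω, w ω))) := by
    refine CH_congr h0 (fun _ _ _ _ hh => (Prod.ext_iff.mp hh).1)
      (fun _ _ _ _ hh => (Prod.ext_iff.mp hh).1) ?_ ?_
    · intro ω ω' _ _ hh
      simp only [Prod.mk.injEq] at hh ⊢
      exact ⟨hh.1, hh.2.2⟩
    · intro ω ω' a b hh
      simp only [Prod.mk.injEq] at hh ⊢
      exact ⟨hh.1, hd ω ω' a b hh.1, hh.2⟩
  have s4 : CH q pa (fun ω => (hh ω, ((z ω, zo ω), w ω))) ≤ CH q pa (fun ω => (hh ω, (z ω, w ω))) := by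
    refine CH_mono_cond h0 fun ω ω' a b h => ?_
    simp only [Prod.mk.injEq] at h ⊢
    exact ⟨h.1, h.2.1.1, h.2.2⟩
  -- the record
  have s5 := CH_le_add h0 h z' (fun ω => (pa ω, (hh ω, ((z ω, zo ω), w ω))))
  have s5' : CH q h (fun ω => (z' ω, (pa ω, (hh ω, ((z ω, zo ω), w ω))))) ≤
      CH q h (fun ω => (pa ω, (z' ω, w ω))) := by
    refine CH_mono_cond h0 fun ω ω' a b h => ?_
    simp only [Prod.mk.injEq] at h ⊢
    exact ⟨h.2.1, h.1, h.2.2.2.2⟩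
  have s5'' : CH q z' (fun ω => (pa ω, (hh ω, ((z ω, zo ω), w ω)))) ≤ CH q z' zo := by
    refine CH_mono_cond h0 fun ω ω' a b h => ?_
    simp only [Prod.mk.injEq] at h
    exact h.2.2.1.2
  linarith

end Pool.LPJ30
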