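import Pool.Agent.H30.LPJ.Ndj
import Pool.Agent.H30.LPJ.Enj

/-!
# No look-ahead given the near path, jets of all orders

`few_pv`: all jets of the chain over the charts of `W` from the near path over the charts of `b`.
`few_tgCj`, `fewC_jt`: change of the charts for jets of targets, given the near path. `few_cdB`: the
near path and the near jets of the second kind are few bits given the condition. `ni_fixJ`: no
look-ahead at given windows.
-/

set_option autoImplicit false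

namespace Pool.LPJ30

open Finset Real MvPolynomial
open Pool.Agent.H49.Ent Pool.Agent.H32.Dense Pool.STK Pool.KA Pool.KSAT Pool.K2S Pool.PB Pool.S6C
  Pool.GEN Pool.RCD Pool.LA91
open Pool.OWN83 (TwoRelS TRelS yX kn0_yX)
open Pool.OWN68 (cl2_vg)
open Pool.LP30

variable {m : ℕ} {U U' : Type} {α β γ : ∀ J : ℕ, Fam m J → Type}
  {f : ∀ (J : ℕ) (F : Fam m J), F.Ω → α J F} {g : ∀ (J : ℕ) (F : Fam m J), F.Ω → β J F}
  {y : ∀ (J : ℕ) (F : Fam m J), F.Ω → γ J F} {S : PCl m}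

section

variable {c : ℕ → Fin m} {d : ℕ} {sn : ℕ → ℝ → ℝ} {G : Set ℝ} {nH nV lv : ℕ → ℝ} {σ₀ b W : ℝ}

/-- The jets of order `0` and `1` of the chain over the charts of `W`, given the near path. -/
theorem few_own1 {C₀ : ℝ} (htm : TmC S C₀)
    (hpos : ∀ (τ : ℝ) (J : ℕ) (F : Fam m J) (A : F.Ω → Prop), S.St τ J F A → 0 < Pe F.p A)
    (hW : ChG S c d sn G)
    (hf : ∀ (J : ℕ) (F : Fam m J), ∃ φ : α J F → PtT F, ∀ ω, ptr F J ω = φ (f J F ω))
    (hy : Kn ((range 0).image c) 1 1 y) (hWG : W ∈ G) (hr : NrC sn d nH nV lv σ₀ b W)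
    {l : ℕ} (hl : l < d) {j : ℕ} (hj : j ≤ 1) :
    Few S f (vg W) y (paQ m c d b (fun l => sn l b) nH nV)
      (qJet m ((range l).image c) (c l) j W (sn l W) (sn l W + lv l + σ₀ / 2 - (j : ℕ) * W)) := by
  obtain ⟨u₁, rd, hrd, hch⟩ := hW.ch W hWG
  have e0 : min (1 : ℝ) (1 - W) = 1 - W := min_eq_right (by linarith [hch.w0])
  have hσ := hr.σ0
  refine Few.pre hpos (fun u : ℕ → ℕ → ℤ =>
    ((fun l' j' => if 0 ≤ l' ∧ l' < l ∧ j' ≤ j then u l' j' else 0), u l j)) ?_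
    (few_jetN (f := f) (y := y) htm (hch.take (Nat.zero_le l) hl.le) (k := c l) (j := j)
    (wv := fun _ _ => b)
    (pv := fun l _ => sn l b) (Nv := fun l j => if j = 0 then nH l else nV l) (lv := lv)
    (w₁ := b) (w₂ := W) (p₁ := sn l b) (p₂ := sn l W) (N₁ := if j = 0 then nH l else nV l)
    (N₂ := sn l W + lv l + σ₀ / 2 - (j : ℕ) * W) (p₀ := 1) (lam := 1)
    (σ₀ := σ₀ / 2) (fun _ _ _ _ _ => hr.bW) hr.bW le_rfl hch.u0 le_rfl one_pos (half_pos hσ)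
    (fun l _ hl => hr.lv0 l (by omega))
    (fun l' _ hl' j' hj' => ?_) (fun l' _ hl' j' hj' => ?_)
    (fun l' _ hl' j' hj' l'' _ hl'' => ?_) ?_ ?_ (fun l' _ hl' => ?_) hf hy)
  · intro K e J F A u hu
    exact ⟨qJets_take hl.le hj hu, hu.1 l (Nat.zero_le _) hl j hj⟩
  · rcases Nat.eq_zero_or_pos j' with rfl | hj
    · simp only [if_true, Nat.cast_zero, zero_mul, add_zero]
      linarith [hr.h l' (by omega)]
    · obtain rfl : j' = 1 := by omega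
      simp only [one_ne_zero, if_false, Nat.cast_one, one_mul]
      linarith [hr.v l' (by omega)]
  · rw [e0, min_eq_left (hr.mn l' (by omega))]
    linarith [hr.r l' (by omega)]
  · rw [min_eq_left (hr.mn l' (by omega))]
    linarith [hr.s l' (by omega) l'' hl'']
  · rcases Nat.eq_zero_or_pos j with rfl | hj
    · simp only [if_true, Nat.cast_zero, zero_mul, sub_zero]
      linarith [hr.h l hl]
    · obtain rfl : j = 1 := by omega
      simp only [one_ne_zero, if_false, Nat.cast_one, one_mul]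
      linarith [hr.v l hl]
  · rw [e0, min_eq_left (hr.mn l hl)]
    linarith [hr.r l hl]
  · rw [min_eq_left (hr.mn l hl)]
    linarith [hr.s l hl l' hl']

/-- **All jets of the chain** over the charts of `W`, given the near path. -/
theorem few_pv {C₀ : ℝ} (htm : TmC S C₀)
    (hpos : ∀ (τ : ℝ) (J : ℕ) (F : Fam m J) (A : F.Ω → Prop), S.St τ J F A → 0 < Pe F.p A)
    (hW : ChG S c d sn G)
    (hf : ∀ (J : ℕ) (F : Fam m J), ∃ φ : α J F → PtT F, ∀ ω, ptr F J ω = φ (f J F ω))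
    (hy : Kn ((range 0).image c) 1 1 y) (hWG : W ∈ G) (hr : NrC sn d nH nV lv σ₀ b W)
    (hi : HiW sn d lv (σ₀ / 2) G W) (D : ℕ) :
    Few S f (vg W) y (paQ m c d b (fun l => sn l b) nH nV) (vpQ m c sn lv (σ₀ / 2) W d D) := by
  refine few_vpg htm hpos hW hf hy hWG (half_pos hr.σ0) hr.lv0 hi (fun l hl => ?_)
    (fun l hl => ?_) d le_rfl D
  · have h1 := few_own1 htm hpos hW hf hy hWG hr hl (Nat.zero_le 1)
    simpa using h1
  · have h1 := few_own1 htm hpos hW hf hy hWG hr hl le_rfl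
    simpa using h1

/-- **A jet of a target over other charts**, given the near path. -/
theorem few_tgCj {C₀ : ℝ} (htm : TmC S C₀)
    (hpos : ∀ (τ : ℝ) (J : ℕ) (F : Fam m J) (A : F.Ω → Prop), S.St τ J F A → 0 < Pe F.p A)
    (hW : ChG S c d sn G)
    (hf : ∀ (J : ℕ) (F : Fam m J), ∃ φ : α J F → PtT F, ∀ ω, ptr F J ω = φ (f J F ω))
    (hy : Kn ((range 0).image c) 1 1 y) (hWG : W ∈ G) (hr : NrC sn d nH nV lv σ₀ b W)
    (hi : HiW sn d lv (σ₀ / 2) G W) {k : Fin m} {j : ℕ} {w₁ w₂ p₁ p₂ N₁ N₂ : ℝ} (h1 : w₁ ≤ W)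
    (h2 : w₂ ≤ W) (hN : N₂ ≤ N₁) (t1 : N₂ + j * W + σ₀ ≤ min p₁ p₂ + (1 - W))
    (t2 : ∀ l < d, N₂ + j * W + σ₀ ≤ min p₁ p₂ + lv l) :
    Few S f (vg W) y ((paQ m c d b (fun l => sn l b) nH nV).prod
      (qJet m ((range d).image c) k j w₁ p₁ N₁)) (qJet m ((range d).image c) k j w₂ p₂ N₂) :=
  few_tgQ htm hpos hW hf hy hWG (half_pos hr.σ0) hr.lv0 hi
    (few_pv htm hpos hW hf hy hWG hr hi j) h1 h2 hN (by linarith [hr.σ0])
    fun l hl => by linarith [hr.σ0, t2 l hl]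

/-- The same, any digits. -/
theorem fewC_tgCj {C₀ : ℝ} (htm : TmC S C₀)
    (hpos : ∀ (τ : ℝ) (J : ℕ) (F : Fam m J) (A : F.Ω → Prop), S.St τ J F A → 0 < Pe F.p A)
    (hW : ChG S c d sn G)
    (hf : ∀ (J : ℕ) (F : Fam m J), ∃ φ : α J F → PtT F, ∀ ω, ptr F J ω = φ (f J F ω))
    (hy : Kn ((range 0).image c) 1 1 y) (hWG : W ∈ G) (hr : NrC sn d nH nV lv σ₀ b W)
    (hi : HiW sn d lv (σ₀ / 2) G W) {k : Fin m} {j : ℕ} {w₁ w₂ p₁ p₂ N₁ N₂ M c₀ : ℝ}
    (h1 : w₁ ≤ W) (h2 : w₂ ≤ W) (hM1 : M ≤ N₁) (hM2 : M ≤ N₂)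
    (hc : Real.log 2 * (N₂ - M) ≤ c₀)
    (t1 : M + j * W + σ₀ ≤ min p₁ p₂ + (1 - W))
    (t2 : ∀ l < d, M + j * W + σ₀ ≤ min p₁ p₂ + lv l) :
    FewC S f (vg W) y ((paQ m c d b (fun l => sn l b) nH nV).prod
      (qJet m ((range d).image c) k j w₁ p₁ N₁)) (qJet m ((range d).image c) k j w₂ p₂ N₂) c₀ :=
  (few_more hpos hM2 (few_tgCj htm hpos hW hf hy hWG hr hi h1 h2 hM1 t1 t2)).mono hc

/-- **The jets of targets over other charts.** -/
theorem fewC_jt {C₀ : ℝ} (htm : TmC S C₀)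
    (hpos : ∀ (τ : ℝ) (J : ℕ) (F : Fam m J) (A : F.Ω → Prop), S.St τ J F A → 0 < Pe F.p A)
    (hW : ChG S c d sn G)
    (hf : ∀ (J : ℕ) (F : Fam m J), ∃ φ : α J F → PtT F, ∀ ω, ptr F J ω = φ (f J F ω))
    (hy : Kn ((range 0).image c) 1 1 y) (hWG : W ∈ G) (hr : NrC sn d nH nV lv σ₀ b W)
    (hi : HiW sn d lv (σ₀ / 2) G W) {n : ℕ} {k : Fin n → Fin m} {od : Fin n → ℕ} {w₁ w₂ c₀ : ℝ}
    {p₁ p₂ N₁ N₂ M : Fin n → ℝ} (h1 : w₁ ≤ W)
    (h2 : w₂ ≤ W) (hM1 : ∀ i, M i ≤ N₁ i) (hM2 : ∀ i, M i ≤ N₂ i)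
    (hc : ∀ i, Real.log 2 * (N₂ i - M i) ≤ c₀)
    (t1 : ∀ i, M i + od i * W + σ₀ ≤ min (p₁ i) (p₂ i) + (1 - W))
    (t2 : ∀ i, ∀ l < d, M i + od i * W + σ₀ ≤ min (p₁ i) (p₂ i) + lv l) :
    FewC S f (vg W) y ((paQ m c d b (fun l => sn l b) nH nV).prod
      (Qt.pi fun i : Fin n => qJet m ((range d).image c) (k i) (od i) w₁ (p₁ i) (N₁ i)))
      (Qt.pi fun i : Fin n => qJet m ((range d).image c) (k i) (od i) w₂ (p₂ i) (N₂ i))
      (n * c₀) := by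
  have h4 : ∀ i : Fin n, FewC S f (vg W) y ((paQ m c d b (fun l => sn l b) nH nV).prod
      (Qt.pi fun i : Fin n => qJet m ((range d).image c) (k i) (od i) w₁ (p₁ i) (N₁ i)))
      (qJet m ((range d).image c) (k i) (od i) w₂ (p₂ i) (N₂ i)) c₀ := by
    intro i
    have h5 := fewC_tgCj htm hpos hW hf hy hWG hr hi (k := k i) h1 h2 (hM1 i) (hM2 i) (hc i) (t1 i)
      (t2 i)
    refine FewC.pre hpos (fun u : (ℕ → ℕ → ℤ) × (Fin n → ℤ) => (u.1, u.2 i)) ?_ h5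
    intro K e J F A u hu
    exact ⟨hu.1, hu.2 i⟩
  have h3 := fewC_pi hpos h4
  refine h3.mono (le_of_eq ?_)
  rw [Finset.sum_const, Finset.card_univ, Fintype.card_fin, nsmul_eq_mul]

end

section

variable {c : ℕ → Fin m} {d : ℕ} {s a b lam : ℝ} {wh : ℚ → ℝ} {sn : ℕ → ℝ → ℝ} {G : Set ℝ}
  {N lv₀ : ℕ → ℝ} {σ₁ : ℝ} {n n' : ℕ} {k : Fin n → Fin m} {od : Fin n → ℕ}
  {tl : Fin n → ℚ → ℝ} {P : Fin n → ℚ → ℝ}
  {kB : Fin n' → Fin m} {oB : Fin n' → ℕ} {tB : Fin n' → ℚ → ℝ} {DB : Fin n' → ℝ}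

/-- **The near path and the near jets of the second kind** are few bits given the condition. -/
theorem few_cdB (h : VCh S f y c d s a b wh sn G) (hlam : 0 < lam)
    (hE : EdJ wh sn d N lv₀ σ₁ a b lam G) (hD : BdB wh d lv₀ σ₁ a b lam oB tB DB)
    {w : ℚ} (hw : a < w) (hwb : (w : ℝ) < b) {nH nV : ℕ → ℝ} {nB : Fin n' → ℝ}
    {φ : ℝ} (hφ : 0 < φ)
    (hH : HtN d (fun l => sn l (wh w)) (wh w) φ (fun l => sn l (wh w)) nH)
    (hV : ∀ l < d, nV l ≤ N l) (hB : ∀ i, nB i ≤ DB i) :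
    Few S f (vg ((w : ℝ) + s)) y (cdQ m c d wh sn N kB oB tB DB w)
      ((paQ m c d (wh w) (fun l => sn l (wh w)) nH nV).prod (jtQ m c d kB oB wh tB nB w)) := by
  refine Few.pair h.pos (few_fstQ h.pos (few_pa h hlam hE.ed hw hwb hφ hH hV)) ?_
  exact h.up hw le_rfl hwb (few_pi h.pos fun i => Few.pre h.pos
      (fun (u : (Fin d → ℤ) × (Fin n' → ℤ)) => (u.1, u.2 i))
      (fun K e J F A u hu => by exact ⟨hu.1, hu.2 i⟩)
      (few_tgj h hE hw hw hw le_rfl le_rfl le_rfl hwb (by linarith)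
        (p₂ := tB i w) (p₃ := tB i w) (N₁ := DB i) (N₂ := nB i) (hB i)
        (by
          rw [min_self]
          linarith [hD.t1 i w w hw le_rfl hwb (by linarith), hB i])
        fun l hl => by
          rw [min_self]
          linarith [hD.t2 i w w hw le_rfl hwb (by linarith) l hl, hB i]))

theorem NrD.nrC {nH nV lv : ℕ → ℝ} {σ₀ φ : ℝ} {w o : ℚ} (h : NrD wh sn d nH nV lv σ₀ φ w o)
    (hwo : wh w ≤ wh o) (mn : ∀ l < d, sn l (wh w) ≤ sn l (wh o)) :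
    NrC sn d nH nV lv σ₀ (wh w) (wh o) :=
  ⟨h.σ0, hwo, h.lv0, mn, h.h, h.v, h.r, h.s⟩

/-- **The jets of the first kind given the near path** and the record at `o`. -/
theorem few_jtN (h : VCh S (fun J F => ptr F J) (yX ((range d).image c)) c d s a b wh sn G)
    (hT : TgC S c d wh a b k tl) (hP : JtP wh a b od tl P) {w v o : ℚ} (hw : a < w)
    (hwv : w ≤ v) (hvo : v ≤ o)
    (ho : (o : ℝ) < b) {nH nV lv : ℕ → ℝ} {σ₀ φ : ℝ} (hr : NrD wh sn d nH nV lv σ₀ φ w o)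
    (hi : HiW sn d lv (σ₀ / 2) G (wh o)) (ht : TgN wh d lv σ₀ tl w o) :
    Few S (fun J F => ptr F J) (vg ((o : ℝ) + s)) (fun _ F => F.W)
      (paQ m c d (wh w) (fun l => sn l (wh w)) nH nV)
      (jtQ m c d k od wh tl (fun i => P i v) w) := by
  have hwv' : (w : ℝ) ≤ v := by exact_mod_cast hwv
  have hvo' : (v : ℝ) ≤ o := by exact_mod_cast hvo
  have oa : a < o := by linarith
  obtain ⟨C₀, htm⟩ := h.tm
  have hg := (h.wg o oa ho)
  obtain ⟨u₁, rd, hrd, hch⟩ := h.ch.ch _ hg.1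
  have e3 := h.wm w o hw (hwv.trans hvo) ho
  have hc := NrD.nrC hr e3 fun l hl => h.mn l hl w o hw (hwv.trans hvo) ho
  refine Few.up h.pos (fun J F => ⟨fun x => x, fun _ => rfl⟩)
    (fun J F => vg_mono hg.2 (by linarith [h.b1]) J F)
    (fun J F => ⟨fun x => x, fun _ => rfl⟩) (few_pi h.pos fun i => ?_)
  obtain ⟨rk, x1, x2⟩ := hT.att i o oa ho
  have e1 := hP.mono i v o (by linarith) hvo ho
  have e2 := hP.le i o oa ho
  have e4 := tg_mono h hT i w o hw (hwv.trans hvo) ho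
  refine few0_cut h.pos (exs_jet (N := P i v) (j := od i) x1 x2)
    (few0_jet htm hch.w0 hch.u0 (by linarith) _ _ _) ?_
  refine few_tgCj htm h.pos h.ch (fun J F => ⟨fun x => x, fun _ => rfl⟩) kn_W hg.1 hc hi le_rfl e3
    le_rfl ?_ fun l hl => ?_
  · rw [min_eq_right e4]
    linarith [ht.t1 i]
  · rw [min_eq_right e4]
    linarith [ht.t2 i l hl]

/-- **No look-ahead given the near path**, at given windows. -/
theorem ni_fixJ (h : VCh S (fun J F => ptr F J) (yX ((range d).image c)) c d s a b wh sn G)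
    (hlam : 0 < lam) (hE : EdJ wh sn d N lv₀ σ₁ a b lam G)
    (hT : TgC S c d wh a b k tl) (hS : TgS wh d lv₀ σ₁ a b lam tl) (hP : JtP wh a b od tl P)
    (hB : TgC S c d wh a b kB tB) (hD : BdB wh d lv₀ σ₁ a b lam oB tB DB) {θ₀ : ℚ → ℝ}
    {θ : ℚ → ℚ → ℝ} (hR : TRelS S (fun J F => ptr F J) (yX ((range d).image c)) s
      (cdQ m c d wh sn N kB oB tB DB)
      (fun w o => jtQ m c d k od wh tl (fun i => P i o) w) a b lam θ₀ θ)
    {w v o : ℚ} (hw : a < w) (hwv : w ≤ v) (hvo : v ≤ o) (ho : (o : ℝ) < b)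
    (hl : (o : ℝ) < w + lam) {nH nV lv : ℕ → ℝ} {σ₀ φ : ℝ} {nB : Fin n' → ℝ}
    (hr : NrD wh sn d nH nV lv σ₀ φ w o) (hi : HiW sn d lv (σ₀ / 2) G (wh o))
    (ht : TgN wh d lv σ₀ tl w o)
    (hNV : ∀ l < d, nV l ≤ N l) (hNB : ∀ i, nB i ≤ DB i)
    (hgap : ∀ x, wh w ≤ x → x ≤ wh o → ∃ v' ∈ G, |v' - x| ≤ φ)
    (hfl : ∀ i < d, ∀ x ∈ G, wh w ≤ x → x ≤ wh o → |(sn i x - x) - (sn i (wh o) - wh o)| ≤ 2 * φ)
    {x' : ℝ} (hx' : x' ∈ G) (hox' : (o : ℝ) + s ≤ x') :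
    ∀ ε : ℝ, 0 < ε → ∃ κ : ℝ, 0 < κ ∧ ∃ e₀ : ℝ, 0 < e₀ ∧ ∀ K : ℕ, Bas S (fun J F A =>
      ∀ (V : Type) (z : F.Ω → V) (V' : Type) (z' : F.Ω → V'),
      Mx (fun J F => ptr F J) (vg ((w : ℝ) + s)) κ F A z →
      Mx (fun J F => ptr F J) (vg ((v : ℝ) + s)) κ F A z' →
      ∀ u u₁ q pa, (jtQ m c d k od wh tl (fun i => P i o) w).P K e₀ J F A u →
      (jtQ m c d k od wh tl (fun i => P i v) w).P K e₀ J F A u₁ →
      (jtQ m c d kB oB wh tB nB w).P K e₀ J F A q →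
      (paQ m c d (wh w) (fun l => sn l (wh w)) nH nV).P K e₀ J F A pa →
      CH (Pool.Agent.H49.Ent.cond F.p A True) q (fun ω => (pa ω, (z ω, F.W ω))) ≤
        CH (Pool.Agent.H49.Ent.cond F.p A True) q (fun ω => (pa ω, (z' ω, F.W ω))) +
          ((θ₀ w - θ₀ o) +
            ∑ i ∈ range d, (sn i x' - sn i (wh o) + 8 * ((i : ℝ) + 1) * φ) * Real.log 2 + ε) * J ∧
      CH (Pool.Agent.H49.Ent.cond F.p A True) u
          (fun ω => (u₁ ω, ((pa ω, q ω), (z ω, F.W ω)))) ≤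
        CH (Pool.Agent.H49.Ent.cond F.p A True) u (fun ω => ((pa ω, q ω), (z' ω, F.W ω))) +
          ((θ w o - θ w v - θ v o) + (θ₀ w - θ₀ o) +
            ∑ i ∈ range d, (sn i x' - sn i (wh o) + 8 * ((i : ℝ) + 1) * φ) * Real.log 2 + ε) *
              J) := by
  intro cc hcc
  obtain ⟨ε, hε, hεc⟩ : ∃ ε : ℝ, 0 < ε ∧ 20 * ε = cc := ⟨cc / 20, by positivity, by ring⟩
  have hwv' : (w : ℝ) ≤ v := by exact_mod_cast hwv
  have hvo' : (v : ℝ) ≤ o := by exact_mod_cast hvo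
  have hwo := hwv.trans hvo
  have oa : a < o := by linarith
  have va : a < v := by linarith
  have vb : (v : ℝ) < b := by linarith
  have wb : (w : ℝ) < b := by linarith
  have ob1 : (o : ℝ) + s < 1 := by linarith [h.b1]
  have gw := h.wg w hw wb
  have go := h.wg o oa ho
  have wo := h.wm w o hw hwo ho
  obtain ⟨C₀, htm⟩ := h.tm
  obtain ⟨u₂, rd, hrd, hch⟩ := h.ch.ch _ gw.1
  have hfp : ∀ (J : ℕ) (F : Fam m J), ∃ χ : PtT F → PtT F, ∀ ω, ptr F J ω = χ (ptr F J ω) :=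
    fun J F => ⟨fun x => x, fun _ => rfl⟩
  have hHt := hr.htN fun l hl => h.mn l hl w o hw hwo ho
  -- the numbers
  obtain ⟨k1, hk1, e1, he1, H1⟩ := (rel_J h hlam hE hT hS hP hB hD).la h.pos hR hw hwv hvo ho hl
    ε hε
  obtain ⟨k2, hk2, e2, he2, H2⟩ := hR.n₀ w hw wb ε hε
  obtain ⟨k3, hk3, e3, he3, H3⟩ := hR.n₀ o oa ho ε hε
  -- the near path
  have q4 := few_cdB (kB := kB) h hlam hE hD hw wb (nV := nV) (nB := nB) hr.φ0 hHt hNV hNB
  obtain ⟨e4, he4, H4⟩ := q4.mx h.pos ε hε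
  have q5 := Few.up h.pos (f' := fun J F => ptr F J) (g' := vg ((v : ℝ) + s))
    (y' := yX ((range d).image c)) (fun J F => ⟨fun x => x, fun _ => rfl⟩)
    (fun J F => vg_mono (by linarith) (by linarith) J F) (fun J F => ⟨fun x => x, fun _ => rfl⟩) q4
  obtain ⟨e5, he5, H5⟩ := q5.mx h.pos ε hε
  obtain ⟨e6, he6, H6⟩ := (few_jtN h hT hP hw hwo le_rfl ho hr hi ht).mx h.pos ε hε
  obtain ⟨e7, he7, H7⟩ := (few_jtN h hT hP hw hwv hvo ho hr hi ht).mx h.pos ε hε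
  -- the positions
  have q8 := FewC.up h.pos (f' := fun J F => ptr F J) (g' := vg ((w : ℝ) + s)) (y' := fun _ F => F.W)
    (fun J F => ⟨fun x => x, fun _ => rfl⟩)
    (fun J F => vg_mono gw.2 (by linarith) J F) (fun J F => ⟨fun x => x, fun _ => rfl⟩)
    (fewC_jPos (f := fun J F => ptr F J) (y := fun _ F => F.W) htm h.pos hfp kn_W hch hr.φ0 hHt
      le_rfl)
  obtain ⟨e8, he8, H8⟩ := q8.mx h.pos ε hε
  have q9 := fewC_ht (f := fun J F => ptr F J) (y := fun _ F => F.W) htm h.pos h.ch hfp kn_W gw.1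
    go.1 wo go.2 (by linarith) hr.φ0 hgap hfl (p := fun l => sn l (wh w)) (n := nH)
    (fun i _ => by linarith [hr.φ0]) (fun i hi => by linarith [hr.h i hi, hr.lv0 i hi, hr.σ0])
  obtain ⟨e9, he9, H9⟩ := q9.mx h.pos ε hε
  have H10 := ful_x h.pos h.ch hx' hox' hε
  -- the condition at the last window
  obtain ⟨e11, he11, H11⟩ := (h.up oa le_rfl ho (few_cd (kB := kB) h hE hD hw oa hwo le_rfl ho hl
    (by linarith) fun _ => le_rfl)).mx h.pos ε hε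
  obtain ⟨e₀, he₀, l1, l2, l3, l4, l5, l6, l7, l8, l9, l11⟩ : ∃ e₀ : ℝ, 0 < e₀ ∧ e₀ ≤ e1 ∧
      e₀ ≤ e2 ∧ e₀ ≤ e3 ∧ e₀ ≤ e4 ∧ e₀ ≤ e5 ∧ e₀ ≤ e6 ∧ e₀ ≤ e7 ∧ e₀ ≤ e8 ∧ e₀ ≤ e9 ∧ e₀ ≤ e11 := by
    refine ⟨min (min (min e1 e2) (min e3 e4)) (min (min (min e5 e6) (min e7 e8)) (min e9 e11)),
      by positivity, ?_, ?_, ?_, ?_, ?_, ?_, ?_, ?_, ?_, ?_⟩ <;> simp
  obtain ⟨κ, hκ, m1, m2, m3, m4⟩ : ∃ κ : ℝ, 0 < κ ∧ κ ≤ k1 ∧ κ ≤ k2 ∧ κ ≤ k3 ∧ κ ≤ ε / 2 :=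
    ⟨min (min k1 k2) (min k3 (ε / 2)), by positivity, by simp, by simp, by simp, by simp⟩
  obtain ⟨K₁, M₁, X1⟩ := exs_cd (N := N) h hB oB DB hw wb e₀ he₀
  obtain ⟨K₂, M₂, X2⟩ := exs_cd (N := N) h hB oB DB oa ho e₀ he₀
  refine ⟨κ, hκ, e₀, he₀, fun K => ?_⟩
  obtain ⟨L, hL0, hL1, hL2⟩ : ∃ L : ℕ, K ≤ L ∧ K₁ ≤ L ∧ K₂ ≤ L :=
    ⟨max K (max K₁ K₂), le_max_left _ _, (le_max_left _ _).trans (le_max_right _ _),
      (le_max_right _ _).trans (le_max_right _ _)⟩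
  obtain ⟨η, hη⟩ := h.rn o oa ho
  refine Bas.mono 0 (((((H1 L).and (H2 L)).and ((H3 L).and (H4 L))).and
    (((H5 L).and (H6 L)).and ((H7 L).and (H8 L)))).and
    ((((H9 L).and H10).and (mx_ex h.pos hη κ hκ)).and
      (((H11 L).and (pos_bas h.pos)).and (X1.and X2)))) ?_
  rintro J - F A ⟨⟨⟨⟨H1, H2⟩, H3, H4⟩, ⟨H5, H6⟩, H7, H8⟩, ⟨⟨H9, H10⟩, Vo, zo, hzo⟩, ⟨H11, hA⟩,
    ⟨e, he, -⟩, eo, heo, -⟩ V z V' z' hz hz' u u₁ q pa hu hu₁ hq hpa
  have hcl := isLaw_cond F.isLaw hA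
  have hJ0 : (0 : ℝ) ≤ J := Nat.cast_nonneg J
  have he := (cdQ m c d wh sn N kB oB tB DB w).mono hL1 le_rfl he
  have heo := (cdQ m c d wh sn N kB oB tB DB o).mono hL2 le_rfl heo
  have hu := (jtQ m c d k od wh tl (fun i => P i o) w).mono hL0 le_rfl hu
  have hu₁ := (jtQ m c d k od wh tl (fun i => P i v) w).mono hL0 le_rfl hu₁
  have hq := (jtQ m c d kB oB wh tB nB w).mono hL0 le_rfl hq
  have hpa := (paQ m c d (wh w) (fun l => sn l (wh w)) nH nV).mono hL0 le_rfl hpa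
  have hht := htO_P hpa
  -- the record at the last window
  have hZ : Mx (fun J F => ptr F J) (vg ((o : ℝ) + s)) κ F A (fun ω => (z ω, zo ω)) :=
    hz.join hA ⟨fun x => x, fun _ => rfl⟩ (vg_mono (by linarith) (by linarith) J F) hzo
  have r1 := H1 V z V' z' (hz.le' m1) (hz'.le' m1) e u u₁
    ((cdQ m c d wh sn N kB oB tB DB w).mono le_rfl l1 he)
    ((jtQ m c d k od wh tl (fun i => P i o) w).mono le_rfl l1 hu)
    ((jtQ m c d k od wh tl (fun i => P i v) w).mono le_rfl l1 hu₁)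
  have r2 := (abs_le.1 (H2 V z (hz.le' m2) e
    ((cdQ m c d wh sn N kB oB tB DB w).mono le_rfl l2 he))).2
  have r3 := (abs_le.1 (H3 _ _ (hZ.le' m3) eo
    ((cdQ m c d wh sn N kB oB tB DB o).mono le_rfl l3 heo))).1
  have r4 := H4 V z (hz.le' m4) e (fun ω => (pa ω, q ω))
    ((cdQ m c d wh sn N kB oB tB DB w).mono le_rfl l4 he)
    ⟨(paQ m c d _ _ nH nV).mono le_rfl l4 hpa, (jtQ m c d kB oB wh tB nB w).mono le_rfl l4 hq⟩
  have r5 := H5 V' z' (hz'.le' m4) e (fun ω => (pa ω, q ω))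
    ((cdQ m c d wh sn N kB oB tB DB w).mono le_rfl l5 he)
    ⟨(paQ m c d _ _ nH nV).mono le_rfl l5 hpa, (jtQ m c d kB oB wh tB nB w).mono le_rfl l5 hq⟩
  have r6 := H6 _ _ (hZ.le' m4) pa u ((paQ m c d _ _ nH nV).mono le_rfl l6 hpa)
    ((jtQ m c d k od wh tl (fun i => P i o) w).mono le_rfl l6 hu)
  have r7 := H7 _ _ (hZ.le' m4) pa u₁ ((paQ m c d _ _ nH nV).mono le_rfl l7 hpa)
    ((jtQ m c d k od wh tl (fun i => P i v) w).mono le_rfl l7 hu₁)
  have r8 := H8 V z (hz.le' m4) (fun ω => htO (pa ω)) (fun ω => fun l : Fin d => F.X J ω (c l))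
    ((htQ m c d _ _ nH).mono le_rfl l8 hht) (fun ω _ => rfl)
  have r9 := H9 _ _ (hZ.le' m4) (fun _ => ()) (fun ω => htO (pa ω)) (fun ω _ => rfl)
    ((htQ m c d _ _ nH).mono le_rfl l9 hht)
  have r10 := H10 _ _ hZ.1
  have r11 := H11 _ _ (hZ.le' m4) e eo ((cdQ m c d wh sn N kB oB tB DB w).mono le_rfl l11 he)
    ((cdQ m c d wh sn N kB oB tB DB o).mono le_rfl l11 heo)
  have r9' : CH (Pool.Agent.H49.Ent.cond F.p A True) (fun ω => htO (pa ω))
      (fun ω => ((z ω, zo ω), F.W ω)) ≤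
      CH (Pool.Agent.H49.Ent.cond F.p A True) (fun ω => htO (pa ω))
        (fun ω => ((), ((z ω, zo ω), F.W ω))) :=
    CH_mono_cond hcl.nonneg fun ω ω' _ _ hh => Prod.ext rfl hh
  have t1 : CH (Pool.Agent.H49.Ent.cond F.p A True) e
      (fun ω => (z ω, yX ((range d).image c) J F ω)) ≤ (θ₀ w + ε) * J := by linarith
  have t2 : (θ₀ o - ε) * J ≤ CH (Pool.Agent.H49.Ent.cond F.p A True) eo
      (fun ω => ((z ω, zo ω), yX ((range d).image c) J F ω)) := by linarith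
  have r6' : CH (Pool.Agent.H49.Ent.cond F.p A True) u
      (fun ω => ((pa ω, q ω), ((z ω, zo ω), F.W ω))) ≤
      CH (Pool.Agent.H49.Ent.cond F.p A True) u (fun ω => (pa ω, ((z ω, zo ω), F.W ω))) := by
    refine CH_mono_cond hcl.nonneg fun ω ω' _ _ hh => ?_
    have h1 := Prod.ext_iff.mp hh
    exact Prod.ext (Prod.ext_iff.mp h1.1).1 h1.2
  have r7' : CH (Pool.Agent.H49.Ent.cond F.p A True) u₁
      (fun ω => ((pa ω, q ω), ((z ω, zo ω), F.W ω))) ≤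
      CH (Pool.Agent.H49.Ent.cond F.p A True) u₁ (fun ω => (pa ω, ((z ω, zo ω), F.W ω))) := by
    refine CH_mono_cond hcl.nonneg fun ω ω' _ _ hh => ?_
    have h1 := Prod.ext_iff.mp hh
    exact Prod.ext (Prod.ext_iff.mp h1.1).1 h1.2
  have hy1 : Det (Pool.Agent.H49.Ent.cond F.p A True)
      (fun ω => ((fun l : Fin d => F.X J ω (c l)), F.W ω)) (yX ((range d).image c) J F) := by
    intro ω ω' _ _ hh
    have h1 := Prod.ext_iff.mp hh
    refine Prod.ext (funext fun i => ?_) h1.2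
    show (if i ∈ (range d).image c then F.X J ω i else 0) =
      if i ∈ (range d).image c then F.X J ω' i else 0
    split_ifs with hi
    · obtain ⟨l, hl, rfl⟩ := mem_image.1 hi
      exact congrFun h1.1 ⟨l, mem_range.1 hl⟩
    · rfl
  have hy2 : Det (Pool.Agent.H49.Ent.cond F.p A True) (yX ((range d).image c) J F)
      (fun ω => ((fun l : Fin d => F.X J ω (c l)), F.W ω)) := by
    intro ω ω' _ _ hh
    have h1 := Prod.ext_iff.mp hh
    refine Prod.ext (funext fun l => ?_) h1.2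
    have h2 := congrFun h1.1 (c l)
    have h3 : (if c l ∈ (range d).image c then F.X J ω (c l) else 0) =
      if c l ∈ (range d).image c then F.X J ω' (c l) else 0 := h2
    rw [if_pos (mem_image_of_mem c (mem_range.2 l.2)),
      if_pos (mem_image_of_mem c (mem_range.2 l.2))] at h3
    exact h3
  have key := ni_ent hcl.nonneg (q := Pool.Agent.H49.Ent.cond F.p A True) (u := u) (u₁ := u₁)
    (e := e) (eo := eo) (pa := fun ω => (pa ω, q ω)) (hh := fun ω => htO (pa ω))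
    (x := fun ω => fun l : Fin d => F.X J ω (c l)) (y := yX ((range d).image c) J F) (w := F.W)
    (z := z) (z' := z') (zo := zo)
    (fun ω ω' _ _ hh => congrArg htO (Prod.ext_iff.mp hh).1) hy1 hy2 r1 r4 r5
    (r6'.trans r6) (r7'.trans r7) r8 r10 (r9'.trans r9) t1 t2 r11
  -- the quantities of the second kind
  have r4' : CH (Pool.Agent.H49.Ent.cond F.p A True) (fun ω => (q ω, pa ω))
      (fun ω => (e ω, (z ω, yX ((range d).image c) J F ω))) ≤ ε * J := by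
    refine le_trans (CH_mono_left hcl.nonneg fun ω ω' _ _ hh => ?_) r4
    have h1 := Prod.ext_iff.mp (Prod.ext_iff.mp hh).1
    exact Prod.ext h1.2 h1.1
  have key2 := ni_hi hcl.nonneg (q := Pool.Agent.H49.Ent.cond F.p A True)
    (e := e) (eo := eo) (pa := fun ω => (q ω, pa ω)) (hh := fun ω => htO (pa ω))
    (x := fun ω => fun l : Fin d => F.X J ω (c l)) (y := yX ((range d).image c) J F) (w := F.W)
    (z := z) (zo := zo) hy1 hy2 r4' r8 r10 (r9'.trans r9) t1 t2 r11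
  have r12 := hzo.2 _ z' (cl2_vg (f := fun J F => ptr F J) (by linarith : (v : ℝ) + s ≤ o + s)
    ob1.le hz'.1)
  have s1 : (∑ i ∈ range d, (sn i x' - sn i (wh o) + 8 * ((i : ℝ) + 1) * φ) * Real.log 2) * J =
      (∑ i ∈ range d, (1 - nH i) * Real.log 2) * J -
      ∑ i ∈ range d, (1 - sn i x') * Real.log 2 * J +
      (∑ i ∈ range d, (nH i - sn i (wh o) + 8 * ((i : ℝ) + 1) * φ) * Real.log 2) * J := by
    simp only [Finset.sum_mul]
    rw [← Finset.sum_sub_distrib, ← Finset.sum_add_distrib]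
    refine Finset.sum_congr rfl fun i _ => ?_
    ring
  have s2 : 0 ≤ ε * J := by positivity
  have s3 : cc * J = 20 * (ε * J) := by rw [← hεc]; ring
  have s12 : κ * J ≤ ε * J := mul_le_mul_of_nonneg_right (by linarith) hJ0
  rw [add_assoc, add_assoc] at key2
  have key3 := ni_part hcl.nonneg (q := Pool.Agent.H49.Ent.cond F.p A True) (pa := pa) (h := q)
    (hh := fun ω => htO (pa ω)) (w := F.W) (z := z) (zo := zo) (z' := z')
    (fun ω ω' _ _ hh => congrArg htO hh) key2 (r12.trans s12)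
  refine ⟨key3.trans (le_of_sub_nonneg ?_), key.trans (le_of_sub_nonneg ?_)⟩
  · generalize (∑ i ∈ range d, (sn i x' - sn i (wh o) + 8 * ((i : ℝ) + 1) * φ) * Real.log 2) = T at *
    generalize (∑ i ∈ range d, (1 - nH i) * Real.log 2) = T₁ at *
    generalize (∑ i ∈ range d, (1 - sn i x') * Real.log 2 * J) = T₂ at *
    generalize (∑ i ∈ range d, (nH i - sn i (wh o) + 8 * ((i : ℝ) + 1) * φ) * Real.log 2) = T₃ at *
    have s4 : ((θ₀ w - θ₀ o) + T + cc) * J = θ₀ w * J - θ₀ o * J + T * J + cc * J := by ring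
    have s6 : (T₁ + ε) * J = T₁ * J + ε * J := by ring
    have s7 : (T₃ + ε) * J = T₃ * J + ε * J := by ring
    have s8 : (θ₀ w + ε) * J = θ₀ w * J + ε * J := by ring
    have s9 : (θ₀ o - ε) * J = θ₀ o * J - ε * J := by ring
    rw [s4, s6, s7, s8, s9, s1, s3]
    linarith
  · generalize (∑ i ∈ range d, (sn i x' - sn i (wh o) + 8 * ((i : ℝ) + 1) * φ) * Real.log 2) = T at *
    generalize (∑ i ∈ range d, (1 - nH i) * Real.log 2) = T₁ at *
    generalize (∑ i ∈ range d, (1 - sn i x') * Real.log 2 * J) = T₂ at *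
    generalize (∑ i ∈ range d, (nH i - sn i (wh o) + 8 * ((i : ℝ) + 1) * φ) * Real.log 2) = T₃ at *
    have s4 : (θ w o - θ w v - θ v o + (θ₀ w - θ₀ o) + T + cc) * J =
      (θ w o - θ w v - θ v o) * J + θ₀ w * J - θ₀ o * J + T * J + cc * J := by ring
    have s5 : (θ w o - θ w v - θ v o + ε) * J = (θ w o - θ w v - θ v o) * J + ε * J := by ring
    have s6 : (T₁ + ε) * J = T₁ * J + ε * J := by ring
    have s7 : (T₃ + ε) * J = T₃ * J + ε * J := by ring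
    have s8 : (θ₀ w + ε) * J = θ₀ w * J + ε * J := by ring
    have s9 : (θ₀ o - ε) * J = θ₀ o * J - ε * J := by ring
    rw [s4, s5, s6, s7, s8, s9, s1, s3]
    linarith

end

end Pool.LPJ30
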