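import Pool.Agent.H30.LPJ.Vj

/-!
# The numbers of the condition and of the jets of the targets

`pfQ`: the digits of the jets of the first kind, the infimum of the natural digits of the later
windows. `EIxJ`: rational data of the digits; `AdmJ`: admissible data. `ndj_cls`: one subclass with
the numbers for all admissible data. `ndj_ae`: at almost every point with good data of arbitrarily
small intervals, for every `e` there are data for which the numbers of the targets are additive and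
the number of the condition is constant, up to `e r` in the boxes of size `r`.
-/

set_option autoImplicit false

namespace Pool.LPJ30

open Finset Real MvPolynomial MeasureTheory Set
open Pool.Agent.H49.Ent Pool.Agent.H32.Dense Pool.STK Pool.KA Pool.KSAT Pool.K2S Pool.PB Pool.S6C
  Pool.GEN Pool.RCD Pool.LA91
open Pool.OWN83 (TwoRelS TRelS rel_clsS)
open Pool.LP30

variable {m : ℕ} {α γ : ∀ J : ℕ, Fam m J → Type}
  {f : ∀ (J : ℕ) (F : Fam m J), F.Ω → α J F} {y : ∀ (J : ℕ) (F : Fam m J), F.Ω → γ J F}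
  {S : PCl m}

/-- **The digits of the jets of the first kind** at the index `w`: the infimum of the natural digits
of the indices `w ≤ u < b`. -/
noncomputable def pfQ (wh : ℚ → ℝ) {n : ℕ} (od : Fin n → ℕ) (tl : Fin n → ℚ → ℝ) (b : ℚ)
    (i : Fin n) (w : ℚ) : ℝ :=
  sInf ((fun u : ℚ => tl i u - od i * wh u) '' {u : ℚ | w ≤ u ∧ u < b})

/-- Rational data: the digits, the levels, the room, the interval, the step. -/
structure EIxJ (d n' : ℕ) where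
  N : Fin d → ℚ
  D : Fin n' → ℚ
  lv : Fin d → ℚ
  σ₀ : ℚ
  a : ℚ
  b : ℚ
  lam : ℚ

instance (d n' : ℕ) : Countable (EIxJ d n') := by
  have h : Function.Injective (fun i : EIxJ d n' => (i.N, i.D, i.lv, i.σ₀, i.a, i.b, i.lam)) := by
    rintro ⟨a1, a2, a3, a4, a5, a6, a7⟩ ⟨b1, b2, b3, b4, b5, b6, b7⟩ h
    simp only [Prod.mk.injEq] at h
    obtain ⟨rfl, rfl, rfl, rfl, rfl, rfl, rfl⟩ := h
    rfl
  exact h.countable

/-- The digits of the jets of the second kind. -/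
def EIxJ.DB {d n' : ℕ} (i : EIxJ d n') (j : Fin n') : ℝ := i.D j

/-- **Admissible data.** -/
structure AdmJ {n n' : ℕ} (wh : ℚ → ℝ) (sn : ℕ → ℝ → ℝ) (d : ℕ) (G : Set ℝ)
    (tl : Fin n → ℚ → ℝ) (oB : Fin n' → ℕ) (tB : Fin n' → ℚ → ℝ) (a b : ℝ)
    (i : EIxJ d n') : Prop where
  ed : EdJ wh sn d (exN i.N) (exN i.lv) i.σ₀ i.a i.b i.lam G
  tg : TgS wh d (exN i.lv) i.σ₀ i.a i.b i.lam tl
  bd : BdB wh d (exN i.lv) i.σ₀ i.a i.b i.lam oB tB i.DB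
  lam0 : 0 < i.lam
  ha : a ≤ i.a
  hb : (i.b : ℝ) ≤ b

section

variable {c : ℕ → Fin m} {d : ℕ} {s a b : ℝ} {wh : ℚ → ℝ} {sn : ℕ → ℝ → ℝ} {G : Set ℝ}
  {n n' : ℕ} {k : Fin n → Fin m} {od : Fin n → ℕ} {tl : Fin n → ℚ → ℝ}
  {kB : Fin n' → Fin m} {oB : Fin n' → ℕ} {tB : Fin n' → ℚ → ℝ}

/-- The set of the infimum is bounded from below. -/
theorem pf_bdd (h : VCh S f y c d s a b wh sn G) (hT : TgC S c d wh a b k tl) {bq : ℚ}
    (hb : (bq : ℝ) ≤ b) (i : Fin n) {w : ℚ} (hw : a < w) :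
    BddBelow ((fun u : ℚ => tl i u - od i * wh u) '' {u : ℚ | w ≤ u ∧ u < bq}) := by
  refine ⟨tl i w - wh w - od i, ?_⟩
  rintro _ ⟨u, ⟨h1, h2⟩, rfl⟩
  have h1' : (w : ℝ) ≤ u := by exact_mod_cast h1
  have h2' : (u : ℝ) < bq := by exact_mod_cast h2
  have hub : (u : ℝ) < b := by linarith
  obtain ⟨u₁, rd, hrd, hch⟩ := h.ch.ch _ (h.wg u (by linarith) hub).1
  have e1 := hT.mono i w u hw h1 hub
  have e2 := hch.w0
  have e3 := hch.u0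
  have e4 : (od i : ℝ) * wh u ≤ od i * 1 := mul_le_mul_of_nonneg_left e3.le (Nat.cast_nonneg _)
  simp only
  linarith

/-- The digits `pfQ`. -/
theorem pf_jtP (h : VCh S f y c d s a b wh sn G) (hT : TgC S c d wh a b k tl) {aq bq : ℚ}
    (ha : a ≤ aq) (hb : (bq : ℝ) ≤ b) : JtP wh aq bq od tl (pfQ wh od tl bq) where
  mono := fun i w v h1 h2 h3 => by
    have h3' : v < bq := by exact_mod_cast h3
    refine csInf_le_csInf (pf_bdd h hT hb i (by linarith)) ⟨_, ⟨v, ⟨le_rfl, h3'⟩, rfl⟩⟩ ?_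
    rintro _ ⟨u, ⟨u1, u2⟩, rfl⟩
    exact ⟨u, ⟨h2.trans u1, u2⟩, rfl⟩
  le := fun i w h1 h2 => by
    have h2' : w < bq := by exact_mod_cast h2
    have h3 := csInf_le (pf_bdd (od := od) h hT hb i (by linarith : a < w))
      ⟨w, ⟨le_rfl, h2'⟩, rfl⟩
    have h4 : pfQ wh od tl bq i w ≤ tl i w - od i * wh w := h3
    linarith

/-- A lower bound of the digits. -/
theorem le_pf {bq : ℚ} (i : Fin n) {w : ℚ} (hw : w < bq) {x : ℝ}
    (hx : ∀ u : ℚ, w ≤ u → u < bq → x ≤ tl i u - od i * wh u) : x ≤ pfQ wh od tl bq i w := by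
  refine le_csInf ⟨_, ⟨w, ⟨le_rfl, hw⟩, rfl⟩⟩ ?_
  rintro _ ⟨u, ⟨u1, u2⟩, rfl⟩
  exact hx u u1 u2

/-- **The numbers** for all admissible data. -/
def NjN (S : PCl m) (f : ∀ (J : ℕ) (F : Fam m J), F.Ω → α J F)
    (y : ∀ (J : ℕ) (F : Fam m J), F.Ω → γ J F) (c : ℕ → Fin m) (d : ℕ) (s a b : ℝ) (wh : ℚ → ℝ)
    (sn : ℕ → ℝ → ℝ) (G : Set ℝ) {n n' : ℕ} (k : Fin n → Fin m) (od : Fin n → ℕ)
    (tl : Fin n → ℚ → ℝ) (kB : Fin n' → Fin m) (oB : Fin n' → ℕ) (tB : Fin n' → ℚ → ℝ)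
    (θ₀ : EIxJ d n' → ℚ → ℝ) (θ : EIxJ d n' → ℚ → ℚ → ℝ) : Prop :=
  ∀ i, AdmJ wh sn d G tl oB tB a b i → TRelS S f y s
    (cdQ m c d wh sn (exN i.N) kB oB tB i.DB)
    (fun w o => jtQ m c d k od wh tl (fun j => pfQ wh od tl i.b j o) w)
    i.a i.b i.lam (θ₀ i) (θ i)

theorem NjN.sub {S' : PCl m} (hs : ∀ (τ : ℝ) (J : ℕ) (F : Fam m J) (A : F.Ω → Prop),
    S'.St τ J F A → S.St τ J F A) {θ₀ : EIxJ d n' → ℚ → ℝ} {θ : EIxJ d n' → ℚ → ℚ → ℝ}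
    (h : NjN S f y c d s a b wh sn G k od tl kB oB tB θ₀ θ) :
    NjN S' f y c d s a b wh sn G k od tl kB oB tB θ₀ θ :=
  fun i hi => (h i hi).sub hs

/-- The family for admissible data. -/
theorem AdmJ.rel (h : VCh S f y c d s a b wh sn G) (hT : TgC S c d wh a b k tl)
    (hB : TgC S c d wh a b kB tB) {i : EIxJ d n'}
    (hi : AdmJ wh sn d G tl oB tB a b i) : TwoRelS S f y s
      (cdQ m c d wh sn (exN i.N) kB oB tB i.DB)
      (fun w o => jtQ m c d k od wh tl (fun j => pfQ wh od tl i.b j o) w) i.a i.b i.lam :=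
  rel_J (h.cut hi.ha hi.hb) (by exact_mod_cast hi.lam0) hi.ed (hT.cut hi.ha hi.hb) hi.tg
    (pf_jtP h hT hi.ha hi.hb) (hB.cut hi.ha hi.hb) hi.bd

/-- **One subclass** with the numbers for all admissible data. -/
theorem ndj_cls (h : VCh S f y c d s a b wh sn G) (hT : TgC S c d wh a b k tl)
    (hB : TgC S c d wh a b kB tB) (od : Fin n → ℕ) (oB : Fin n' → ℕ) :
    ∃ S' : PCl m, S'.Ne ∧
      (∀ (τ : ℝ) (J : ℕ) (F : Fam m J) (A : F.Ω → Prop), S'.St τ J F A → S.St τ J F A) ∧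
      ∃ (θ₀ : EIxJ d n' → ℚ → ℝ) (θ : EIxJ d n' → ℚ → ℚ → ℝ),
        NjN S' f y c d s a b wh sn G k od tl kB oB tB θ₀ θ := by
  classical
  obtain ⟨S', h1, h2, h3⟩ := rel_clsS (ι := {i : EIxJ d n' // AdmJ wh sn d G tl oB tB a b i})
    h.ne h.pos (fun _ => (Fin d → ℤ) × (Fin n' → ℤ)) (fun _ => Fin n → ℤ) (fun _ => α)
    (fun _ => γ) (fun _ => f) (fun _ => y)
    (fun _ => s) (fun i => cdQ m c d wh sn (exN i.1.N) kB oB tB i.1.DB)
    (fun i w o => jtQ m c d k od wh tl (fun j => pfQ wh od tl i.1.b j o) w)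
    (fun i => i.1.a) (fun i => i.1.b) (fun i => i.1.lam) (fun i => i.2.rel h hT hB)
    (fun i => by exact_mod_cast i.2.lam0)
  choose θ₀ θ hθ using h3
  refine ⟨S', h1, h2, fun i => if hi : AdmJ wh sn d G tl oB tB a b i then θ₀ ⟨i, hi⟩ else fun _ => 0,
    fun i => if hi : AdmJ wh sn d G tl oB tB a b i then θ ⟨i, hi⟩ else fun _ _ => 0,
    fun i hi => ?_⟩
  simp only [dif_pos hi]
  exact hθ ⟨i, hi⟩

/-- **Good data on arbitrarily small intervals**: few digits compared with the length. -/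
def CrJ {n n' : ℕ} (wh : ℚ → ℝ) (sn : ℕ → ℝ → ℝ) (d : ℕ) (G : Set ℝ) (tl : Fin n → ℚ → ℝ)
    (oB : Fin n' → ℕ) (tB : Fin n' → ℚ → ℝ) (a b g : ℝ) : Prop :=
  ∀ ε : ℝ, 0 < ε → ∀ δ₀ : ℝ, 0 < δ₀ → ∃ δ : ℝ, 0 < δ ∧ δ ≤ δ₀ ∧ ∃ i : EIxJ d n',
    AdmJ wh sn d G tl oB tB a b i ∧ i.a < g - δ ∧ g + δ < i.b ∧ (i.b : ℝ) - i.a ≤ 4 * δ ∧
    ∀ w : ℚ, i.a < w → w < i.b →
      ∑ l : Fin d, Real.log 2 * (exN i.N l - (sn l (wh w) - wh w)) +
        ∑ j : Fin n', Real.log 2 * (i.DB j - (tB j w - oB j * wh w)) ≤ ε * δ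

/-- **The data for `e`** at `g`, an interval of length at most `ρ`. -/
def GdJ {n n' : ℕ} (wh : ℚ → ℝ) (sn : ℕ → ℝ → ℝ) (d : ℕ) (G : Set ℝ) (tl : Fin n → ℚ → ℝ)
    (oB : Fin n' → ℕ) (tB : Fin n' → ℚ → ℝ) (a b : ℝ)
    (θ₀ : EIxJ d n' → ℚ → ℝ) (θ : EIxJ d n' → ℚ → ℚ → ℝ) (g e ρ : ℝ) (i : EIxJ d n') : Prop :=
  AdmJ wh sn d G tl oB tB a b i ∧ i.a < g ∧ g < i.b ∧ (i.b : ℝ) - i.a ≤ ρ ∧
  ∃ r₀ : ℝ, 0 < r₀ ∧ ∀ r : ℝ, 0 < r → r < r₀ →
    (∀ w v o : ℚ, g - r ≤ w → w ≤ v → v ≤ o → (o : ℝ) ≤ g + r →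
      θ i w o - θ i w v - θ i v o ≤ e * r) ∧
    ∀ w v : ℚ, g - r ≤ w → w ≤ v → (v : ℝ) ≤ g + r → θ₀ i w - θ₀ i v ≤ e * r

/-- **Data for all `e`**, at almost every point. -/
theorem ndj_ae (h : VCh S f y c d s a b wh sn G) (hT : TgC S c d wh a b k tl)
    (hB : TgC S c d wh a b kB tB)
    {θ₀ : EIxJ d n' → ℚ → ℝ} {θ : EIxJ d n' → ℚ → ℚ → ℝ}
    (hN : NjN S f y c d s a b wh sn G k od tl kB oB tB θ₀ θ) :
    ∀ᵐ g : ℝ, CrJ wh sn d G tl oB tB a b g → ∀ e : ℝ, 0 < e → ∀ ρ : ℝ, 0 < ρ →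
      ∃ i, GdJ wh sn d G tl oB tB a b θ₀ θ g e ρ i := by
  have hla : ∀ᵐ g : ℝ, ∀ i : {i : EIxJ d n' // AdmJ wh sn d G tl oB tB a b i},
      g ∈ Ioo (i.1.a : ℝ) i.1.b → ∀ e : ℝ, 0 < e →
      ∃ r₀ : ℝ, 0 < r₀ ∧ ∀ r : ℝ, 0 < r → r < r₀ →
      ∀ w v o : ℚ, g - r ≤ w → w ≤ v → v ≤ o → (o : ℝ) ≤ g + r →
        θ i.1 w o - θ i.1 w v - θ i.1 v o ≤ e * r := by
    rw [ae_all_iff]
    intro i
    have hc := h.cut i.2.ha i.2.hb
    exact TRelS.ae hc.ne hc.pos hc.b1.le (by exact_mod_cast i.2.lam0) hc.rn (i.2.rel h hT hB)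
      (hN i.1 i.2)
  have hdr : ∀ᵐ g : ℝ, ∀ ρ : ℚ, 0 < ρ → CrJ wh sn d G tl oB tB a b g → ∀ e : ℝ, 0 < e →
      ∃ i : {i : EIxJ d n' // AdmJ wh sn d G tl oB tB a b i ∧ (i.b : ℝ) - i.a ≤ ρ},
        i.1.a < g ∧ g < i.1.b ∧ ∃ r₀ : ℝ, 0 < r₀ ∧
        ∀ r : ℝ, 0 < r → r < r₀ → ∀ w v : ℚ, g - r ≤ w → w ≤ v → (v : ℝ) ≤ g + r →
          θ₀ i.1 w - θ₀ i.1 v ≤ e * r := by
    rw [ae_all_iff]
    intro ρ
    by_cases hρ : 0 < ρ
    swap
    · exact Filter.Eventually.of_forall fun g h => absurd h hρ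
    have h1 := drop_ae
      (ι := {i : EIxJ d n' // AdmJ wh sn d G tl oB tB a b i ∧ (i.b : ℝ) - i.a ≤ ρ})
      (fun i => (i.1.a : ℝ))
      (fun i => (i.1.b : ℝ)) (fun i => θ₀ i.1) (fun i w v e1 e2 e3 => by
        have hc := h.cut i.2.1.ha i.2.1.hb
        exact J_anti hc (by exact_mod_cast i.2.1.lam0) i.2.1.ed (hB.cut i.2.1.ha i.2.1.hb)
          i.2.1.bd (hN i.1 i.2.1).n₀ w v e1 e2 e3)
      {g | CrJ wh sn d G tl oB tB a b g} (by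
        intro g hg ε hε δ₀ hδ₀
        have hρ' : (0 : ℝ) < ρ := by exact_mod_cast hρ
        obtain ⟨δ, hδ, hδ1, i, hi, i1, i2, i4, i3⟩ := hg ε hε (min δ₀ (ρ / 4))
          (lt_min hδ₀ (by positivity))
        have hδρ := hδ1.trans (min_le_right _ _)
        refine ⟨δ, hδ, hδ1.trans (min_le_left _ _), ⟨i, hi, by linarith⟩, i1, i2,
          fun w v e1 e2 e3 => ?_⟩
        have hc := h.cut hi.ha hi.hb
        have e2' : (w : ℝ) ≤ v := by exact_mod_cast e2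
        have wa : (i.a : ℝ) < w := by linarith
        have wb : (w : ℝ) < i.b := by linarith
        have va : (i.a : ℝ) < v := by linarith
        have vb : (v : ℝ) < i.b := by linarith
        have k1 := J_le hc hi.ed (hB.cut hi.ha hi.hb) hi.bd wa wb ((hN i hi).n₀ w wa wb)
        have k2 := J_le hc hi.ed (hB.cut hi.ha hi.hb) hi.bd va vb ((hN i hi).n₀ v va vb)
        have k3 := i3 w (by exact_mod_cast wa) (by exact_mod_cast wb)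
        simp only
        linarith [k1.2, k2.1])
    filter_upwards [h1] with g h2 _ hg e he
    exact h2 hg e he
  filter_upwards [hla, hdr] with g h1 h2 hg e he ρ hρ
  obtain ⟨ρ', hρ1, hρ2⟩ := exists_rat_btwn hρ
  obtain ⟨i, i1, i2, r₁, hr₁, H1⟩ := h2 ρ' (by exact_mod_cast hρ1) hg e he
  obtain ⟨r₂, hr₂, H2⟩ := h1 ⟨i.1, i.2.1⟩ ⟨i1, i2⟩ e he
  exact ⟨i.1, i.2.1, i1, i2, by linarith [i.2.2], min r₁ r₂, lt_min hr₁ hr₂, fun r hr hrr =>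
    ⟨H2 r hr (hrr.trans_le (min_le_right _ _)), H1 r hr (hrr.trans_le (min_le_left _ _))⟩⟩

end

end Pool.LPJ30
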