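import Pool.Agent.H30.LPJ.Ipj

/-!
# Good data near a point of slopes one, jets of all orders

`SlK`: near `g` the levels of the targets of the second kind have exactly the slopes `oB`. `hi_of`:
earlier windows at which the jets of order at least two are natural. `crj_of`: there are good data
on arbitrarily small intervals.
-/

set_option autoImplicit false

namespace Pool.LPJ30

open Finset Real MvPolynomial
open Pool.Agent.H49.Ent Pool.Agent.H32.Dense Pool.STK Pool.KA Pool.KSAT Pool.K2S Pool.PB Pool.S6C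
  Pool.GEN Pool.RCD Pool.LA91
open Pool.AVG96 (fl fl_mem fl_mono le_fl whG)
open Pool.LP30

/-- **The levels of the targets of the second kind** in a box of radius `t`, error `η t`. -/
def Bx2 {n' : ℕ} (oB : Fin n' → ℕ) (TB : Fin n' → ℝ → ℝ) (G : Set ℝ) (g η t : ℝ) : Prop :=
  ∀ w ∈ G, ∀ v ∈ G, g - t ≤ w → w ≤ v → v ≤ g + t → ∀ i,
    |TB i v - TB i w - oB i * (v - w)| ≤ η * t

/-- **Exact slopes** of the targets of the second kind. -/
def SlK {n' : ℕ} (oB : Fin n' → ℕ) (TB : Fin n' → ℝ → ℝ) (G : Set ℝ) (g : ℝ) : Prop :=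
  ∀ η : ℝ, 0 < η → ∃ ρ : ℝ, 0 < ρ ∧ ∀ t : ℝ, 0 < t → t < ρ → Bx2 oB TB G g η t

section

variable {sn : ℕ → ℝ → ℝ} {d n n' : ℕ} {T : Fin n → ℝ → ℝ} {G : Set ℝ} {A s g Sg η t : ℝ}
  {oB : Fin n' → ℕ} {TB : Fin n' → ℝ → ℝ}

/-- **Earlier windows** from the slopes. -/
theorem hi_of {lv : ℕ → ℝ} {σ₀ v : ℝ} (h : Bx0 sn d T G g Sg η t) (hη : 0 ≤ η * t) (hσ : 0 < σ₀)
    (mn : ∀ l < d, ∀ w ∈ G, w ≤ v → sn l w ≤ sn l v)
    (hlv : ∀ l < d, 0 < lv l) (hv : v ∈ G) (h2 : v ≤ g + t)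
    (h3 : ∀ l < d, g - t ≤ v - (lv l + 2 * σ₀ + 2 * (η * t)))
    (h4 : ∀ l < d, 2 * lv l + 4 * σ₀ + 4 * (η * t) ≤ 1 - v)
    (h5 : ∀ l < d, ∀ l' < l, 2 * lv l + 4 * σ₀ + 4 * (η * t) ≤ lv l') : HiW sn d lv σ₀ G v where
  room := fun l hl => by linarith [h4 l hl, hlv l hl]
  ex := fun l hl => by
    have e0 := hlv l hl
    obtain ⟨u, hu, u1, u2⟩ := h.gap (v - (lv l + 2 * σ₀ + η * t)) (by linarith [h3 l hl])
      (by linarith)
    have e1 := (abs_le.1 (h.sl u hu v hv (by linarith [h3 l hl]) (by linarith) h2 l hl)).2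
    refine ⟨u, hu, by linarith, mn l hl u hu (by linarith), by linarith, ?_, fun l' hl' => ?_⟩
    · linarith [h4 l hl]
    · linarith [h5 l hl l' hl']

/-- **Good data on arbitrarily small intervals.** -/
theorem crj_of {a b : ℝ} (hG : IsClosed G) (hgG : g ∈ G) (hA : A < g) (g1 : g < 1)
    (mn : ∀ l < d, ∀ w ∈ G, ∀ v ∈ G, w ≤ v → sn l w ≤ sn l v)
    (s1 : ∀ l < d, sn l g < 1) (hSg : 0 ≤ Sg) (h : SlB sn d T G g Sg) (hB : SlK oB TB G g)
    (ha : a < g - s) (hb : g - s < b) :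
    CrJ (whG G A s) sn d G (fun i w => T i (whG G A s w)) oB (fun i w => TB i (whG G A s w))
      a b (g - s) := by
  intro ε hε δ₀ hδ₀
  have hl2 : 0 < Real.log 2 := Real.log_pos one_lt_two
  have hd0 : (0 : ℝ) ≤ d := Nat.cast_nonneg d
  have hn0 : (0 : ℝ) ≤ n' := Nat.cast_nonneg n'
  obtain ⟨P4, hP4⟩ : ∃ P4 : ℝ, P4 = 4 ^ d := ⟨_, rfl⟩
  have hP41 : 1 ≤ P4 := by rw [hP4]; exact one_le_pow₀ (by norm_num)
  obtain ⟨Ob, hOb0, hOb⟩ : ∃ Ob : ℝ, 0 ≤ Ob ∧ ∀ i, (oB i : ℝ) ≤ Ob :=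
    ⟨∑ i, (oB i : ℝ), Finset.sum_nonneg fun i _ => Nat.cast_nonneg _, fun i =>
      Finset.single_le_sum (f := fun i => (oB i : ℝ)) (fun i _ => Nat.cast_nonneg _)
        (Finset.mem_univ i)⟩
  -- the constants
  obtain ⟨κ, hκ, hκ1, hκ2⟩ : ∃ κ : ℝ, 0 < κ ∧ 16 * (P4 * κ) ≤ 1 ∧
      ((d : ℝ) + n') * (Real.log 2 * ((P4 + 4) * κ)) ≤ ε := by
    refine ⟨min (1 / (16 * P4)) (ε / (((d : ℝ) + n') * (Real.log 2 * (P4 + 4)) + 1)),
      by positivity, ?_, ?_⟩
    · have e1 := min_le_left (1 / (16 * P4)) (ε / (((d : ℝ) + n') * (Real.log 2 * (P4 + 4)) + 1))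
      have e2 := mul_le_mul_of_nonneg_left e1 (show (0 : ℝ) ≤ 16 * P4 by positivity)
      rw [mul_one_div_cancel (by positivity)] at e2
      linarith
    have e1 := min_le_right (1 / (16 * P4)) (ε / (((d : ℝ) + n') * (Real.log 2 * (P4 + 4)) + 1))
    have e2 : 0 ≤ ((d : ℝ) + n') * (Real.log 2 * (P4 + 4)) := by positivity
    have e3 := mul_le_mul_of_nonneg_left e1 e2
    have e4 : ((d : ℝ) + n') * (Real.log 2 * (P4 + 4)) *
        (ε / (((d : ℝ) + n') * (Real.log 2 * (P4 + 4)) + 1)) ≤ ε := by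
      rw [mul_div_assoc', div_le_iff₀ (by positivity)]
      nlinarith
    calc _ = ((d : ℝ) + n') * (Real.log 2 * (P4 + 4)) *
        min (1 / (16 * P4)) (ε / (((d : ℝ) + n') * (Real.log 2 * (P4 + 4)) + 1)) := by ring
      _ ≤ _ := e3.trans e4
  have hκ3 : κ ≤ 1 / 16 := by nlinarith
  obtain ⟨η, hη, hηκ⟩ : ∃ η : ℝ, 0 < η ∧ 1000 * ((Sg + Ob + 1) * η) = κ :=
    ⟨κ / (1000 * (Sg + Ob + 1)), by positivity, by field_simp⟩
  have hη1 : η ≤ 1 := by
    have : 0 ≤ (Sg + Ob) * η := by positivity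
    nlinarith
  obtain ⟨ρ, hρ, H⟩ := h η hη
  obtain ⟨ρ', hρ', H'⟩ := hB η hη
  -- the room at `g`
  obtain ⟨R₁, hR₁, hR₁s⟩ := fin_lb (D := d) (f := fun l => 1 - sn l g) fun l hl => by
    linarith [s1 l hl]
  obtain ⟨δ, hδ, k0, k1, k1', k2, k3, k4, k5, k6⟩ : ∃ δ : ℝ, 0 < δ ∧ δ ≤ δ₀ ∧ 4 * δ < ρ ∧
      4 * δ < ρ' ∧ a ≤ g - s - 2 * δ ∧
      g - s + 2 * δ ≤ b ∧ A ≤ g - 8 * δ ∧ 32 * δ ≤ 1 - g ∧ 32 * δ ≤ R₁ := by
    obtain ⟨δ, h1, h2⟩ := list_lb [δ₀, ρ / 5, ρ' / 5, (g - s - a) / 2, (b - (g - s)) / 2,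
      (g - A) / 8, (1 - g) / 32, R₁ / 32] (by
        have x1 : 0 < g - A := by linarith
        have x2 : 0 < g - s - a := by linarith
        have x3 : 0 < b - (g - s) := by linarith
        have x4 : 0 < 1 - g := by linarith
        simp only [List.mem_cons, List.not_mem_nil, or_false, forall_eq_or_imp, forall_eq]
        refine ⟨?_, ?_, ?_, ?_, ?_, ?_, ?_, ?_⟩ <;> positivity)
    simp only [List.mem_cons, List.not_mem_nil, or_false, forall_eq_or_imp, forall_eq] at h2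
    obtain ⟨a1, a2, a3, a4, a5, a6, a7, a8⟩ := h2
    exact ⟨δ, h1, a1, by linarith, by linarith, by linarith, by linarith, by linarith, by linarith,
      by linarith⟩
  have HB := H (4 * δ) (by positivity) k1
  have HK := H' (4 * δ) (by positivity) k1'
  obtain ⟨μ, hμ⟩ : ∃ μ : ℝ, μ = κ * δ := ⟨_, rfl⟩
  have hμ0 : 0 < μ := by rw [hμ]; positivity
  have hPμ : 16 * (P4 * μ) ≤ δ := by
    have := mul_le_mul_of_nonneg_right hκ1 hδ.le
    rw [hμ]
    linarith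
  have hμP : μ ≤ P4 * μ := le_mul_of_one_le_left hμ0.le hP41
  have hμδ : 16 * μ ≤ δ := by linarith
  obtain ⟨E, hE⟩ : ∃ E : ℝ, E = η * (4 * δ) := ⟨_, rfl⟩
  have hE0 : 0 < E := by rw [hE]; positivity
  have hSE : 1000 * ((Sg + Ob + 1) * E) = 4 * μ := by
    rw [hE, hμ, ← hηκ]
    ring
  have hOE : 0 ≤ Ob * E := by positivity
  have hSE0 : 0 ≤ Sg * E := by positivity
  have hE1 : 1000 * E ≤ 4 * μ := by nlinarith
  have hSE' : 1000 * (Sg * E) ≤ 4 * μ := by nlinarith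
  have hOE' : 1000 * (Ob * E) ≤ 4 * μ := by nlinarith
  obtain ⟨x, hx, hxμ⟩ : ∃ x : ℝ, 0 < x ∧ 8 * ((Sg + Ob + 1) * x) = μ :=
    ⟨μ / (8 * (Sg + Ob + 1)), by positivity, by field_simp⟩
  obtain ⟨lam, lam0, lam1⟩ := exists_rat_btwn hx
  obtain ⟨σ₀, σ00, σ01⟩ := exists_rat_btwn (show (0 : ℝ) < μ / 100 by positivity)
  obtain ⟨aq, a1, a2⟩ := exists_rat_btwn (show g - s - 2 * δ < g - s - δ by linarith)
  obtain ⟨bq, b1, b2⟩ := exists_rat_btwn (show g - s + δ < g - s + 2 * δ by linarith)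
  have hlv : ∀ l : Fin d, ∃ q : ℚ, (4 : ℝ) ^ (d - (l : ℕ)) * μ < q ∧
      (q : ℝ) < 4 ^ (d - (l : ℕ)) * μ + μ / 8 :=
    fun l => exists_rat_btwn (by linarith)
  choose lv lv1 lv2 using hlv
  have hN : ∀ l : Fin d, ∃ q : ℚ, sn l g - g + lv l + μ / 2 < q ∧ (q : ℝ) < sn l g - g + lv l + μ :=
    fun l => exists_rat_btwn (by linarith)
  choose N N1 N2 using hN
  have hD : ∀ i : Fin n', ∃ q : ℚ, TB i g - oB i * g + μ / 2 < q ∧
      (q : ℝ) < TB i g - oB i * g + μ :=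
    fun l => exists_rat_btwn (by linarith)
  choose DB D1 D2 using hD
  have hx8 : (Sg + Ob + 1) * x = μ / 8 := by linarith
  have hSx : 0 ≤ Sg * x := by positivity
  have hOx : 0 ≤ Ob * x := by positivity
  have hSl : Sg * lam ≤ μ / 8 := by nlinarith [mul_le_mul_of_nonneg_left lam1.le hSg]
  have hOl : Ob * lam ≤ μ / 8 := by nlinarith [mul_le_mul_of_nonneg_left lam1.le hOb0]
  have hlm : (lam : ℝ) ≤ μ / 8 := by nlinarith
  -- the windows of the charts
  have W : ∀ w : ℚ, (aq : ℝ) < w → (w : ℝ) < bq → whG G A s w ∈ G ∧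
      (w : ℝ) + s - E ≤ whG G A s w ∧ whG G A s w ≤ w + s ∧ g - 3 * δ ≤ whG G A s w ∧
      whG G A s w ≤ g + 3 * δ := by
    intro w h1 h2
    obtain ⟨m1, m2, m3⟩ := bx_fl (A := A) (s := s) hG HB hη1 (by positivity) (by linarith) (w := w)
      (by linarith) (by linarith)
    rw [← hE] at m2
    exact ⟨m1, m2, m3, by linarith, by linarith⟩
  have WM : ∀ w v : ℚ, (aq : ℝ) < w → w ≤ v → (v : ℝ) < bq → whG G A s w ≤ whG G A s v := by
    intro w v h1 h2 h3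
    have h2' : (w : ℝ) ≤ v := by exact_mod_cast h2
    exact bx_mono (A := A) (s := s) HB hη1 (by positivity) (by linarith) (w := w) (by linarith)
      (by linarith) h2
  -- the levels of the chain
  have hsl : ∀ w v : ℚ, (aq : ℝ) < w → w ≤ v → (v : ℝ) < bq → ∀ l < d,
      sn l (whG G A s v) - sn l (whG G A s w) ≤ (whG G A s v - whG G A s w) + E := by
    intro w v h1 h2 h3 l hl
    have h2' : (w : ℝ) ≤ v := by exact_mod_cast h2
    obtain ⟨w1, w2, w3, w4, w5⟩ := W w h1 (by linarith)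
    obtain ⟨v1, v2, v3, v4, v5⟩ := W v (by linarith) h3
    have := (abs_le.1 (HB.sl _ w1 _ v1 (by linarith) (WM w v h1 h2 h3) (by linarith) l hl)).2
    rw [← hE] at this
    linarith
  have hnl : ∀ w : ℚ, (aq : ℝ) < w → (w : ℝ) < bq → ∀ l < d,
      |sn l (whG G A s w) - whG G A s w - (sn l g - g)| ≤ E := by
    intro w h1 h2 l hl
    obtain ⟨w1, w2, w3, w4, w5⟩ := W w h1 h2
    rcases le_total (whG G A s w) g with hle | hle
    · have h4 := abs_le.1 (HB.sl _ w1 _ hgG (by linarith) hle (by linarith) l hl)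
      rw [← hE] at h4
      rw [abs_le]
      constructor <;> linarith [h4.1, h4.2]
    · have h4 := abs_le.1 (HB.sl _ hgG _ w1 (by linarith) hle (by linarith) l hl)
      rw [← hE] at h4
      rw [abs_le]
      constructor <;> linarith [h4.1, h4.2]
  have hnB : ∀ w : ℚ, (aq : ℝ) < w → (w : ℝ) < bq → ∀ i : Fin n',
      |TB i (whG G A s w) - oB i * whG G A s w - (TB i g - oB i * g)| ≤ E := by
    intro w h1 h2 i
    obtain ⟨w1, w2, w3, w4, w5⟩ := W w h1 h2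
    rcases le_total (whG G A s w) g with hle | hle
    · have h4 := abs_le.1 (HK _ w1 _ hgG (by linarith) hle (by linarith) i)
      rw [← hE] at h4
      rw [abs_le]
      constructor <;> linarith [h4.1, h4.2]
    · have h4 := abs_le.1 (HK _ hgG _ w1 (by linarith) hle (by linarith) i)
      rw [← hE] at h4
      rw [abs_le]
      constructor <;> linarith [h4.1, h4.2]
  have hst : ∀ w v : ℚ, (aq : ℝ) < w → w ≤ v → (v : ℝ) < bq → (v : ℝ) < w + lam →
      whG G A s v - whG G A s w ≤ lam + E := by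
    intro w v h1 h2 h3 h4
    have h2' : (w : ℝ) ≤ v := by exact_mod_cast h2
    obtain ⟨w1, w2, w3, w4, w5⟩ := W w h1 (by linarith)
    obtain ⟨v1, v2, v3, v4, v5⟩ := W v (by linarith) h3
    linarith
  have hpw : ∀ l : Fin d, (4 : ℝ) ≤ 4 ^ (d - (l : ℕ)) ∧ (4 : ℝ) ^ (d - (l : ℕ)) ≤ P4 := by
    intro l
    constructor
    · calc (4 : ℝ) = 4 ^ 1 := by norm_num
        _ ≤ _ := pow_le_pow_right₀ (by norm_num) (by omega)
    · rw [hP4]
      exact pow_le_pow_right₀ (by norm_num) (by omega)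
  have hlvb : ∀ l : Fin d, 4 * μ < lv l ∧ (lv l : ℝ) ≤ P4 * μ + μ / 8 := by
    intro l
    have e3 := mul_le_mul_of_nonneg_right (hpw l).1 hμ0.le
    have e4 := mul_le_mul_of_nonneg_right (hpw l).2 hμ0.le
    constructor
    · linarith [lv1 l]
    · linarith [lv2 l]
  have hlvs : ∀ l l' : Fin d, (l' : ℕ) < l → 2 * (lv l : ℝ) + 7 * μ ≤ lv l' := by
    intro l l' hl
    have e1 : (4 : ℝ) * 4 ^ (d - (l : ℕ)) ≤ 4 ^ (d - (l' : ℕ)) := by
      calc (4 : ℝ) * 4 ^ (d - (l : ℕ)) = 4 ^ (d - (l : ℕ) + 1) := by ring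
        _ ≤ _ := pow_le_pow_right₀ (by norm_num) (by omega)
    have e2 := mul_le_mul_of_nonneg_right e1 hμ0.le
    have e3 := mul_le_mul_of_nonneg_right (hpw l).1 hμ0.le
    linarith [lv1 l', lv2 l]
  have hlow : ∀ v : ℚ, (aq : ℝ) < v → (v : ℝ) < bq → ∀ l : Fin d,
      2 * lv l + 3 * δ ≤ 1 - whG G A s v ∧ ∀ l' < d, lv l + 3 * δ ≤ 1 - sn l' (whG G A s v) := by
    intro v h1 h2 l
    obtain ⟨v1, v2, v3, v4, v5⟩ := W v h1 h2
    have e1 := (hlvb l).2
    refine ⟨by linarith, fun l' hl' => ?_⟩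
    have e2 := (abs_le.1 (hnl v h1 h2 l' hl')).2
    have e3 := hR₁s l' hl'
    linarith
  refine ⟨δ, hδ, k0, ⟨N, DB, lv, σ₀, aq, bq, lam⟩, ⟨⟨⟨by exact_mod_cast σ00, fun l hl => ?_,
    fun v h1 h2 l hl => ⟨?_, ?_, fun l' hl' => ?_⟩, fun v h1 h2 l hl => ?_,
    fun w v h1 h2 h3 h4 l hl => ?_, fun w v h1 h2 h3 h4 l hl => ?_,
    fun w v h1 h2 h3 h4 l hl l' hl' => ?_, fun w v h1 h2 h3 h4 l hl l' hl' => ?_⟩,
    fun v h1 h2 => ?_⟩,
    ⟨fun i w o h1 h2 h3 h4 => ?_, fun i w o h1 h2 h3 h4 l hl => ?_⟩,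
    ⟨fun i w h1 h2 => ?_, fun i w v h1 h2 h3 h4 => ?_, fun i w v h1 h2 h3 h4 l hl => ?_⟩,
    by exact_mod_cast lam0,
    by simp only; linarith, by simp only; linarith⟩, a2, b1, by simp only; linarith,
    fun w h1 h2 => ?_⟩
  · simp only [exN_lt _ hl]
    linarith [(hlvb ⟨l, hl⟩).1]
  · simp only [exN_lt _ hl] at *
    have := (hlow v h1 h2 ⟨l, hl⟩).2 l hl
    linarith
  · simp only [exN_lt _ hl] at *
    have := (hlow v h1 h2 ⟨l, hl⟩).1
    linarith [(hlvb ⟨l, hl⟩).1]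
  · simp only [exN_lt _ hl] at *
    have := (hlow v h1 h2 ⟨l, hl⟩).2 l' (by omega)
    linarith
  · simp only [exN_lt _ hl] at *
    have e1 := (abs_le.1 (hnl v h1 h2 l hl)).2
    have e2 := N1 ⟨l, hl⟩
    simp only at e2
    linarith
  · simp only [exN_lt _ hl] at *
    have e1 := hsl w v h1 h2 h3 l hl
    have e2 := hst w v h1 h2 h3 h4
    have e3 := (hlow v (by have : (w : ℝ) ≤ v := by exact_mod_cast h2
                           linarith) h3 ⟨l, hl⟩).1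
    linarith [(hlvb ⟨l, hl⟩).1]
  · simp only [exN_lt _ hl] at *
    have h2' : (w : ℝ) ≤ v := by exact_mod_cast h2
    have e1 := (abs_le.1 (hnl w h1 (by linarith) l hl)).1
    have e2 := hst w v h1 h2 h3 h4
    have e3 := (hlow v (by linarith) h3 ⟨l, hl⟩).1
    have e4 := N2 ⟨l, hl⟩
    simp only at e4
    linarith [(hlvb ⟨l, hl⟩).1]
  · have hl'd : l' < d := by omega
    simp only [exN_lt _ hl, exN_lt _ hl'd] at *
    have e1 := hsl w v h1 h2 h3 l hl
    have e2 := hst w v h1 h2 h3 h4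
    have e3 := hlvs ⟨l, hl⟩ ⟨l', hl'd⟩ hl'
    linarith [(hlvb ⟨l, hl⟩).1]
  · have hl'd : l' < d := by omega
    simp only [exN_lt _ hl, exN_lt _ hl'd] at *
    have h2' : (w : ℝ) ≤ v := by exact_mod_cast h2
    have e1 := (abs_le.1 (hnl w h1 (by linarith) l hl)).1
    have e2 := hst w v h1 h2 h3 h4
    have e3 := hlvs ⟨l, hl⟩ ⟨l', hl'd⟩ hl'
    have e4 := N2 ⟨l, hl⟩
    simp only at e4
    linarith [(hlvb ⟨l, hl⟩).1]
  · -- the earlier windows
    obtain ⟨v1, v2, v3, v4, v5⟩ := W v h1 h2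
    have hl0 : ∀ l < d, 0 < exN lv l ∧ exN lv l ≤ P4 * μ + μ / 8 := fun l hl => by
      rw [exN_lt _ hl]
      exact ⟨by linarith [(hlvb ⟨l, hl⟩).1], (hlvb ⟨l, hl⟩).2⟩
    refine hi_of HB (by rw [← hE]; exact hE0.le) (by exact_mod_cast σ00)
      (fun l hl w hw hwv => mn l hl w hw _ v1 hwv) (fun l hl => (hl0 l hl).1) v1 (by linarith)
      (fun l hl => ?_) (fun l hl => ?_) (fun l hl l' hl' => ?_)
    · rw [← hE]
      linarith [(hl0 l hl).2]
    · rw [← hE, exN_lt _ hl]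
      linarith [(hlow v h1 h2 ⟨l, hl⟩).1]
    · have hl'd : l' < d := by omega
      rw [← hE, exN_lt _ hl, exN_lt _ hl'd]
      linarith [hlvs ⟨l, hl⟩ ⟨l', hl'd⟩ hl']
  · have h2' : (w : ℝ) ≤ o := by exact_mod_cast h2
    obtain ⟨w1, w2, w3, w4, w5⟩ := W w h1 (by linarith)
    obtain ⟨v1, v2, v3, v4, v5⟩ := W o (by linarith) h3
    have e1 := HB.tg _ w1 _ v1 (by linarith) (WM w o h1 h2 h3) (by linarith) i
    rw [← hE] at e1
    have e2 := hst w o h1 h2 h3 h4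
    have e3 := mul_le_mul_of_nonneg_left e2 hSg
    have e4 : Sg * (lam + E) = Sg * lam + Sg * E := by ring
    simp only at *
    linarith
  · simp only [exN_lt _ hl] at *
    have h2' : (w : ℝ) ≤ o := by exact_mod_cast h2
    obtain ⟨w1, w2, w3, w4, w5⟩ := W w h1 (by linarith)
    obtain ⟨v1, v2, v3, v4, v5⟩ := W o (by linarith) h3
    have e1 := HB.tg _ w1 _ v1 (by linarith) (WM w o h1 h2 h3) (by linarith) i
    rw [← hE] at e1
    have e2 := hst w o h1 h2 h3 h4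
    have e3 := mul_le_mul_of_nonneg_left e2 hSg
    have e4 : Sg * (lam + E) = Sg * lam + Sg * E := by ring
    have e5 := (hlvb ⟨l, hl⟩).1
    linarith
  · have e1 := (abs_le.1 (hnB w h1 h2 i)).2
    have e2 := D1 i
    simp only [EIxJ.DB]
    linarith
  · have h2' : (w : ℝ) ≤ v := by exact_mod_cast h2
    obtain ⟨v1, v2, v3, v4, v5⟩ := W v (by linarith) h3
    have e1 := (abs_le.1 (hnB w h1 (by linarith) i)).1
    have e2 := D2 i
    have e3 := hst w v h1 h2 h3 h4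
    have e4 : (oB i : ℝ) * (whG G A s v - whG G A s w) ≤ Ob * (lam + E) := by
      have h5 : (oB i : ℝ) * (whG G A s v - whG G A s w) ≤ oB i * (lam + E) :=
        mul_le_mul_of_nonneg_left e3 (Nat.cast_nonneg _)
      have h6 : (oB i : ℝ) * (lam + E) ≤ Ob * (lam + E) :=
        mul_le_mul_of_nonneg_right (hOb i) (by linarith)
      exact h5.trans h6
    have e5 : Ob * (lam + E) = Ob * lam + Ob * E := by ring
    simp only [EIxJ.DB]
    linarith
  · simp only [exN_lt _ hl] at *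
    have h2' : (w : ℝ) ≤ v := by exact_mod_cast h2
    obtain ⟨v1, v2, v3, v4, v5⟩ := W v (by linarith) h3
    have e1 := (abs_le.1 (hnB w h1 (by linarith) i)).1
    have e2 := D2 i
    have e3 := hst w v h1 h2 h3 h4
    have e4 : (oB i : ℝ) * (whG G A s v - whG G A s w) ≤ Ob * (lam + E) := by
      have h5 : (oB i : ℝ) * (whG G A s v - whG G A s w) ≤ oB i * (lam + E) :=
        mul_le_mul_of_nonneg_left e3 (Nat.cast_nonneg _)
      have h6 : (oB i : ℝ) * (lam + E) ≤ Ob * (lam + E) :=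
        mul_le_mul_of_nonneg_right (hOb i) (by linarith)
      exact h5.trans h6
    have e5 : Ob * (lam + E) = Ob * lam + Ob * E := by ring
    have e6 := (hlvb ⟨l, hl⟩).1
    simp only [EIxJ.DB]
    linarith
  · have e1 : ∀ l : Fin d, Real.log 2 * (exN N l - (sn l (whG G A s w) - whG G A s w)) ≤
        Real.log 2 * ((P4 + 4) * μ) := by
      intro l
      refine mul_le_mul_of_nonneg_left ?_ hl2.le
      rw [exN_lt _ l.2]
      have e2 := (abs_le.1 (hnl w (by exact_mod_cast h1) (by exact_mod_cast h2) l l.2)).1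
      have e3 := (hlvb l).2
      have e4 := N2 l
      have e5 : (⟨(l : ℕ), l.2⟩ : Fin d) = l := rfl
      rw [e5]
      linarith
    have e1' : ∀ j : Fin n', Real.log 2 * (EIxJ.DB ⟨N, DB, lv, σ₀, aq, bq, lam⟩ j -
        (TB j (whG G A s w) - oB j * whG G A s w)) ≤ Real.log 2 * ((P4 + 4) * μ) := by
      intro j
      refine mul_le_mul_of_nonneg_left ?_ hl2.le
      have e2 := (abs_le.1 (hnB w (by exact_mod_cast h1) (by exact_mod_cast h2) j)).1
      have e4 := D2 j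
      simp only [EIxJ.DB]
      linarith
    refine (add_le_add (Finset.sum_le_sum fun l _ => e1 l)
      (Finset.sum_le_sum fun j _ => e1' j)).trans ?_
    rw [Finset.sum_const, Finset.card_univ, Fintype.card_fin, nsmul_eq_mul, Finset.sum_const,
      Finset.card_univ, Fintype.card_fin, nsmul_eq_mul, hμ]
    have e6 : (d : ℝ) * (Real.log 2 * ((P4 + 4) * (κ * δ))) +
        n' * (Real.log 2 * ((P4 + 4) * (κ * δ))) =
        (((d : ℝ) + n') * (Real.log 2 * ((P4 + 4) * κ))) * δ := by ring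
    rw [e6]
    exact mul_le_mul_of_nonneg_right hκ2 hδ.le

end

end Pool.LPJ30
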