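import Pool.Agent.H30.LP.Nia
import Pool.Agent.H96.AVG.Fam

/-!
# Jets of all orders over the charts of a chain

`HiW`: earlier windows at which the jets of order at least two of the chain are natural. `few_vpg`:
all jets of the chain over the charts of a window from the jets of order `0` and `1`. `few_tgQ`:
change of the charts for a jet of any order of a coordinate over the chain.
-/

set_option autoImplicit false

namespace Pool.LPJ30

open Finset Real MvPolynomial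
open Pool.Agent.H49.Ent Pool.Agent.H32.Dense Pool.STK Pool.KA Pool.KSAT Pool.K2S Pool.PB Pool.S6C
  Pool.GEN Pool.RCD Pool.LA91
open Pool.AVG96 (few_cut)
open Pool.LP30

variable {m : ℕ} {U U' : Type} {α β γ : ∀ J : ℕ, Fam m J → Type}
  {f : ∀ (J : ℕ) (F : Fam m J), F.Ω → α J F} {g : ∀ (J : ℕ) (F : Fam m J), F.Ω → β J F}
  {y : ∀ (J : ℕ) (F : Fam m J), F.Ω → γ J F} {S : PCl m}

/-- **Earlier windows** at which the jets of order at least two are natural, to the digits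
`sn l v + lv l`. -/
structure HiW (sn : ℕ → ℝ → ℝ) (d : ℕ) (lv : ℕ → ℝ) (σ₀ : ℝ) (G : Set ℝ) (v : ℝ) : Prop where
  room : ∀ l < d, lv l + σ₀ ≤ 1 - v
  ex : ∀ l < d, ∃ v₀ ∈ G, v₀ ≤ v ∧ sn l v₀ ≤ sn l v ∧
    sn l v + lv l + 2 * σ₀ ≤ sn l v₀ + 2 * (v - v₀) ∧
    sn l v + lv l + 2 * σ₀ ≤ sn l v₀ + (1 - v) ∧
    ∀ l' < l, sn l v + lv l + 2 * σ₀ ≤ sn l v₀ + lv l'

/-- All jets of the first `i` places of the chain up to the order `D`, charts of `v`. -/
noncomputable def vpQ (m : ℕ) (c : ℕ → Fin m) (sn : ℕ → ℝ → ℝ) (lv : ℕ → ℝ) (σ₀ v : ℝ)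
    (i D : ℕ) : Qt m (ℕ → ℕ → ℤ) :=
  qJets m c 0 i D (fun _ _ => v) (fun l _ => sn l v) (fun l j' => sn l v + lv l + σ₀ - (j' : ℕ) * v)

/-- Forget the first factor of the condition. -/
theorem few_sndQ
    (hpos : ∀ (τ : ℝ) (J : ℕ) (F : Fam m J) (A : F.Ω → Prop), S.St τ J F A → 0 < Pe F.p A)
    {V : Type} {Q₀ : Qt m V} {Q : Qt m U} {Q' : Qt m U'} (h : Few S f g y Q Q') :
    Few S f g y (Q₀.prod Q) Q' :=
  Few.pre hpos (fun u : V × U => u.2) (fun _ _ _ _ _ _ hu => hu.2) h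

/-- Forget the second factor of the condition. -/
theorem few_fstQ
    (hpos : ∀ (τ : ℝ) (J : ℕ) (F : Fam m J) (A : F.Ω → Prop), S.St τ J F A → 0 < Pe F.p A)
    {V : Type} {Q₀ : Qt m V} {Q : Qt m U} {Q' : Qt m U'} (h : Few S f g y Q Q') :
    Few S f g y (Q.prod Q₀) Q' :=
  Few.pre hpos (fun u : U × V => u.1) (fun _ _ _ _ _ _ hu => hu.1) h

section

variable {c : ℕ → Fin m} {d : ℕ} {sn : ℕ → ℝ → ℝ} {G : Set ℝ} {v σ₀ : ℝ} {lv : ℕ → ℝ}

theorem HiW.dec (h : HiW sn d lv σ₀ G v) (hσ : 0 < σ₀) {l l' : ℕ} (hl : l < d) (hl' : l' < l) :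
    lv l + σ₀ ≤ lv l' := by
  obtain ⟨v₀, -, -, h2, -, -, h5⟩ := h.ex l hl
  linarith [h5 l' hl']

theorem exs_vp (hW : ChG S c d sn G) (av : v ∈ G) {i : ℕ} (hi : i ≤ d) (D : ℕ) :
    Exs S (vpQ m c sn lv σ₀ v i D) := by
  obtain ⟨u₁, rd, hrd, hch⟩ := hW.ch v av
  exact exs_qjets fun l l0 l1 j' _ => exs_jet (hrd l (by omega)) (hch.att l l0 (by omega))

/-- **Change of the charts** for a jet of any order over the first `i` places. -/
theorem few_tgV {C₀ : ℝ} (htm : TmC S C₀)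
    (hW : ChG S c d sn G)
    (hf : ∀ (J : ℕ) (F : Fam m J), ∃ φ : α J F → PtT F, ∀ ω, ptr F J ω = φ (f J F ω))
    (hy : Kn ((range 0).image c) 1 1 y) (av : v ∈ G) (hσ : 0 < σ₀) (hlv : ∀ l < d, 0 < lv l)
    (hi : HiW sn d lv σ₀ G v) {i : ℕ} (hid : i ≤ d) {j : ℕ} {k : Fin m}
    {w₁ w₂ p₁ p₂ N₁ N₂ : ℝ} (h1 : w₁ ≤ v) (h2 : w₂ ≤ v) (hN : N₂ ≤ N₁)
    (t1 : N₂ + j * v + σ₀ ≤ min p₁ p₂ + (1 - v))
    (t2 : ∀ l < i, N₂ + j * v + σ₀ ≤ min p₁ p₂ + lv l) :
    Few S f (vg v) y ((vpQ m c sn lv σ₀ v i j).prod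
      (qJet m ((range i).image c) k j w₁ p₁ N₁)) (qJet m ((range i).image c) k j w₂ p₂ N₂) := by
  obtain ⟨u₁, rd, hrd, hch⟩ := hW.ch v av
  have e0 : min (1 : ℝ) (1 - v) = 1 - v := min_eq_right (by linarith [hch.w0])
  refine few_jetN (f := f) (y := y) htm (hch.take (Nat.zero_le i) hid) (k := k) (j := j)
    (wv := fun _ _ => v) (pv := fun l _ => sn l v)
    (Nv := fun l j' => sn l v + lv l + σ₀ - (j' : ℕ) * v) (lv := lv)
    (w₁ := w₁) (w₂ := w₂) (p₁ := p₁) (p₂ := p₂) (N₁ := N₁) (N₂ := N₂) (p₀ := 1) (lam := 1)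
    (σ₀ := σ₀) (fun _ _ _ _ _ => le_rfl) h1 h2 hch.u0 le_rfl one_pos hσ
    (fun l _ hl => hlv l (by omega)) (fun l _ hl j' hj' => ?_) (fun l _ hl j' hj' => ?_)
    (fun l _ hl j' hj' l' _ hl' => ?_) hN ?_ (fun l _ hl => t2 l hl) hf hy
  · linarith
  · rw [e0, min_self]
    linarith [hi.room l (by omega)]
  · rw [min_self]
    linarith [hi.dec hσ (by omega : l < d) hl']
  · rw [e0]
    exact t1

/-- **All jets of the chain** over the charts of `v`, from the orders `0` and `1`. -/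
theorem few_vpg {C₀ : ℝ} (htm : TmC S C₀)
    (hpos : ∀ (τ : ℝ) (J : ℕ) (F : Fam m J) (A : F.Ω → Prop), S.St τ J F A → 0 < Pe F.p A)
    (hW : ChG S c d sn G)
    (hf : ∀ (J : ℕ) (F : Fam m J), ∃ φ : α J F → PtT F, ∀ ω, ptr F J ω = φ (f J F ω))
    (hy : Kn ((range 0).image c) 1 1 y) (av : v ∈ G) (hσ : 0 < σ₀) (hlv : ∀ l < d, 0 < lv l)
    (hi : HiW sn d lv σ₀ G v) {Q : Qt m U}
    (h0 : ∀ l < d, Few S f (vg v) y Q
      (qJet m ((range l).image c) (c l) 0 v (sn l v) (sn l v + lv l + σ₀)))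
    (h1 : ∀ l < d, Few S f (vg v) y Q
      (qJet m ((range l).image c) (c l) 1 v (sn l v) (sn l v + lv l + σ₀ - v))) :
    ∀ i ≤ d, ∀ D : ℕ, Few S f (vg v) y Q (vpQ m c sn lv σ₀ v i D) := by
  have key : ∀ i ≤ d, ∀ l < i, ∀ j : ℕ, Few S f (vg v) y Q
      (qJet m ((range l).image c) (c l) j v (sn l v) (sn l v + lv l + σ₀ - (j : ℕ) * v)) := by
    intro i
    induction i with
    | zero => exact fun _ l hl => absurd hl (Nat.not_lt_zero l)
    | succ i ih =>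
      intro hi' l hl j
      have ih := ih (by omega)
      rcases Nat.lt_or_ge l i with h7 | h7
      · exact ih l h7 j
      · obtain rfl : l = i := by omega
        rcases Nat.lt_or_ge j 2 with hj | hj
        · rcases Nat.eq_zero_or_pos j with rfl | hj0
          · simp only [Nat.cast_zero, zero_mul, sub_zero]
            exact h0 l (by omega)
          · obtain rfl : j = 1 := by omega
            simp only [Nat.cast_one, one_mul]
            exact h1 l (by omega)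
        · obtain ⟨v₀, g0, g1, g2, g3, g4, g5⟩ := hi.ex l (by omega)
          obtain ⟨u₁, rd, hrd, hch⟩ := hW.ch v₀ g0
          obtain ⟨u₂, rd₂, hrd₂, hch₂⟩ := hW.ch v av
          have hvp : Few S f (vg v) y Q (vpQ m c sn lv σ₀ v l j) :=
            few_qjets hpos fun l' _ hl' j' _ => ih l' hl' j'
          refine few_cut hpos (exs_vp hW av (by omega) j) hvp ?_
          refine few_sndQ hpos (few0_cut hpos
            (exs_jet (N := sn l v + lv l + σ₀ - (j : ℕ) * v) (j := j) (hrd l (by omega))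
              (hch.att l (Nat.zero_le l) (by omega)))
            (few0_jet htm hch.w0 hch.u0 ?_ _ _ _)
            (few_tgV htm hW hf hy av hσ hlv hi (by omega) g1 le_rfl le_rfl ?_ ?_))
          · have g6 : (2 : ℝ) ≤ j := by exact_mod_cast hj
            have g7 : 2 * (v - v₀) ≤ j * (v - v₀) :=
              mul_le_mul_of_nonneg_right g6 (by linarith)
            linarith
          · rw [min_eq_left g2]
            linarith
          · intro l' hl'
            rw [min_eq_left g2]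
            linarith [g5 l' hl']
  exact fun i hi' D => few_qjets hpos fun l _ hl j' _ => key i hi' l hl j'

/-- **Change of the charts** for a jet of any order of a coordinate over the chain, the jets of the
chain are known. -/
theorem few_tgQ {C₀ : ℝ} (htm : TmC S C₀)
    (hpos : ∀ (τ : ℝ) (J : ℕ) (F : Fam m J) (A : F.Ω → Prop), S.St τ J F A → 0 < Pe F.p A)
    (hW : ChG S c d sn G)
    (hf : ∀ (J : ℕ) (F : Fam m J), ∃ φ : α J F → PtT F, ∀ ω, ptr F J ω = φ (f J F ω))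
    (hy : Kn ((range 0).image c) 1 1 y) (av : v ∈ G) (hσ : 0 < σ₀) (hlv : ∀ l < d, 0 < lv l)
    (hi : HiW sn d lv σ₀ G v) {Q : Qt m U} {j : ℕ}
    (hQ : Few S f (vg v) y Q (vpQ m c sn lv σ₀ v d j)) {k : Fin m}
    {w₁ w₂ p₁ p₂ N₁ N₂ : ℝ} (h1 : w₁ ≤ v) (h2 : w₂ ≤ v) (hN : N₂ ≤ N₁)
    (t1 : N₂ + j * v + σ₀ ≤ min p₁ p₂ + (1 - v))
    (t2 : ∀ l < d, N₂ + j * v + σ₀ ≤ min p₁ p₂ + lv l) :
    Few S f (vg v) y (Q.prod
      (qJet m ((range d).image c) k j w₁ p₁ N₁)) (qJet m ((range d).image c) k j w₂ p₂ N₂) := by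
  refine few_cut hpos (exs_vp hW av le_rfl j) (few_fstQ hpos hQ) ?_
  refine Few.pre hpos (fun u : (U × ℤ) × (ℕ → ℕ → ℤ) => (u.2, u.1.2)) ?_
    (few_tgV htm hW hf hy av hσ hlv hi le_rfl h1 h2 hN t1 t2)
  intro K e J F A u hu
  exact ⟨hu.2, hu.1.2⟩

end

end Pool.LPJ30
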