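import Pool.Agent.H30.LPJ.Hi

/-!
# Jets of all orders of the targets, the exact positions of the chain are known

`jtQ`: jets of coordinates over the whole chain, charts of an index. `few_vpX`: all jets of the chain
from the exact positions and the velocities to `N l` digits. `JtP`: the digits `P i o` of the jets of
the first kind; `BdB`: the digits of the jets of the second kind. `rel_J`: the jets of the first kind
are a relative family over the velocities of the chain and the jets of the second kind. `J_anti`: the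
number of the condition decreases. `J_le`: it is at most the number of digits.
-/

set_option autoImplicit false

namespace Pool.LPJ30

open Finset Real MvPolynomial
open Pool.Agent.H49.Ent Pool.Agent.H32.Dense Pool.STK Pool.KA Pool.KSAT Pool.K2S Pool.PB Pool.S6C
  Pool.GEN Pool.RCD Pool.LA91
open Pool.OWN83 (TwoRelS TRelS)
open Pool.AVG96 (few_cut)
open Pool.LP30

variable {m : ℕ} {U U' : Type} {α β γ : ∀ J : ℕ, Fam m J → Type}
  {f : ∀ (J : ℕ) (F : Fam m J), F.Ω → α J F} {g : ∀ (J : ℕ) (F : Fam m J), F.Ω → β J F}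
  {y : ∀ (J : ℕ) (F : Fam m J), F.Ω → γ J F} {S : PCl m}

/-- **Jets of coordinates over the whole chain**: orders `od i`, charts of the index `w`, digits
`D i`. -/
noncomputable def jtQ (m : ℕ) (c : ℕ → Fin m) (d : ℕ) {n : ℕ} (k : Fin n → Fin m)
    (od : Fin n → ℕ) (wh : ℚ → ℝ) (tl : Fin n → ℚ → ℝ) (D : Fin n → ℝ) (w : ℚ) :
    Qt m (Fin n → ℤ) :=
  Qt.pi fun i : Fin n => qJet m ((range d).image c) (k i) (od i) (wh w) (tl i w) (D i)

/-- The digits of the velocities of the chain and the earlier windows. -/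
structure EdJ (wh : ℚ → ℝ) (sn : ℕ → ℝ → ℝ) (d : ℕ) (N lv : ℕ → ℝ) (σ₀ a b lam : ℝ)
    (G : Set ℝ) : Prop where
  ed : EdS wh sn d N lv σ₀ a b lam
  hi : ∀ v : ℚ, a < v → (v : ℝ) < b → HiW sn d lv σ₀ G (wh v)

/-- **The digits of the jets of the first kind.** -/
structure JtP (wh : ℚ → ℝ) (a b : ℝ) {n : ℕ} (od : Fin n → ℕ) (tl : Fin n → ℚ → ℝ)
    (P : Fin n → ℚ → ℝ) : Prop where
  mono : ∀ i, ∀ w v : ℚ, a < w → w ≤ v → (v : ℝ) < b → P i w ≤ P i v
  le : ∀ i, ∀ w : ℚ, a < w → (w : ℝ) < b → P i w + od i * wh w ≤ tl i w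

/-- **The digits of the jets of the second kind.** -/
structure BdB (wh : ℚ → ℝ) (d : ℕ) (lv : ℕ → ℝ) (σ₀ a b lam : ℝ) {n : ℕ} (od : Fin n → ℕ)
    (tl : Fin n → ℚ → ℝ) (D : Fin n → ℝ) : Prop where
  nat : ∀ i, ∀ w : ℚ, a < w → (w : ℝ) < b → tl i w + σ₀ ≤ D i + od i * wh w
  t1 : ∀ i, ∀ w v : ℚ, a < w → w ≤ v → (v : ℝ) < b → (v : ℝ) < w + lam →
    D i + od i * wh v + σ₀ ≤ tl i w + (1 - wh v)
  t2 : ∀ i, ∀ w v : ℚ, a < w → w ≤ v → (v : ℝ) < b → (v : ℝ) < w + lam → ∀ l < d,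
    D i + od i * wh v + σ₀ ≤ tl i w + lv l

section

variable {c : ℕ → Fin m} {d : ℕ} {s a b lam : ℝ} {wh : ℚ → ℝ} {sn : ℕ → ℝ → ℝ} {G : Set ℝ}
  {N lv : ℕ → ℝ} {σ₀ : ℝ}

/-- The jets exist. -/
theorem exs_jt {n : ℕ} {k : Fin n → Fin m} {tl : Fin n → ℚ → ℝ} (h : TgC S c d wh a b k tl)
    (od : Fin n → ℕ) {w : ℚ} (hw : a < w) (hwb : (w : ℝ) < b) (D : Fin n → ℝ) :
    Exs S (jtQ m c d k od wh tl D w) :=
  exs_pi fun i => by
    obtain ⟨rk, h1, h2⟩ := h.att i w hw hwb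
    exact exs_jet h1 h2

/-- **All jets of the chain** over the charts of `v`, the exact positions are known. -/
theorem few_vpX (h : VCh S f y c d s a b wh sn G) (hE : EdJ wh sn d N lv σ₀ a b lam G)
    {w v : ℚ} (hw : a < w) (h1 : w ≤ v) (hv : (v : ℝ) < b) (l1 : (v : ℝ) < w + lam) (D : ℕ) :
    Few S f (vg (wh v)) y (vlQ m c d wh sn N w) (vpQ m c sn lv σ₀ (wh v) d D) := by
  have h1' : (w : ℝ) ≤ v := by exact_mod_cast h1
  have hva : a < v := by linarith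
  have hm1 := h.wm w v hw h1 hv
  obtain ⟨C₀, htm⟩ := h.tm
  obtain ⟨hG, -⟩ := h.wg v hva hv
  obtain ⟨u₁, rd, hrd, hch⟩ := h.ch.ch _ hG
  have hr0 : (0 : ℝ) ≤ d := Nat.cast_nonneg d
  have hσ := hE.ed.σ0
  obtain ⟨φ, hφ, hφ0⟩ : ∃ φ : ℝ, 20 * ((d : ℝ) + 1) * φ = σ₀ ∧ 0 < φ := by
    refine ⟨σ₀ / (20 * ((d : ℝ) + 1)), ?_, by positivity⟩
    field_simp
  refine few_vpg htm h.pos h.ch h.pt h.kn hG hσ hE.ed.lv0 (hE.hi v hva hv) (fun l hl => ?_)
    (fun l hl => ?_) d le_rfl D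
  · refine Few0.few h.pos (few0_ofPos h.pos (r := l + 1) (by omega) h.kx
      (few_posJ htm h.pos h.pt h.kn hch hφ0 (n := fun l => sn l (wh v) + lv l + σ₀)
        (p := fun l => sn l (wh v)) ⟨fun i hi => ?_, fun i hi => ?_, fun i hi => ?_,
          fun i hi => ?_, fun i hi l hl => ?_⟩ hl))
    · linarith
    · linarith [hE.ed.lv0 i hi]
    · linarith [(hE.ed.room v hva hv i hi).1]
    · linarith [(hE.ed.room v hva hv i hi).2.1]
    · linarith [(hE.ed.room v hva hv i hi).2.2 l hl]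
  · refine Few.pre h.pos
      (fun (u : Fin d → ℤ) => ((fun l' : Fin l => u ⟨l', by have := l'.2; omega⟩), u ⟨l, hl⟩)) ?_
      (few_tgX htm h.pos h.ch h.pt h.kn h.kx hG hm1 hl.le (k := c l)
        (w₂ := wh w) (w₃ := wh v) (p₂ := sn l (wh w)) (p₃ := sn l (wh v)) (N₁ := N l)
        (N₂ := sn l (wh v) + lv l + σ₀ - wh v) hm1 le_rfl (N := N) (lv := lv) hσ
        (fun l' hl' => hE.ed.lv0 l' (by omega))
        (fun l' hl' => hE.ed.room v hva hv l' (by omega))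
        (fun l' hl' => hE.ed.nat v hva hv l' (by omega))
        (fun l' hl' => ?_) (fun l' hl' l'' hl'' => ?_) ?_ ?_ (fun l' hl' => ?_))
    · intro K e J F A u hu
      exact ⟨fun l' => hu ⟨l', by have := l'.2; omega⟩, hu ⟨l, hl⟩⟩
    · rw [min_eq_left (h.mn l' (by omega) w v hw h1 hv)]
      exact hE.ed.r1 w v hw h1 hv l1 l' (by omega)
    · rw [min_eq_left (h.mn l' (by omega) w v hw h1 hv)]
      exact hE.ed.s1 w v hw h1 hv l1 l' (by omega) l'' hl''
    · linarith [hE.ed.nat v hva hv l hl]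
    · rw [min_eq_left (h.mn l hl w v hw h1 hv)]
      linarith [hE.ed.nat v hva hv l hl, hE.ed.r2 w v hw h1 hv l1 l hl]
    · rw [min_eq_left (h.mn l hl w v hw h1 hv)]
      linarith [hE.ed.nat v hva hv l hl, hE.ed.s2 w v hw h1 hv l1 l hl l' hl']

/-- **Change of the charts for a jet of a target**, between two windows `w₂, w₃ ≤ v`. -/
theorem few_tgj (h : VCh S f y c d s a b wh sn G) (hE : EdJ wh sn d N lv σ₀ a b lam G)
    {w w₂ w₃ v : ℚ} (hw : a < w) (hw₂ : a < w₂) (hw₃ : a < w₃)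
    (h1 : w ≤ v) (h2 : w₂ ≤ v) (h3 : w₃ ≤ v) (hv : (v : ℝ) < b) (l1 : (v : ℝ) < w + lam)
    {k : Fin m} {j : ℕ} {p₂ p₃ N₁ N₂ : ℝ} (hN : N₂ ≤ N₁)
    (t1 : N₂ + j * wh v + σ₀ ≤ min p₂ p₃ + (1 - wh v))
    (t2 : ∀ l < d, N₂ + j * wh v + σ₀ ≤ min p₂ p₃ + lv l) :
    Few S f (vg (wh v)) y ((vlQ m c d wh sn N w).prod
      (qJet m ((range d).image c) k j (wh w₂) p₂ N₁))
      (qJet m ((range d).image c) k j (wh w₃) p₃ N₂) := by
  have h1' : (w : ℝ) ≤ v := by exact_mod_cast h1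
  have hva : a < v := by linarith
  obtain ⟨C₀, htm⟩ := h.tm
  exact few_tgQ htm h.pos h.ch h.pt h.kn (h.wg v hva hv).1 hE.ed.σ0 hE.ed.lv0 (hE.hi v hva hv)
    (few_vpX h hE hw h1 hv l1 j) (h.wm w₂ v hw₂ h2 hv) (h.wm w₃ v hw₃ h3 hv) hN t1 t2

/-- The condition: the velocities of the chain and the jets of the second kind. -/
noncomputable def cdQ (m : ℕ) (c : ℕ → Fin m) (d : ℕ) (wh : ℚ → ℝ) (sn : ℕ → ℝ → ℝ)
    (N : ℕ → ℝ) {n : ℕ} (k : Fin n → Fin m) (od : Fin n → ℕ) (tl : Fin n → ℚ → ℝ)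
    (D : Fin n → ℝ) (w : ℚ) : Qt m ((Fin d → ℤ) × (Fin n → ℤ)) :=
  (vlQ m c d wh sn N w).prod (jtQ m c d k od wh tl D w)

theorem tg_mono {n : ℕ} {k : Fin n → Fin m} {tl : Fin n → ℚ → ℝ}
    (h : VCh S f y c d s a b wh sn G) (hT : TgC S c d wh a b k tl) (i : Fin n) (w v : ℚ)
    (e1 : a < w) (e2 : w ≤ v) (e3 : (v : ℝ) < b) : tl i w ≤ tl i v := by
  linarith [hT.mono i w v e1 e2 e3, h.wm w v e1 e2 e3]

/-- The condition exists. -/
theorem exs_cd (h : VCh S f y c d s a b wh sn G) {n' : ℕ} {kB : Fin n' → Fin m}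
    {tB : Fin n' → ℚ → ℝ} (hB : TgC S c d wh a b kB tB) (oB : Fin n' → ℕ) (DB : Fin n' → ℝ)
    {w : ℚ} (hw : a < w) (hwb : (w : ℝ) < b) :
    Exs S (cdQ m c d wh sn N kB oB tB DB w) :=
  (exs_vl h hw hwb N).prod (exs_jt hB oB hw hwb DB)

/-- **Change of the charts of the condition**, between two windows `w₁, w₂ ≤ v`. -/
theorem few_cd (h : VCh S f y c d s a b wh sn G) (hE : EdJ wh sn d N lv σ₀ a b lam G) {n' : ℕ}
    {kB : Fin n' → Fin m} {oB : Fin n' → ℕ} {tB : Fin n' → ℚ → ℝ} {DB : Fin n' → ℝ}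
    (hD : BdB wh d lv σ₀ a b lam oB tB DB) {w₁ w₂ v : ℚ}
    (hw₁ : a < w₁) (hw₂ : a < w₂)
    (h1 : w₁ ≤ v) (h2 : w₂ ≤ v) (hv : (v : ℝ) < b) (l1 : (v : ℝ) < w₁ + lam)
    (l2 : (v : ℝ) < w₂ + lam) {D' : Fin n' → ℝ} (hD' : ∀ i, D' i ≤ DB i) :
    Few S f (vg (wh v)) y (cdQ m c d wh sn N kB oB tB DB w₁) (cdQ m c d wh sn N kB oB tB D' w₂) := by
  refine Few.pair h.pos (few_fstQ h.pos (few_vl h hE.ed hw₁ hw₂ h1 h2 hv l1 l2 fun _ _ => le_rfl))
    (few_pi h.pos fun i => Few.pre h.pos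
      (fun (u : (Fin d → ℤ) × (Fin n' → ℤ)) => (u.1, u.2 i))
      (fun K e J F A u hu => by exact ⟨hu.1, hu.2 i⟩)
      (few_tgj h hE hw₁ hw₁ hw₂ h1 h1 h2 hv l1
        (p₂ := tB i w₁) (p₃ := tB i w₂) (N₁ := DB i) (N₂ := D' i) (hD' i) ?_ fun l hl => ?_))
  · have e1 := hD.t1 i w₁ v hw₁ h1 hv l1
    have e2 := hD.t1 i w₂ v hw₂ h2 hv l2
    have e3 := hD' i
    rcases min_choice (tB i w₁) (tB i w₂) with e | e <;> rw [e] <;> linarith
  · have e1 := hD.t2 i w₁ v hw₁ h1 hv l1 l hl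
    have e2 := hD.t2 i w₂ v hw₂ h2 hv l2 l hl
    have e3 := hD' i
    rcases min_choice (tB i w₁) (tB i w₂) with e | e <;> rw [e] <;> linarith

/-- **The jets of the first kind are a relative two-parameter family** over the velocities of the
chain and the jets of the second kind. -/
theorem rel_J (h : VCh S f y c d s a b wh sn G) (hlam : 0 < lam)
    (hE : EdJ wh sn d N lv σ₀ a b lam G) {n n' : ℕ} {k : Fin n → Fin m} {od : Fin n → ℕ}
    {tl : Fin n → ℚ → ℝ} {P : Fin n → ℚ → ℝ}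
    (hT : TgC S c d wh a b k tl) (hS : TgS wh d lv σ₀ a b lam tl) (hP : JtP wh a b od tl P)
    {kB : Fin n' → Fin m} {oB : Fin n' → ℕ} {tB : Fin n' → ℚ → ℝ} {DB : Fin n' → ℝ}
    (hB : TgC S c d wh a b kB tB) (hD : BdB wh d lv σ₀ a b lam oB tB DB) :
    TwoRelS S f y s (cdQ m c d wh sn N kB oB tB DB)
      (fun w o => jtQ m c d k od wh tl (fun i => P i o) w) a b lam := by
  have hmono := tg_mono h hT
  have hPn : ∀ i, ∀ v o : ℚ, a < v → v ≤ o → (o : ℝ) < b → P i v + od i * wh v ≤ tl i o ∧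
      P i o + od i * wh v ≤ tl i o := by
    intro i v o e1 e2 e3
    have e2' : (v : ℝ) ≤ o := by exact_mod_cast e2
    have e4 := hP.le i v e1 (by linarith)
    have e5 := hP.le i o (by linarith) e3
    have e6 := h.wm v o e1 e2 e3
    have e7 : (od i : ℝ) * wh v ≤ od i * wh o := mul_le_mul_of_nonneg_left e6 (Nat.cast_nonneg _)
    exact ⟨by linarith [hmono i v o e1 e2 e3], by linarith⟩
  refine
    { exs₀ := fun w e1 e2 => exs_cd h hB oB DB e1 e2
      exs := fun w o e1 e2 e3 e4 => exs_jt hT od e1 (lt_of_le_of_lt (by exact_mod_cast e2) e3) _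
      tr := fun w v e1 e2 e3 e4 => ?_
      row := fun w v o e1 e2 e3 e4 e5 => ?_
      chg := fun w v o e1 e2 e3 e4 e5 => ?_
      own := fun w v e1 e2 e3 e4 => ?_ }
  · have e2' : (w : ℝ) ≤ v := by exact_mod_cast e2
    have va : a < v := by linarith
    exact h.up va le_rfl e3 (few_cd h hE hD va e1 le_rfl e2 e3 (by linarith) e4
      fun _ => le_rfl)
  · have e2' : (w : ℝ) ≤ v := by exact_mod_cast e2
    have e3' : (v : ℝ) ≤ o := by exact_mod_cast e3
    have wb : (w : ℝ) < b := by linarith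
    have va : a < v := by linarith
    refine h.up e1 le_rfl wb (few_pi h.pos fun i => Few.pre h.pos
      (fun (u : ((Fin d → ℤ) × (Fin n' → ℤ)) × (Fin n → ℤ)) => (u.1.1, u.2 i))
      (fun K e J F A u hu => by exact ⟨hu.1.1, hu.2 i⟩)
      (few_tgj h hE e1 e1 e1 le_rfl le_rfl le_rfl wb (by linarith)
        (p₂ := tl i w) (p₃ := tl i w) (N₁ := P i o) (N₂ := P i v)
        (hP.mono i v o va e3 e4) ?_ fun l hl => ?_))
    · rw [min_self]
      linarith [hS.t1 i w v e1 e2 (by linarith) (by linarith), h.wm w v e1 e2 (by linarith),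
        (hPn i w v e1 e2 (by linarith)).2]
    · rw [min_self]
      linarith [hS.t2 i w v e1 e2 (by linarith) (by linarith) l hl,
        (hPn i w v e1 e2 (by linarith)).2]
  · have e2' : (w : ℝ) ≤ v := by exact_mod_cast e2
    have e3' : (v : ℝ) ≤ o := by exact_mod_cast e3
    have vb : (v : ℝ) < b := by linarith
    have va : a < v := by linarith
    refine h.up va le_rfl vb (few_pi h.pos fun i => Few.pre h.pos
      (fun (u : ((Fin d → ℤ) × (Fin n' → ℤ)) × (Fin n → ℤ)) => (u.1.1, u.2 i))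
      (fun K e J F A u hu => by exact ⟨hu.1.1, hu.2 i⟩)
      (few_tgj h hE e1 e1 va e2 e2 le_rfl vb (by linarith)
        (p₂ := tl i w) (p₃ := tl i v) (N₁ := P i o) (N₂ := P i o)
        le_rfl ?_ fun l hl => ?_))
    · rw [min_eq_left (hmono i w v e1 e2 vb)]
      linarith [hS.t1 i w o e1 (e2.trans e3) e4 e5, h.wm v o va e3 e4, (hPn i v o va e3 e4).2]
    · rw [min_eq_left (hmono i w v e1 e2 vb)]
      linarith [hS.t2 i w o e1 (e2.trans e3) e4 e5 l hl, (hPn i v o va e3 e4).2]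
  · have e2' : (w : ℝ) ≤ v := by exact_mod_cast e2
    have va : a < v := by linarith
    obtain ⟨C₀, htm⟩ := h.tm
    obtain ⟨u₁, rd, hrd, hch⟩ := h.ch.ch _ (h.wg v va e3).1
    refine h.up va le_rfl e3 (few_pi h.pos fun i => ?_)
    obtain ⟨rk, x1, x2⟩ := hT.att i v va e3
    refine few0_cut h.pos (exs_jet (N := P i v) (j := od i) x1 x2)
      (few0_jet htm hch.w0 hch.u0 (hP.le i v va e3) _ _ _) ?_
    refine Few.pre h.pos (fun (u : ((Fin d → ℤ) × (Fin n' → ℤ)) × ℤ) => (u.1.1, u.2))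
      (fun K e J F A u hu => by exact ⟨hu.1.1, hu.2⟩)
      (few_tgj h hE e1 va e1 e2 le_rfl e2 e3 e4
        (p₂ := tl i v) (p₃ := tl i w) (N₁ := P i v) (N₂ := P i v) le_rfl ?_ fun l hl => ?_)
    · rw [min_eq_right (hmono i w v e1 e2 e3)]
      linarith [hS.t1 i w v e1 e2 e3 e4, hP.le i v va e3]
    · rw [min_eq_right (hmono i w v e1 e2 e3)]
      linarith [hS.t2 i w v e1 e2 e3 e4 l hl, hP.le i v va e3]

/-! ### The number of the condition -/

section bits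

variable {n' : ℕ} {kB : Fin n' → Fin m} {oB : Fin n' → ℕ} {tB : Fin n' → ℚ → ℝ}
  {DB : Fin n' → ℝ}

/-- **The number of bits of the condition** behind the natural digits. -/
theorem J_bits (h : VCh S f y c d s a b wh sn G) (hE : EdJ wh sn d N lv σ₀ a b lam G)
    (hD : BdB wh d lv σ₀ a b lam oB tB DB)
    {w : ℚ} (hw : a < w) (hwb : (w : ℝ) < b) :
    FewC S f (vg ((w : ℝ) + s)) y (tQt m) (cdQ m c d wh sn N kB oB tB DB w)
      (∑ l : Fin d, Real.log 2 * (N l - (sn l (wh w) - wh w)) +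
        ∑ i : Fin n', Real.log 2 * (DB i - (tB i w - oB i * wh w))) := by
  obtain ⟨C₀, htm⟩ := h.tm
  obtain ⟨u₁, rd, hrd, hch⟩ := h.ch.ch _ (h.wg w hw hwb).1
  refine FewC.seq h.pos (V_bits h hE.ed hw hwb) ?_
  refine FewC.pre h.pos (fun _ : Unit × (Fin d → ℤ) => ()) (Q₂ := tQt m)
    (fun K e J F A u hu => by intro ω _; rfl) ?_
  refine fewC_pi h.pos fun i => few_more h.pos (N := tB i w - oB i * wh w) (N' := DB i) ?_
    (Few0.few h.pos (few0_jet htm hch.w0 hch.u0 (by linarith) _ _ _))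
  linarith [hD.nat i w hw hwb, hE.ed.σ0]

/-- **The number of the condition decreases.** -/
theorem J_anti (h : VCh S f y c d s a b wh sn G) (hlam : 0 < lam)
    (hE : EdJ wh sn d N lv σ₀ a b lam G)
    (hB : TgC S c d wh a b kB tB) (hD : BdB wh d lv σ₀ a b lam oB tB DB) {θ : ℚ → ℝ}
    (hθ : ∀ w : ℚ, a < w → (w : ℝ) < b →
      NN S f (vg ((w : ℝ) + s)) y (cdQ m c d wh sn N kB oB tB DB w) (θ w)) :
    ∀ w v : ℚ, a < w → w ≤ v → (v : ℝ) < b → θ v ≤ θ w := by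
  intro w₀ v₀ hw₀ hwv₀ hv₀
  refine rel_steps (R := fun w v => θ v ≤ θ w) (x := (w₀ : ℝ)) (z := (v₀ : ℝ)) (d := lam / 2)
    (half_pos hlam) ?_ (fun w v o _ _ _ _ h1 h2 => h2.trans h1) w₀ v₀ le_rfl hwv₀ le_rfl
  intro w v h1 h2 h3 h4
  have h2' : (w : ℝ) ≤ v := by exact_mod_cast h2
  have wa : a < w := by linarith
  have va : a < v := by linarith
  have vb : (v : ℝ) < b := by linarith
  obtain ⟨η, hη⟩ := h.rn w wa (by linarith)
  obtain ⟨η', hη'⟩ := h.rn v va vb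
  exact NN.anti h.ne h.pos (fun J F => ⟨fun x => x, fun _ => rfl⟩)
    (fun J F => vg_mono (by linarith) (by linarith [h.b1]) J F)
    (fun J F => ⟨fun x => x, fun _ => rfl⟩) hη hη' (hθ w wa (by linarith)) (hθ v va vb)
    (exs_cd h hB oB DB wa (by linarith)) (exs_cd h hB oB DB va vb)
    (h.up va le_rfl vb (few_cd h hE hD wa va h2 le_rfl vb (by linarith) (by linarith)
      fun _ => le_rfl))

/-- **The number of the condition** is at most the number of bits. -/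
theorem J_le (h : VCh S f y c d s a b wh sn G) (hE : EdJ wh sn d N lv σ₀ a b lam G)
    (hB : TgC S c d wh a b kB tB) (hD : BdB wh d lv σ₀ a b lam oB tB DB) {θ : ℝ} {w : ℚ}
    (hw : a < w) (hwb : (w : ℝ) < b)
    (hθ : NN S f (vg ((w : ℝ) + s)) y (cdQ m c d wh sn N kB oB tB DB w) θ) :
    0 ≤ θ ∧ θ ≤ ∑ l : Fin d, Real.log 2 * (N l - (sn l (wh w) - wh w)) +
        ∑ i : Fin n', Real.log 2 * (DB i - (tB i w - oB i * wh w)) := by
  obtain ⟨η, hη⟩ := h.rn w hw hwb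
  refine ⟨NN.nonneg h.ne h.pos hη hθ (exs_cd h hB oB DB hw hwb), ?_⟩
  have h0 : NN S f (vg ((w : ℝ) + s)) y (tQt m) 0 := by
    intro a ha
    refine ⟨1, one_pos, 1, one_pos, fun K => Bas.mono 0 (pos_bas h.pos) ?_⟩
    rintro J - F A hA V z hz u hu
    have h1 : CH (Pool.Agent.H49.Ent.cond F.p A True) u (fun ω => (z ω, y J F ω)) = 0 :=
      CH_eq_zero (isLaw_cond F.isLaw hA).nonneg fun _ _ _ _ _ => rfl
    rw [h1, zero_mul, sub_zero, abs_zero]
    positivity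
  have h2 := NN.inc h.ne h.pos hη h0 hθ exs_tQt (exs_cd h hB oB DB hw hwb)
    (J_bits h hE hD hw hwb)
  linarith

end bits

end

end Pool.LPJ30
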